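import Mathlib

/-!
# D2, part A: definitions

Paper text: `/team-store/D2_A.md`.  Folder `Pool/Agent/DA`.

* `VI`: the variational interface (the output of block V, the input of the blocks W, T, O).
* `Met`: a lattice-periodic directed distance of the plane with minimal curves.
* `phi`, `KS`: the stable norm and its dual body.
* `HasInd`: the index of a closed curve of complex numbers.
* `CI`: the output of part A.
-/

set_option autoImplicit false

namespace Pool.Agent.DA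

open Set Filter Topology

/-- The plane (with the sup norm). -/
abbrev R2 := ℝ × ℝ

/-- The lattice. -/
abbrev Z2 := ℤ × ℤ

/-- The inclusion of the lattice into the plane. -/
def lv (m : Z2) : R2 := ((m.1 : ℝ), (m.2 : ℝ))

/-- The pairing of two vectors. -/
def dt (c x : R2) : ℝ := c.1 * x.1 + c.2 * x.2

/-- The determinant of two vectors. -/
def dR (x y : R2) : ℝ := x.1 * y.2 - x.2 * y.1

/-- The determinant of two lattice vectors. -/
def dZ (m n : Z2) : ℤ := m.1 * n.2 - m.2 * n.1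

/-- Primitive lattice vectors. -/
def Prim (h : Z2) : Prop := IsCoprime h.1 h.2

/-- The first coordinate in the basis `e, e'` (with `dZ e e' = 1`). -/
def za (e' : Z2) (x : R2) : ℝ := dR x (lv e')

/-- The second coordinate in the basis `e, e'` (with `dZ e e' = 1`). -/
def zb (e : Z2) (x : R2) : ℝ := dR (lv e) x

/-- The complex coordinate in the basis `e, e'` (with `dZ e e' = 1`). -/
noncomputable def zc (e e' : Z2) (x : R2) : ℂ := (za e' x : ℂ) + (zb e x : ℂ) * Complex.I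

/-- The closed curve `w` of nonzero complex numbers (parameter in `[0,1]`) winds `N` times
around `0`. -/
def HasInd (w : ℝ → ℂ) (N : ℤ) : Prop :=
  ∃ g : ℝ → ℂ, ContinuousOn g (Icc 0 1) ∧ (∀ t ∈ Icc (0 : ℝ) 1, Complex.exp (g t) = w t) ∧
    g 1 = g 0 + (N : ℂ) * (2 * (Real.pi : ℂ) * Complex.I)

/-- A continuous lattice-periodic directed distance of the plane with minimal curves, whose
loops have positive cost for some cohomology class. -/
structure Met (d : R2 → R2 → ℝ) : Prop where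
  self : ∀ x, d x x = 0
  tri : ∀ x y z, d x z ≤ d x y + d y z
  per : ∀ x y (m : Z2), d (x + lv m) (y + lv m) = d x y
  cont : Continuous (fun p : R2 × R2 => d p.1 p.2)
  geo : ∀ x y, ∃ γ : ℝ → R2, Continuous γ ∧ γ 0 = x ∧ γ 1 = y ∧
    ∀ s t, 0 ≤ s → s ≤ t → t ≤ 1 → d x (γ s) + d (γ s) (γ t) + d (γ t) y = d x y
  pos : ∃ c0 : R2, ∃ κ > 0, ∀ x (m : Z2), dt c0 (lv m) + κ * ‖lv m‖ ≤ d x (x + lv m)

/-- The stable norm: the least cost of a loop of class `m`. -/
noncomputable def phi (d : R2 → R2 → ℝ) (m : Z2) : ℝ := ⨅ x : R2, d x (x + lv m)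

/-- The dual body of the stable norm. -/
def KS (d : R2 → R2 → ℝ) : Set R2 := {c | ∀ m : Z2, dt c (lv m) ≤ phi d m}

/-- The dual body is strictly convex. -/
def SCK (d : R2 → R2 → ℝ) : Prop :=
  ∀ c ∈ KS d, ∀ c' ∈ KS d, c ≠ c' → (1 / 2 : ℝ) • (c + c') ∈ interior (KS d)

/-- The variational interface (output of block V): the flow of an autonomous Tonelli
Lagrangian of the plane with periodic coefficients, `X` position, `W` velocity, `A` action,
`e` energy, `D` the potential of energy `E` (the infimum of the action `L + E` of the curves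
from `x` to `y`, of free duration), `al` the alpha function, `E0` its minimum. -/
structure VI where
  X : ℝ → R2 → R2 → R2
  W : ℝ → R2 → R2 → R2
  A : ℝ → R2 → R2 → ℝ
  e : R2 → R2 → ℝ
  D : ℝ → R2 → R2 → ℝ
  al : R2 → ℝ
  E0 : ℝ
  X0 : ∀ x v, X 0 x v = x
  W0 : ∀ x v, W 0 x v = v
  A0 : ∀ x v, A 0 x v = 0
  Xadd : ∀ s t x v, X (s + t) x v = X t (X s x v) (W s x v)
  Wadd : ∀ s t x v, W (s + t) x v = W t (X s x v) (W s x v)
  Aadd : ∀ s t x v, A (s + t) x v = A s x v + A t (X s x v) (W s x v)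
  Xder : ∀ t x v, HasDerivAt (fun s => X s x v) (W t x v) t
  Xper : ∀ t x v (m : Z2), X t (x + lv m) v = X t x v + lv m
  Wper : ∀ t x v (m : Z2), W t (x + lv m) v = W t x v
  Aper : ∀ t x v (m : Z2), A t (x + lv m) v = A t x v
  Xcont : Continuous (fun p : ℝ × R2 × R2 => X p.1 p.2.1 p.2.2)
  Wcont : Continuous (fun p : ℝ × R2 × R2 => W p.1 p.2.1 p.2.2)
  Acont : Continuous (fun p : ℝ × R2 × R2 => A p.1 p.2.1 p.2.2)
  econs : ∀ t x v, e (X t x v) (W t x v) = e x v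
  eper : ∀ x v (m : Z2), e (x + lv m) v = e x v
  econt : Continuous (fun p : R2 × R2 => e p.1 p.2)
  eray : ∀ x v, v ≠ 0 → StrictMonoOn (fun s : ℝ => e x (s • v)) (Ici 0)
  ebd : ∀ R, ∃ C, ∀ x v, e x v ≤ R → ‖v‖ ≤ C
  e0 : ∀ x, e x 0 ≤ E0
  Dself : ∀ E, E0 < E → ∀ x, D E x x = 0
  Dtri : ∀ E, E0 < E → ∀ x y z, D E x z ≤ D E x y + D E y z
  Dper : ∀ E, E0 < E → ∀ x y (m : Z2), D E (x + lv m) (y + lv m) = D E x y
  Dcont : ContinuousOn (fun p : ℝ × R2 × R2 => D p.1 p.2.1 p.2.2) {p | E0 < p.1}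
  Dact : ∀ E, E0 < E → ∀ t x v, 0 ≤ t → D E x (X t x v) ≤ A t x v + E * t
  Dex : ∀ E, E0 < E → ∀ x y, x ≠ y →
    ∃ v t, 0 < t ∧ e x v = E ∧ X t x v = y ∧ A t x v + E * t = D E x y
  Dtime : ∀ E1 E2, E0 < E1 → ∃ C, ∀ E x y v t, E1 ≤ E → E ≤ E2 → 0 < t → e x v = E →
    X t x v = y → A t x v + E * t = D E x y → t ≤ C * (1 + ‖y - x‖)
  corner : ∀ τ R, 0 < τ → ∃ κ > 0, ∀ s t x v w E, τ ≤ s → τ ≤ t → e x v ≤ R →
    e (X t x v) w ≤ R → E0 < E → D E x (X s (X t x v) w) ≤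
      A t x v + A s (X t x v) w + E * (t + s) - κ * ‖W t x v - w‖ ^ 2
  bridge : ∀ E, E0 < E → ∀ c, al c ≤ E ↔ ∀ x (m : Z2), dt c (lv m) ≤ D E x (x + lv m)
  alsc : StrictConvexOn ℝ univ al
  almin : ∃ c0, al c0 = E0
  alge : ∀ c, E0 ≤ al c

variable (P : VI)

/-- A minimal arc of energy `E` from `x` to `y`, of duration `t`, with initial velocity `v`. -/
def VI.Arc (E : ℝ) (x v : R2) (t : ℝ) (y : R2) : Prop :=
  0 < t ∧ P.e x v = E ∧ P.X t x v = y ∧ P.A t x v + E * t = P.D E x y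

open Classical in
/-- Initial velocity and duration of the minimal arc of energy `E` from `x` to `x + h`. -/
noncomputable def VI.lf (E : ℝ) (h : Z2) (x : R2) : R2 × ℝ :=
  if H : ∃ p : R2 × ℝ, P.Arc E x p.1 p.2 (x + lv h) then Classical.choose H else (0, 0)

/-- The velocity of the closed orbit of energy `E` and class `h` through `x`. -/
noncomputable def VI.V (E : ℝ) (h : Z2) (x : R2) : R2 := (P.lf E h x).1

/-- The period of the closed orbit of energy `E` and class `h` through `x`. -/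
noncomputable def VI.TT (E : ℝ) (h : Z2) (x : R2) : ℝ := (P.lf E h x).2

/-- The output of part A: conditions (C1)-(C8). -/
structure CI (V : ℝ → Z2 → R2 → R2) (T m : ℝ → Z2 → ℝ) : Prop where
  c1e : ∀ E h x, P.E0 < E → Prim h → P.e x (V E h x) = E
  c1p : ∀ E h x (k : Z2), P.E0 < E → Prim h → V E h (x + lv k) = V E h x
  c1c : ∀ h, Prim h → ContinuousOn (fun p : ℝ × R2 => V p.1 h p.2) {p | P.E0 < p.1}
  c2T : ∀ E h, P.E0 < E → Prim h → 0 < T E h
  c2X : ∀ E h x, P.E0 < E → Prim h → P.X (T E h) x (V E h x) = x + lv h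
  c2W : ∀ E h x t, P.E0 < E → Prim h →
    P.W t x (V E h x) = V E h (P.X t x (V E h x))
  c2c : ∀ h, Prim h → ContinuousOn (fun E => T E h) (Ioi P.E0)
  c3 : ∀ E h x, P.E0 < E → Prim h → P.A (T E h) x (V E h x) + E * T E h = m E h
  c4 : ∀ E h x (n : ℕ), P.E0 < E → Prim h →
    n * m E h ≤ P.D E x (x + (n : ℝ) • lv h)
  c5 : ∀ E h h' x t t', P.E0 < E → Prim h → Prim h' → h ≠ h' → 0 < t → 0 < t' →
    P.X t x (V E h x) ≠ P.X t' x (V E h' x)
  c6 : ∀ E x v (ε : ℝ), P.E0 < E → P.e x v = E → 0 < ε →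
    ∃ h, Prim h ∧ ‖V E h x - v‖ < ε
  c7 : ∀ E1 (h h' : Z2) (ε : ℝ), P.E0 < E1 → dZ h h' = 1 → 0 < ε → ∃ κ > 0, ∀ x E (k m : ℕ),
    |E - E1| < κ → 1 ≤ k → 1 ≤ m → Nat.Coprime k m → (m : ℝ) < κ * k →
    ‖V E (k • h + m • h') x - V E1 h x‖ < ε
  c8 : interior {p : R2 × R2 | P.e p.1 p.2 ≤ P.E0} = ∅

end Pool.Agent.DA
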