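import Pool.Agent.DA.TSub

/-!
# D2 part A, T3b, T4: the dual body, excess
-/

set_option autoImplicit false

namespace Pool.Agent.DA

open Set Filter Topology

variable {d : R2 → R2 → ℝ}

private theorem dt_cont (w : R2) : Continuous fun c : R2 => dt c w := by
  unfold dt
  fun_prop

private theorem dt_sub (q c r : R2) : dt (q - c) r = dt q r - dt c r := by
  unfold dt
  simp only [Prod.fst_sub, Prod.snd_sub]
  ring

/-- The dual body is compact (closed; the coordinates are bounded by `phi d (±1,0)` and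
`phi d (0,±1)`). -/
theorem Met.KS_compact (h : Met d) : IsCompact (KS d) := by
  have _ := h
  have hcl : IsClosed (KS d) := by
    have e1 : KS d = ⋂ m : Z2, {c | dt c (lv m) ≤ phi d m} := by
      ext c
      simp [KS]
    rw [e1]
    exact isClosed_iInter fun m => isClosed_le (dt_cont _) continuous_const
  have hK : IsCompact (Icc (-phi d (-1, 0)) (phi d (1, 0)) ×ˢ
      Icc (-phi d (0, -1)) (phi d (0, 1))) := isCompact_Icc.prod isCompact_Icc
  refine hK.of_isClosed_subset hcl fun c hc => ?_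
  have h1 := hc (1, 0)
  have h2 := hc (-1, 0)
  have h3 := hc (0, 1)
  have h4 := hc (0, -1)
  simp only [dt, lv, Int.cast_one, Int.cast_zero, Int.cast_neg, mul_one, mul_zero, add_zero,
    zero_add, mul_neg] at h1 h2 h3 h4
  exact ⟨⟨by linarith, h1⟩, ⟨by linarith, h3⟩⟩

/-- Uniqueness of maximizers.

Proof. If `c ≠ c'` then `q = (1 / 2) • (c + c')` is in the interior of `KS d` (`SCK`), so
`q + t • w ∈ KS d` for some `t > 0`, and
`dt (q + t • w) w = dt c w + t (w.1 ^ 2 + w.2 ^ 2) > dt c w` (the two maxima are equal). -/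
theorem Met.uniq (hs : SCK d) {w : R2} (hw : w ≠ 0) {c c' : R2} (hc : c ∈ KS d)
    (hc' : c' ∈ KS d) (hm : ∀ q ∈ KS d, dt q w ≤ dt c w) (hm' : ∀ q ∈ KS d, dt q w ≤ dt c' w) :
    c = c' := by
  by_contra hne
  have h1 := mem_interior_iff_mem_nhds.1 (hs c hc c' hc' hne)
  have h2 : Continuous fun t : ℝ => (1 / 2 : ℝ) • (c + c') + t • w := by fun_prop
  have h3 : Tendsto (fun t : ℝ => (1 / 2 : ℝ) • (c + c') + t • w) (𝓝 0)
      (𝓝 ((1 / 2 : ℝ) • (c + c'))) := by
    have h4 := h2.tendsto 0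
    simpa using h4
  have h4 : ∀ᶠ t in 𝓝[>] (0 : ℝ), (1 / 2 : ℝ) • (c + c') + t • w ∈ KS d :=
    (h3.eventually h1).filter_mono nhdsWithin_le_nhds
  obtain ⟨t, ht, ht0⟩ := (h4.and self_mem_nhdsWithin).exists
  have h5 := hm _ ht
  have h6 := hm _ hc'
  have h7 := hm' _ hc
  have h8 : 0 < w.1 ^ 2 + w.2 ^ 2 := by
    rcases lt_or_eq_of_le (add_nonneg (sq_nonneg w.1) (sq_nonneg w.2)) with h9 | h9
    · exact h9
    · exfalso
      apply hw
      have h10 : w.1 ^ 2 = 0 := by nlinarith [sq_nonneg w.1, sq_nonneg w.2]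
      have h11 : w.2 ^ 2 = 0 := by nlinarith [sq_nonneg w.1, sq_nonneg w.2]
      ext1
      · exact pow_eq_zero_iff (two_ne_zero) |>.1 h10
      · exact pow_eq_zero_iff (two_ne_zero) |>.1 h11
  have h12 : 0 < t * (w.1 ^ 2 + w.2 ^ 2) := mul_pos ht0 h8
  have h13 : dt ((1 / 2 : ℝ) • (c + c') + t • w) w =
      (1 / 2) * (dt c w + dt c' w) + t * (w.1 ^ 2 + w.2 ^ 2) := by
    unfold dt
    simp only [Prod.fst_add, Prod.snd_add, Prod.smul_fst, Prod.smul_snd, smul_eq_mul]
    ring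
  rw [h13] at h5
  linarith

/-- Existence of maximizers (compactness; the body is not empty by `Met.phi_pos`). -/
theorem Met.exists_max (h : Met d) (w : R2) :
    ∃ c ∈ KS d, ∀ q ∈ KS d, dt q w ≤ dt c w := by
  obtain ⟨c0, κ, hκ, hc0⟩ := h.phi_pos
  have hne : (KS d).Nonempty := ⟨c0, fun m => by
    have h1 := hc0 m
    have h2 : 0 ≤ κ * ‖lv m‖ := mul_nonneg hκ.le (norm_nonneg _)
    linarith⟩
  obtain ⟨c, hc, hmax⟩ := h.KS_compact.exists_isMaxOn hne (dt_cont w).continuousOn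
  exact ⟨c, hc, fun q hq => hmax hq⟩

/-- The excess tends to zero (T4).

Proof. Let `B` bound the norms of the elements of the compact set `KS d`.  We may suppose
`0 ≤ R`.  Let `η > 0` with `4 η (R + 1) ≤ ε`.

Step 1: there is `δ > 0` such that `q ∈ KS d` and `dt c w - δ ≤ dt q w` imply `‖q - c‖ ≤ η`.
Otherwise the compact set `{q ∈ KS d | η ≤ ‖q - c‖}` is not empty and on it `dt q w` has a
maximum `M`, at some `q1`; `M ≤ dt c w`; if `M = dt c w` then `q1` is a maximizer and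
`Met.uniq` gives `q1 = c`, contradiction; so `δ = (dt c w - M) / 2` is good (if the set is
empty any `δ` is good).

Step 2: take `M > 0` with `4 B R ≤ δ M`.  Let `k` and `lam ≥ M` be as in the statement and
`q = c(k)` from `Met.exists_c` (so `q ∈ KS d`, `dt q (lv k) = phi d k`).  As `c ∈ KS d`:
`dt c (lv k) ≤ dt q (lv k)`.  With `lv k = lam • w + r`, `‖r‖ ≤ R`:
`lam (dt q w - dt c w) ≥ - |dt (q - c) r| ≥ - 2 (2 B) R`, so `dt q w ≥ dt c w - δ`, so
`‖q - c‖ ≤ η`.  Finally `phi d k - dt c (lv k) = dt (q - c) (lv k)`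
`= lam (dt q w - dt c w) + dt (q - c) r ≤ 0 + 2 η R ≤ ε`. -/
theorem Met.excess (h : Met d) (hs : SCK d) {w : R2} (hw : w ≠ 0) {c : R2} (hc : c ∈ KS d)
    (hm : ∀ q ∈ KS d, dt q w ≤ dt c w) {ε : ℝ} (R : ℝ) (hε : 0 < ε) :
    ∃ M > 0, ∀ (k : Z2) (lam : ℝ), M ≤ lam → ‖lv k - lam • w‖ ≤ R →
      phi d k ≤ dt c (lv k) + ε := by
  obtain ⟨B, hB⟩ := h.KS_compact.isBounded.exists_norm_le
  have hB0 : 0 ≤ B := (norm_nonneg c).trans (hB c hc)
  obtain ⟨S, hS0, hRS⟩ : ∃ S : ℝ, 0 ≤ S ∧ R ≤ S := ⟨max R 0, le_max_right _ _, le_max_left _ _⟩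
  obtain ⟨η, hη, hηS⟩ : ∃ η : ℝ, 0 < η ∧ 4 * η * (S + 1) = ε :=
    ⟨ε / (4 * (S + 1)), by positivity, by field_simp⟩
  -- step 1
  obtain ⟨δ, hδ, H⟩ : ∃ δ : ℝ, 0 < δ ∧ ∀ q ∈ KS d, dt c w - δ ≤ dt q w → ‖q - c‖ ≤ η := by
    have hcl : IsClosed {q : R2 | η ≤ ‖q - c‖} := isClosed_le continuous_const (by fun_prop)
    have hK : IsCompact (KS d ∩ {q : R2 | η ≤ ‖q - c‖}) := h.KS_compact.inter_right hcl
    rcases (KS d ∩ {q : R2 | η ≤ ‖q - c‖}).eq_empty_or_nonempty with he | hne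
    · refine ⟨1, one_pos, fun q hq _ => ?_⟩
      by_contra hcon
      have h1 : q ∈ KS d ∩ {q : R2 | η ≤ ‖q - c‖} := ⟨hq, (not_le.1 hcon).le⟩
      rw [he] at h1
      exact h1
    · obtain ⟨q1, hq1, hmax⟩ := hK.exists_isMaxOn hne (dt_cont w).continuousOn
      have h1 : dt q1 w < dt c w := by
        refine lt_of_le_of_ne (hm q1 hq1.1) fun h0 => ?_
        have h2 := Met.uniq hs hw hq1.1 hc (fun q hq => (hm q hq).trans_eq h0.symm) hm
        have h3 : η ≤ ‖q1 - c‖ := hq1.2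
        rw [h2, sub_self, norm_zero] at h3
        linarith
      refine ⟨(dt c w - dt q1 w) / 2, by linarith, fun q hq hle => ?_⟩
      by_contra hcon
      have h4 : dt q w ≤ dt q1 w := hmax ⟨hq, (not_le.1 hcon).le⟩
      linarith
  -- step 2
  refine ⟨4 * B * S / δ + 1, by positivity, fun k lam hlam hk => ?_⟩
  obtain ⟨q, hq, hqk⟩ := h.exists_c k
  have hr := hk.trans hRS
  have e1 : ∀ p : R2, dt p (lv k) = lam * dt p w + dt p (lv k - lam • w) := by
    intro p
    unfold dt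
    simp only [Prod.fst_sub, Prod.snd_sub, Prod.smul_fst, Prod.smul_snd, smul_eq_mul]
    ring
  have e2 : ∀ p ∈ KS d, |dt p (lv k - lam • w)| ≤ 2 * B * S := by
    intro p hp
    refine (abs_dt_le _ _).trans ?_
    exact mul_le_mul (by linarith [hB p hp]) hr (norm_nonneg _) (by linarith)
  have b1 := abs_le.1 (e2 q hq)
  have b2 := abs_le.1 (e2 c hc)
  have h1 : dt c (lv k) ≤ dt q (lv k) := by
    rw [hqk]
    exact hc k
  have hlam0 : 0 < lam := by
    have : 0 ≤ 4 * B * S / δ := by positivity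
    linarith
  have h2 : dt c w - δ ≤ dt q w := by
    by_contra hcon
    rw [not_le] at hcon
    have h3 : 4 * B * S < lam * δ := by
      have h4 : 4 * B * S / δ < lam := by linarith
      rwa [div_lt_iff₀ hδ] at h4
    have h5 : lam * δ < lam * (dt c w - dt q w) := by
      apply mul_lt_mul_of_pos_left _ hlam0
      linarith
    rw [e1 c, e1 q] at h1
    linarith
  have h3 := H q hq h2
  have h4 : lam * dt q w ≤ lam * dt c w := mul_le_mul_of_nonneg_left (hm q hq) hlam0.le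
  have h5 : dt q (lv k - lam • w) - dt c (lv k - lam • w) ≤ 2 * η * S := by
    rw [← dt_sub]
    refine (le_abs_self _).trans ((abs_dt_le _ _).trans ?_)
    exact mul_le_mul (by linarith) hr (norm_nonneg _) (by linarith)
  rw [← hqk, e1 q, e1 c]
  nlinarith

end Pool.Agent.DA
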