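import Pool.Agent.DA.ULCon

/-!
# D2 part A: the corner inequality (G)
-/

set_option autoImplicit false

namespace Pool.Agent.DA

open Set Filter Topology

variable (P : VI)

/-- THE CORNER INEQUALITY (G): the distance of two leaf velocities at a point is controlled by
the excesses of the classes, uniformly for the energies in `(E0, R]`.

Proof. `C > 0` bounds the velocities of energy at most `R` (`ebd`), `τ = 1 / C`; `κ` from `corner τ R`.
`TT E k x ≥ τ`, `TT E k' x ≥ τ` (`VI.one_le_period`).  The arc of class `k` from `x` to `x + k` followed by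
the arc of class `k'` from `x + k` with initial velocity `w = V E k' x = V E k' (x + k)`
(`VI.lf_per`): `W T x V = V` (`VI.lf_uniq`), so by `corner`
`D E x (x + k + k') ≤ phi k + phi k' - κ ‖V E k x - V E k' x‖ ^ 2`, and
`dt c (lv k) + dt c (lv k') = dt c (lv (k + k')) ≤ phi (k + k') ≤ D E x (x + k + k')`. -/
theorem VI.gap (R : ℝ) : ∃ κ > 0, ∀ E, P.E0 < E → E ≤ R → ∀ c ∈ KS (P.D E), ∀ k k' : Z2,
    Prim k → Prim k' → ∀ x, κ * ‖P.V E k x - P.V E k' x‖ ^ 2 ≤
      (phi (P.D E) k - dt c (lv k)) + (phi (P.D E) k' - dt c (lv k')) := by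
  obtain ⟨C0, hC0⟩ := P.ebd R
  obtain ⟨C, hCd⟩ : ∃ C, C = max C0 1 := ⟨_, rfl⟩
  have hCpos : 0 < C := by
    rw [hCd]
    exact lt_of_lt_of_le one_pos (le_max_right _ _)
  have hC : ∀ x v, P.e x v ≤ R → ‖v‖ ≤ C := fun x v h => by
    rw [hCd]
    exact (hC0 x v h).trans (le_max_left _ _)
  obtain ⟨κ, hκ, hcor⟩ := P.corner (1 / C) R (by positivity)
  refine ⟨κ, hκ, fun E hE hER c hc k k' hk hk' x => ?_⟩
  have hp := P.one_le_period hC hE hER hk x
  have hp' := P.one_le_period hC hE hER hk' (x + lv k)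
  have a1 := P.lf_arc hE hk x
  have a2 := P.lf_arc hE hk' (x + lv k)
  obtain ⟨hT, he, hX, hA⟩ := a1
  obtain ⟨hT', he', hX', hA'⟩ := a2
  have hW : P.W (P.TT E k x) x (P.V E k x) = P.V E k x :=
    (P.lf_uniq hE hk (P.lf_arc hE hk x)).2.2
  have hV' : P.V E k' (x + lv k) = P.V E k' x := (P.lf_per hE hk' x k).1
  have hT1 : 1 / C ≤ P.TT E k x := by
    rw [div_le_iff₀ hCpos]
    linarith [mul_comm C (P.TT E k x)]
  have hT2 : 1 / C ≤ P.TT E k' (x + lv k) := by
    rw [div_le_iff₀ hCpos]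
    linarith [mul_comm C (P.TT E k' (x + lv k))]
  have hc1 := hcor (P.TT E k' (x + lv k)) (P.TT E k x) x (P.V E k x)
    (P.V E k' (x + lv k)) E hT2 hT1 (by rw [he]; exact hER) (by rw [hX, he']; exact hER) hE
  rw [hX, hX', hW, hV'] at hc1
  rw [hV'] at hA'
  have hf1 := P.fill hE hk x
  have hf2 := P.fill hE hk' (x + lv k)
  have hm : Met (P.D E) := P.met hE
  have h3 : phi (P.D E) (k + k') ≤ P.D E x (x + lv k + lv k') := by
    have := hm.phi_le x (k + k')
    rw [lv_add, ← add_assoc] at this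
    exact this
  have h4 : dt c (lv k) + dt c (lv k') ≤ phi (P.D E) (k + k') := by
    have := hc (k + k')
    rw [lv_add, dt_add] at this
    exact this
  rw [hf1] at hA
  rw [hf2] at hA'
  nlinarith [hc1, h3, h4, hA, hA']

/-- The stable norm is bounded on bounded sets of energies (`VI.met`; `phi` is nondecreasing in
`E`: `KS (D E)` is increasing in `E` and `phi (D E) m` is its support function by
`Met.exists_c`, or directly: compare with one point `x` and the continuity of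
`E ↦ D E x (x + lv m)` on a compact interval). -/
theorem VI.phi_bdd {E1 E2 : ℝ} (h1 : P.E0 < E1) (m : Z2) :
    ∃ C, ∀ E, E1 ≤ E → E ≤ E2 → phi (P.D E) m ≤ C := by
  have hcont : ContinuousOn (fun E : ℝ => P.D E 0 (0 + lv m)) (Icc E1 E2) := by
    have h2 : ContinuousOn (fun E : ℝ => ((E, (0 : R2), (0 : R2) + lv m) : ℝ × R2 × R2))
        (Icc E1 E2) := by
      exact (by fun_prop : Continuous fun E : ℝ =>
        ((E, (0 : R2), (0 : R2) + lv m) : ℝ × R2 × R2)).continuousOn
    exact P.Dcont.comp h2 (fun E hE => lt_of_lt_of_le h1 hE.1)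
  obtain ⟨C, hC⟩ := (isCompact_Icc.image_of_continuousOn hcont).bddAbove
  refine ⟨C, fun E hE1 hE2 => ?_⟩
  have hE : P.E0 < E := lt_of_lt_of_le h1 hE1
  exact ((P.met hE).phi_le 0 m).trans (hC ⟨E, ⟨hE1, hE2⟩, rfl⟩)

/-- Primitive combinations. -/
theorem prim_comb {h h' : Z2} (hh : dZ h h' = 1) {k m : ℕ} (hkm : Nat.Coprime k m) :
    Prim (k • h + m • h') := by
  have hco : IsCoprime (k : ℤ) (m : ℤ) := Nat.isCoprime_iff_coprime.2 hkm
  obtain ⟨u, v, huv⟩ := hco
  have hz : h.1 * h'.2 - h.2 * h'.1 = 1 := hh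
  refine ⟨u * h'.2 - v * h.2, v * h.1 - u * h'.1, ?_⟩
  have e1 : (k • h + m • h').1 = (k : ℤ) * h.1 + (m : ℤ) * h'.1 := by
    simp [Prod.fst_add, nsmul_eq_mul]
  have e2 : (k • h + m • h').2 = (k : ℤ) * h.2 + (m : ℤ) * h'.2 := by
    simp [Prod.snd_add, nsmul_eq_mul]
  rw [e1, e2]
  linear_combination (u * k + v * m) * hz + huv

end Pool.Agent.DA
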