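import Pool.Agent.DA.UC5
import Pool.Agent.DA.UGap
import Pool.Agent.DA.TExc
import Pool.Agent.DO.OMain
import Pool.Agent.DW.Chord

/-!
# D2 part A, C6: density of the velocities

The abstract theorem is `Pool.Agent.DO.OD.dense`.
-/

set_option autoImplicit false

namespace Pool.Agent.DA

open Set Filter Topology Pool.Agent.DO

/-- The plane as the complex numbers. -/
def cx (x : R2) : ℂ := ⟨x.1, x.2⟩

theorem cx_cont : Continuous cx := by
  have h : cx = fun x : R2 => (x.1 : ℂ) + (x.2 : ℂ) * Complex.I := by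
    funext x
    exact Complex.ext (by simp [cx]) (by simp [cx])
  rw [h]
  fun_prop

theorem cx_sub (x y : R2) : cx (x - y) = cx x - cx y := by
  apply Complex.ext <;> simp [cx]

theorem cx_zero : cx 0 = 0 := by
  apply Complex.ext <;> simp [cx]

theorem cx_smul (r : ℝ) (x : R2) : cx (r • x) = r * cx x := by
  apply Complex.ext <;> simp [cx]

theorem cx_inj {x y : R2} (h : cx x = cx y) : x = y :=
  Prod.ext (congrArg Complex.re h) (congrArg Complex.im h)

theorem cx_ne {x : R2} (h : x ≠ 0) : cx x ≠ 0 := fun h0 => h (cx_inj (h0.trans cx_zero.symm))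

theorem norm_le_cx (x : R2) : ‖x‖ ≤ ‖cx x‖ := by
  rw [Prod.norm_def]
  exact max_le (Complex.abs_re_le_norm (cx x)) (Complex.abs_im_le_norm (cx x))

theorem cx_le (x : R2) : ‖cx x‖ ≤ 2 * ‖x‖ := by
  have h1 : ‖cx x‖ ≤ |x.1| + |x.2| := Complex.norm_le_abs_re_add_abs_im (cx x)
  have h2 : |x.1| ≤ ‖x‖ := by rw [← Real.norm_eq_abs]; exact norm_fst_le x
  have h3 : |x.2| ≤ ‖x‖ := by rw [← Real.norm_eq_abs]; exact norm_snd_le x
  linarith

theorem cx_lv (k : Z2) : cx (lv k) = kc k := by
  apply Complex.ext <;> simp [cx, lv, kc]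

/-- the real-linear map `cx` -/
theorem cx_hasDerivAt {f : ℝ → R2} {f' : R2} {t : ℝ} (h : HasDerivAt f f' t) :
    HasDerivAt (fun s => cx (f s)) (cx f') t := by
  have h1 : HasDerivAt (fun s => (f s).1) f'.1 t := h.fst
  have h2 : HasDerivAt (fun s => (f s).2) f'.2 t := h.snd
  have h3 := (h1.ofReal_comp).add ((h2.ofReal_comp).mul_const Complex.I)
  have e1 : (fun s => cx (f s)) =
      fun s => (((f s).1 : ℝ) : ℂ) + (((f s).2 : ℝ) : ℂ) * Complex.I := by
    funext s
    exact Complex.ext (by simp [cx]) (by simp [cx])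
  have e2 : cx f' = ((f'.1 : ℝ) : ℂ) + ((f'.2 : ℝ) : ℂ) * Complex.I :=
    Complex.ext (by simp [cx]) (by simp [cx])
  rw [e1, e2]
  exact h3

variable (P : VI)

/-- The speeds of energy `E > E0` at `x` are bounded below. -/
theorem VI.low {E : ℝ} (hE : P.E0 < E) (x : R2) : ∃ c > 0, ∀ v, P.e x v = E → c ≤ ‖v‖ := by
  have h1 : Continuous fun v : R2 => P.e x v :=
    P.econt.comp (f := fun v : R2 => (x, v)) (by fun_prop)
  have h2 : ∀ᶠ v in 𝓝 (0 : R2), P.e x v < E :=
    h1.continuousAt.eventually_lt continuousAt_const ((P.e0 x).trans_lt hE)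
  obtain ⟨c, hc, h3⟩ := Metric.eventually_nhds_iff.1 h2
  refine ⟨c, hc, fun v hv => ?_⟩
  by_contra hlt
  push Not at hlt
  have := h3 (y := v) (by rwa [dist_zero_right])
  linarith

/-- The data of the abstract density theorem. -/
theorem VI.od {E : ℝ} (hE : P.E0 < E) (x : R2) :
    OD (fun k => cx (P.V E k x)) (fun k => P.TT E k x)
      (fun k t => cx (P.X t x (P.V E k x) - x)) where
  cont k hk := cx_cont.comp ((P.Xcont.comp (by fun_prop :
    Continuous fun t : ℝ => (t, x, P.V E k x))).sub continuous_const)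
  zero k hk := by simp only [P.X0, sub_self, cx_zero]
  ne k hk t ht h0 := by
    have h1 : P.X t x (P.V E k x) = P.X 0 x (P.V E k x) := by
      rw [P.X0]
      exact sub_eq_zero.1 (cx_inj (h0.trans cx_zero.symm))
    exact ht.ne' (P.leaf_inj hE hk x h1)
  der k hk := by
    have h1 := P.Xder 0 x (P.V E k x)
    rw [P.W0] at h1
    exact cx_hasDerivAt (h1.sub_const x)
  low := by
    obtain ⟨c, hc, h1⟩ := P.low hE x
    exact ⟨c, hc, fun k hk => (h1 _ (P.lf_arc hE hk x).2.1).trans (norm_le_cx _)⟩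
  Pp k hk := (P.lf_arc hE hk x).1
  bd k hk := by
    have hT := (P.lf_arc hE hk x).1
    set T := P.TT E k x with hTdef
    set v := P.V E k x with hv
    have hX : P.X T x v = x + lv k := (P.lf_arc hE hk x).2.2.1
    have hW : P.W T x v = v := (P.lf_uniq hE hk (P.lf_arc hE hk x)).2.2
    obtain ⟨C, hC, h1⟩ := Pool.Agent.DW.near_line (γ := fun s : ℝ => P.X (s * T) x v - x)
      (w := lv k) ((P.Xcont.comp (by fun_prop : Continuous fun s : ℝ => (s * T, x, v))).sub
        continuous_const) (by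
        intro s
        have := P.X_shift hX hW (s * T)
        have e : (s + 1) * T = s * T + T := by ring
        rw [e, this]
        abel)
    refine ⟨2 * C, fun t _ => ?_⟩
    have h2 := h1 (t / T)
    have e1 : t / T * T = t := by field_simp
    simp only [e1] at h2
    have e2 : cx (P.X t x v - x) - t * (kc k / T) = cx (P.X t x v - x - (t / T) • lv k) := by
      rw [cx_sub _ ((t / T) • lv k), cx_smul, cx_lv]
      push_cast
      ring
    rw [e2]
    exact (cx_le _).trans (by linarith)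
  dis k k' hk hk' hne t ht t' ht' h0 := by
    have h1 := cx_inj h0
    exact P.c5 hE hk hk' hne x ht ht' (sub_left_injective h1)
  dir k k' hk hk' hne h0 := by
    obtain ⟨c, hc, hlow⟩ := P.low hE x
    set v := P.V E k x with hv
    set v' := P.V E k' x with hv'
    have he : P.e x v = E := (P.lf_arc hE hk x).2.1
    have he' : P.e x v' = E := (P.lf_arc hE hk' x).2.1
    have n1 : 0 < ‖cx v‖ := (hc.trans_le (hlow v he)).trans_le (norm_le_cx v)
    have n2 : 0 < ‖cx v'‖ := (hc.trans_le (hlow v' he')).trans_le (norm_le_cx v')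
    have hv0 : v ≠ 0 := by
      rintro h00
      rw [h00, cx_zero, norm_zero] at n1
      exact lt_irrefl _ n1
    have e1 : v' = (‖cx v'‖ / ‖cx v‖) • v := by
      apply cx_inj
      rw [cx_smul]
      have m1 : (‖cx v‖ : ℂ) ≠ 0 := by exact_mod_cast n1.ne'
      have m2 : (‖cx v'‖ : ℂ) ≠ 0 := by exact_mod_cast n2.ne'
      push_cast
      rw [div_eq_div_iff m1 m2] at h0
      field_simp
      linear_combination -h0
    have h1 := (P.eray x v hv0).injOn (x₁ := 1) (x₂ := ‖cx v'‖ / ‖cx v‖)
      (mem_Ici.2 zero_le_one) (mem_Ici.2 (by positivity)) (by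
        rw [one_smul, ← e1, he, he'])
    rw [← h1, one_smul] at e1
    exact P.V_ne hE hk hk' hne x e1.symm
  close om δ hδ := by
    have hM := P.met hE
    have hS := P.sck hE
    set w : R2 := (Real.cos om, Real.sin om) with hw
    have hw0 : w ≠ 0 := by
      intro h0
      have h1 : Real.cos om = 0 := congrArg Prod.fst h0
      have h2 : Real.sin om = 0 := congrArg Prod.snd h0
      have := Real.sin_sq_add_cos_sq om
      rw [h1, h2] at this
      norm_num at this
    obtain ⟨c, hc, hmax⟩ := hM.exists_max w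
    obtain ⟨κ, hκ, hgap⟩ := P.gap E
    obtain ⟨M, -, hex⟩ := hM.excess hS hw0 hc hmax (ε := κ * (δ / 4) ^ 2 / 2) 2 (by positivity)
    -- the excess of a primitive class near the ray
    have key : ∀ (k : Z2) (n : ℕ), IsCoprime k.1 k.2 → 0 < n → NearRay om M (n * kc k) →
        phi (P.D E) k - dt c (lv k) ≤ κ * (δ / 4) ^ 2 / 2 := by
      intro k n hk hn hnear
      obtain ⟨h1, h2⟩ := hnear
      set z : ℂ := (n : ℂ) * kc k * Complex.exp (-(om * Complex.I)) with hz
      have e1 : (n : ℂ) * kc k = z * Complex.exp (om * Complex.I) := by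
        rw [hz, mul_assoc, ← Complex.exp_add, neg_add_cancel, Complex.exp_zero, mul_one]
      have e2 : cx (lv (n • k) - z.re • w) = z.im * Complex.I * Complex.exp (om * Complex.I) := by
        have e3 : cx w = Complex.exp (om * Complex.I) := by
          rw [Complex.exp_mul_I]
          apply Complex.ext
          · simp [cx, hw, ← Complex.ofReal_cos, ← Complex.ofReal_sin]
          · simp [cx, hw, ← Complex.ofReal_cos, ← Complex.ofReal_sin]
        rw [cx_sub, cx_smul, lv_nsmul, cx_smul, cx_lv, e3]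
        push_cast
        rw [e1]
        nth_rewrite 1 [← Complex.re_add_im z]
        ring
      have h3 : ‖lv (n • k) - z.re • w‖ ≤ 2 := by
        refine (norm_le_cx _).trans ?_
        rw [e2, norm_mul, norm_mul, Complex.norm_exp_ofReal_mul_I, Complex.norm_I, mul_one,
          mul_one, Complex.norm_real, Real.norm_eq_abs]
        exact h2
      have h4 := hex (n • k) z.re h1 h3
      rw [hM.hom, lv_nsmul, dt_smul] at h4
      have hn' : (1 : ℝ) ≤ n := by exact_mod_cast hn
      have h5 : 0 ≤ phi (P.D E) k - dt c (lv k) := sub_nonneg.2 (hc k)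
      nlinarith
    refine ⟨M, fun k k' n n' hk hk' hn hn' h1 h2 => ?_⟩
    have h3 := hgap E hE le_rfl c hc k k' hk hk' x
    have h4 := key k n hk hn h1
    have h5 := key k' n' hk' hn' h2
    have h6 : κ * ‖P.V E k x - P.V E k' x‖ ^ 2 ≤ κ * (δ / 4) ^ 2 := by linarith
    have h7 : ‖P.V E k x - P.V E k' x‖ ^ 2 ≤ (δ / 4) ^ 2 := le_of_mul_le_mul_left h6 hκ
    have h8 : ‖P.V E k x - P.V E k' x‖ ≤ δ / 4 := by
      refine le_of_sq_le_sq h7 (by positivity)
    rw [← cx_sub]
    refine (cx_le _).trans_lt ?_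
    linarith

/-- DENSITY (C6). -/
theorem VI.c6 {E : ℝ} (hE : P.E0 < E) {x v : R2} (hv : P.e x v = E) {ε : ℝ} (hε : 0 < ε) :
    ∃ h, Prim h ∧ ‖P.V E h x - v‖ < ε := by
  obtain ⟨c, hc, hlow⟩ := P.low hE x
  obtain ⟨C, hC⟩ := P.ebd E
  have ecx : Continuous fun v : R2 => P.e x v :=
    P.econt.comp (f := fun v : R2 => (x, v)) (by fun_prop)
  have hv1 : 0 < ‖cx v‖ := (hc.trans_le (hlow v hv)).trans_le (norm_le_cx v)
  -- the compact set of the velocities of energy `E` far from `v`
  set S : Set R2 := {w | P.e x w = E ∧ ε ≤ ‖w - v‖} with hS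
  have hSc : IsCompact S := by
    refine Metric.isCompact_of_isClosed_isBounded ?_ ?_
    · exact (isClosed_eq ecx continuous_const).inter
        (isClosed_le continuous_const (by fun_prop : Continuous fun w : R2 => ‖w - v‖))
    · refine Metric.isBounded_closedBall (x := (0 : R2)) (r := C) |>.subset ?_
      intro w hw
      rw [mem_closedBall_zero_iff]
      exact hC x w hw.1.le
  have hdir : ContinuousOn (fun w : R2 => ‖cx w / ‖cx w‖ - cx v / ‖cx v‖‖) S := by
    refine ContinuousOn.norm (ContinuousOn.sub (ContinuousOn.div cx_cont.continuousOn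
      (Complex.continuous_ofReal.comp cx_cont.norm).continuousOn ?_) continuousOn_const)
    intro w hw
    have : 0 < ‖cx w‖ := (hc.trans_le (hlow w hw.1)).trans_le (norm_le_cx w)
    exact_mod_cast this.ne'
  have hpos : ∀ w ∈ S, 0 < ‖cx w / ‖cx w‖ - cx v / ‖cx v‖‖ := by
    intro w hw
    rw [norm_pos_iff]
    intro h0
    rw [sub_eq_zero] at h0
    have n2 : 0 < ‖cx w‖ := (hc.trans_le (hlow w hw.1)).trans_le (norm_le_cx w)
    have e1 : w = (‖cx w‖ / ‖cx v‖) • v := by
      apply cx_inj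
      rw [cx_smul]
      have m1 : (‖cx v‖ : ℂ) ≠ 0 := by exact_mod_cast hv1.ne'
      have m2 : (‖cx w‖ : ℂ) ≠ 0 := by exact_mod_cast n2.ne'
      push_cast
      rw [div_eq_div_iff m2 m1] at h0
      field_simp
      linear_combination h0
    have hv0 : v ≠ 0 := by
      rintro h00
      rw [h00, cx_zero, norm_zero] at hv1
      exact lt_irrefl _ hv1
    have h1 := (P.eray x v hv0).injOn (x₁ := 1) (x₂ := ‖cx w‖ / ‖cx v‖)
      (mem_Ici.2 zero_le_one) (mem_Ici.2 (by positivity)) (by
        rw [one_smul, ← e1, hv, hw.1])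
    rw [← h1, one_smul] at e1
    have h2 := hw.2
    rw [e1, sub_self, norm_zero] at h2
    linarith
  obtain ⟨η, hη, hη1⟩ : ∃ η > 0, ∀ w ∈ S, η ≤ ‖cx w / ‖cx w‖ - cx v / ‖cx v‖‖ := by
    rcases S.eq_empty_or_nonempty with he | hne
    · exact ⟨1, one_pos, fun w hw => by rw [he] at hw; exact hw.elim⟩
    · obtain ⟨w0, hw0, hmin⟩ := hSc.exists_isMinOn hne hdir
      exact ⟨_, hpos w0 hw0, fun w hw => hmin hw⟩
  have hu : ‖cx v / ‖cx v‖‖ = 1 := by
    rw [norm_div, Complex.norm_real, norm_norm, div_self hv1.ne']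
  obtain ⟨k, hk, hk1⟩ := (P.od hE x).dense hu hη
  refine ⟨k, hk, ?_⟩
  by_contra hge
  push Not at hge
  have h1 := hη1 (P.V E k x) ⟨(P.lf_arc hE hk x).2.1, hge⟩
  linarith

end Pool.Agent.DA
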