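import Pool.Agent.DA.OC6

/-!
# D2 part A, C8: empty interior of `{e ≤ E0}`
-/

set_option autoImplicit false

namespace Pool.Agent.DA

open Set Filter Topology

variable (P : VI)

/-- The dual bodies shrink to a point as the energy decreases to the minimum.

Proof. Let `al c0 = E0` (`almin`).  The set `{c | al c ≤ E0 + 1, ε ≤ ‖c - c0‖}` is compact
(`VI.ks`, `Met.KS_compact`, `VI.al_cont`); if it is not empty `al` has a minimum `m` on it, and
`m > E0` (strict convexity: `al c = E0 = al c0`, `c ≠ c0`, would give `al < E0` at the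
midpoint, against `alge`).  Take `E1 = min (E0 + 1) m` (or `E0 + 1`). -/
theorem VI.shrink {ε : ℝ} (hε : 0 < ε) : ∃ c0 : R2, ∃ E1 > P.E0, ∀ E, P.E0 < E → E < E1 →
    ∀ c ∈ KS (P.D E), ‖c - c0‖ < ε := by
  obtain ⟨c0, hc0⟩ := P.almin
  have hK : IsCompact {c : R2 | P.al c ≤ P.E0 + 1} := by
    rw [← P.ks (lt_add_one P.E0)]
    exact (P.met (lt_add_one P.E0)).KS_compact
  set S : Set R2 := {c : R2 | P.al c ≤ P.E0 + 1} ∩ {c | ε ≤ ‖c - c0‖} with hS
  have hSc : IsCompact S :=
    hK.inter_right (isClosed_le continuous_const (by fun_prop : Continuous fun c : R2 => ‖c - c0‖))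
  rcases S.eq_empty_or_nonempty with he | hne
  · refine ⟨c0, P.E0 + 1, lt_add_one _, fun E hE hE1 c hc => ?_⟩
    rw [P.ks hE] at hc
    by_contra hge
    push Not at hge
    have hmem : c ∈ S := ⟨le_trans hc hE1.le, hge⟩
    rw [he] at hmem
    exact hmem
  · obtain ⟨c1, hc1, hmin⟩ := hSc.exists_isMinOn hne P.al_cont.continuousOn
    have hc1c : c1 ≠ c0 := by
      intro h
      have h1 := hc1.2
      rw [h] at h1
      simp only [mem_setOf_eq, sub_self, norm_zero] at h1
      linarith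
    have hgt : P.E0 < P.al c1 := by
      refine lt_of_le_of_ne (P.alge c1) fun h0 => ?_
      have h1 := P.alsc.2 (mem_univ c1) (mem_univ c0) hc1c (by norm_num : (0 : ℝ) < 1 / 2)
        (by norm_num : (0 : ℝ) < 1 / 2) (by norm_num)
      rw [← h0, hc0] at h1
      simp only [smul_eq_mul] at h1
      have h2 := P.alge ((1 / 2 : ℝ) • c1 + (1 / 2 : ℝ) • c0)
      linarith
    refine ⟨c0, min (P.E0 + 1) (P.al c1), lt_min (lt_add_one _) hgt, fun E hE hE1 c hc => ?_⟩
    rw [P.ks hE] at hc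
    by_contra hge
    push Not at hge
    have hc' : P.al c ≤ E := hc
    have hmem : c ∈ S := ⟨hc'.trans (hE1.le.trans (min_le_left _ _)), hge⟩
    have h3 : P.al c1 ≤ P.al c := hmin hmem
    have h4 := hE1.trans_le (min_le_right _ _)
    linarith

/-- The sets of velocities of energy `E` shrink to points as `E` decreases to the minimum.

Proof. `κ` from `VI.gap (E0 + 1)`, `η > 0` with `8 η ≤ κ (ε / 4) ^ 2`, `E1` from `VI.shrink η`, and
`E2 = min E1 (E0 + 1)`.  For `E` in `(E0, E2)`, `e1 = (1, 0)` and primitive `k`: with `c = c(k)`,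
`q = c(e1)` from `Met.exists_c`, `VI.gap` gives `κ ‖V E k x - V E e1 x‖ ^ 2 ≤ phi e1 - dt c (lv e1)`
`= dt (q - c) (lv e1) ≤ 2 ‖q - c‖ ≤ 4 η`, so `‖V E k x - V E e1 x‖ ≤ ε / 4`.  By `VI.c6`
`‖v - V E e1 x‖ < ε / 2` for every `v` with `e x v = E`. -/
theorem VI.thin {ε : ℝ} (hε : 0 < ε) : ∃ E2 > P.E0, ∀ E, P.E0 < E → E < E2 → ∀ x v w,
    P.e x v = E → P.e x w = E → ‖v - w‖ < ε := by
  obtain ⟨κ, hκ, hgap⟩ := P.gap (P.E0 + 1)
  obtain ⟨c0, E1, hE1, hsh⟩ := P.shrink (ε := κ * (ε / 4) ^ 2 / 8) (by positivity)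
  refine ⟨min E1 (P.E0 + 1), lt_min hE1 (lt_add_one _), fun E hE hE2 x v w hv hw => ?_⟩
  have hE3 := hE2.trans_le (min_le_left _ _)
  have hE4 := hE2.trans_le (min_le_right _ _)
  set e1 : Z2 := (1, 0) with he1
  have hp1 : Prim e1 := isCoprime_one_left
  have hM := P.met hE
  obtain ⟨q, hq, hq1⟩ := hM.exists_c e1
  have key : ∀ k, Prim k → ‖P.V E k x - P.V E e1 x‖ ≤ ε / 4 := by
    intro k hk
    obtain ⟨c, hc, hc1⟩ := hM.exists_c k
    have h1 := hgap E hE hE4.le c hc k e1 hk hp1 x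
    have h2 : ‖q - c‖ ≤ 2 * (κ * (ε / 4) ^ 2 / 8) := by
      have a1 := hsh E hE hE3 q hq
      have a2 := hsh E hE hE3 c hc
      have e : q - c = (q - c0) - (c - c0) := by abel
      rw [e]
      refine (norm_sub_le _ _).trans ?_
      linarith
    have h3 : phi (P.D E) e1 - dt c (lv e1) ≤ 2 * ‖q - c‖ := by
      rw [← hq1]
      have e : dt q (lv e1) - dt c (lv e1) = (q - c).1 := by
        simp [dt, lv, he1]
      rw [e]
      have a1 : |(q - c).1| ≤ ‖q - c‖ := by
        rw [← Real.norm_eq_abs]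
        exact norm_fst_le _
      have a2 := le_abs_self (q - c).1
      linarith [norm_nonneg (q - c)]
    have h5 : 0 ≤ κ * (ε / 4) ^ 2 := by positivity
    have h4 : κ * ‖P.V E k x - P.V E e1 x‖ ^ 2 ≤ κ * (ε / 4) ^ 2 := by linarith
    exact le_of_sq_le_sq (le_of_mul_le_mul_left h4 hκ) (by positivity)
  have key2 : ∀ v, P.e x v = E → ‖v - P.V E e1 x‖ < ε / 2 := by
    intro v hv
    obtain ⟨k, hk, hk1⟩ := P.c6 hE hv (ε := ε / 4) (by positivity)
    have e : v - P.V E e1 x = -(P.V E k x - v) + (P.V E k x - P.V E e1 x) := by abel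
    rw [e]
    refine (norm_add_le _ _).trans_lt ?_
    rw [norm_neg]
    linarith [key k hk]
  have e : v - w = (v - P.V E e1 x) - (w - P.V E e1 x) := by abel
  rw [e]
  refine (norm_sub_le _ _).trans_lt ?_
  linarith [key2 v hv, key2 w hw]

/-- every energy above `e x 0` is attained on a ray -/
theorem VI.ray_val {x u : R2} (hu : u ≠ 0) {E : ℝ} (hE : P.e x 0 < E) :
    ∃ s : ℝ, 0 < s ∧ P.e x (s • u) = E := by
  obtain ⟨C, hC⟩ := P.ebd E
  have hcont : Continuous fun s : ℝ => P.e x (s • u) :=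
    P.econt.comp (f := fun s : ℝ => (x, s • u)) (by fun_prop)
  have hnu : 0 < ‖u‖ := norm_pos_iff.2 hu
  set b : ℝ := (|C| + 1) / ‖u‖ with hb
  have hbp : 0 < b := by positivity
  have hbig : E < P.e x (b • u) := by
    by_contra hle
    push Not at hle
    have h1 := hC x _ hle
    rw [norm_smul, Real.norm_eq_abs, abs_of_pos hbp, hb, div_mul_cancel₀ _ hnu.ne'] at h1
    linarith [le_abs_self C]
  have h2 : E ∈ Icc (P.e x ((0 : ℝ) • u)) (P.e x (b • u)) := by
    rw [zero_smul]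
    exact ⟨hE.le, hbig.le⟩
  obtain ⟨s, hs, hs1⟩ := intermediate_value_Icc hbp.le hcont.continuousOn h2
  refine ⟨s, lt_of_le_of_ne hs.1 ?_, hs1⟩
  rintro rfl
  simp only [zero_smul] at hs1
  linarith

/-- Nonzero velocities have energy greater than `E0`.

Proof. Suppose `v ≠ 0`, `e x v ≤ E0`.  By `eray` `e x 0 < E0`, so there is `r > 0` with
`e x w < E0` for `‖w‖ < r` (`econt`).  For every `E > E0` there are `s, s' > 0` with
`e x (s, 0) = E`, `e x (-s', 0) = E` (intermediate value theorem on a long interval; the energy is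
unbounded on a ray by `ebd`).  Their distance is at least `2 r`, against `VI.thin` with
`ε = r`. -/
theorem VI.e_gt {x v : R2} (hv : v ≠ 0) : P.E0 < P.e x v := by
  by_contra hle
  push Not at hle
  have h0 : P.e x 0 < P.E0 := by
    have h1 := P.eray x v hv (mem_Ici.2 le_rfl) (mem_Ici.2 zero_le_one) (zero_lt_one (α := ℝ))
    simp only [zero_smul, one_smul] at h1
    linarith
  have hc : Continuous fun w : R2 => P.e x w :=
    P.econt.comp (f := fun w : R2 => (x, w)) (by fun_prop)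
  have h2 : ∀ᶠ w in 𝓝 (0 : R2), P.e x w < P.E0 :=
    hc.continuousAt.eventually_lt continuousAt_const h0
  obtain ⟨r, hr, h3⟩ := Metric.eventually_nhds_iff.1 h2
  have hbig : ∀ w, P.E0 < P.e x w → r ≤ ‖w‖ := by
    intro w hw
    by_contra hlt
    push Not at hlt
    have := h3 (y := w) (by rwa [dist_zero_right])
    linarith
  obtain ⟨E2, hE2, hthin⟩ := P.thin hr
  set E := (P.E0 + E2) / 2 with hEdef
  have hE : P.E0 < E := by rw [hEdef]; linarith
  have hE' : E < E2 := by rw [hEdef]; linarith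
  obtain ⟨s, hs, hs1⟩ := P.ray_val (x := x) (u := (1, 0)) (by simp) (h0.trans hE)
  obtain ⟨s', hs', hs1'⟩ := P.ray_val (x := x) (u := (-1, 0)) (by simp) (h0.trans hE)
  have h4 := hthin E hE hE' x _ _ hs1 hs1'
  have h5 := hbig _ (hs1.symm ▸ hE)
  have e1 : ‖s • ((1, 0) : R2)‖ = s := by
    simp [Prod.norm_def, abs_of_pos hs, hs.le]
  have e2 : ‖s • ((1, 0) : R2) - s' • ((-1, 0) : R2)‖ = s + s' := by
    have e3 : s • ((1, 0) : R2) - s' • ((-1, 0) : R2) = (s + s', 0) := by
      ext <;> simp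
    rw [e3]
    simp [Prod.norm_def, abs_of_pos (add_pos hs hs'), (add_pos hs hs').le]
  rw [e1] at h5
  rw [e2] at h4
  linarith

/-- Condition (C8). -/
theorem VI.c8 : interior {p : R2 × R2 | P.e p.1 p.2 ≤ P.E0} = ∅ := by
  rw [eq_empty_iff_forall_notMem]
  rintro ⟨x, v⟩ hp
  rw [mem_interior_iff_mem_nhds, Metric.mem_nhds_iff] at hp
  obtain ⟨ε, hε, hball⟩ := hp
  -- a nonzero velocity in the ball
  obtain ⟨w, hw, hw1⟩ : ∃ w : R2, w ≠ 0 ∧ dist (x, w) (x, v) < ε := by
    by_cases hv : v = 0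
    · refine ⟨(ε / 2, 0), ?_, ?_⟩
      · intro h
        have := congrArg Prod.fst h
        simp only [Prod.fst_zero] at this
        linarith
      · rw [hv, Prod.dist_eq, dist_self, dist_zero_right]
        simp only [Prod.norm_def, norm_zero, Real.norm_eq_abs, abs_of_pos (half_pos hε)]
        rw [max_eq_left (half_pos hε).le, max_eq_right (half_pos hε).le]
        linarith
    · exact ⟨v, hv, by rw [dist_self]; exact hε⟩
  have h1 : P.e x w ≤ P.E0 := hball (Metric.mem_ball.2 hw1)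
  exact absurd h1 (not_le.2 (P.e_gt hw))

end Pool.Agent.DA
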