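import Pool.Agent.DA.UGap

/-!
# D2 part A, C7: closeness of the leaves
-/

set_option autoImplicit false

namespace Pool.Agent.DA

open Set Filter Topology

variable (P : VI)

/-- CLOSENESS (C7).

Proof. `h` is primitive (`prim_of_dZ`).  Let `E0 < E1' < E1 < E2`, `κ` from `VI.gap E2`, `C` with
`phi (D E) (± h') , phi (D E) (± h) ≤ C` for `E1' ≤ E ≤ E2` (`VI.phi_bdd`).  Let `f = k h + m h'`,
`c = c(f)` from `Met.exists_c` and `q = c(h)`.  `dt q (lv f) ≤ phi f = dt c (lv f)` gives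
`k (phi h - dt c (lv h)) = k dt (q - c) (lv h) ≤ m dt (c - q) (lv h') ≤ m * 2 C`.
`VI.gap` with `c` for the classes `f` (excess `0`) and `h`:
`κ ‖V E f x - V E h x‖ ^ 2 ≤ phi h - dt c (lv h) ≤ 2 C m / k`.  This is less than
`κ (ε / 2) ^ 2` if `m / k` is small.  Finally `‖V E h x - V E1 h x‖ < ε / 2` for all `x` if
`|E - E1|` is small: `VI.lf_cont`, compactness of `[0,1] × [0,1]`, periodicity. -/
theorem VI.c7 {E1 : ℝ} (hE : P.E0 < E1) {h h' : Z2} (hh : dZ h h' = 1) {ε : ℝ} (hε : 0 < ε) :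
    ∃ κ > 0, ∀ (x : R2) (E : ℝ) (k m : ℕ), |E - E1| < κ → 1 ≤ k → 1 ≤ m → Nat.Coprime k m →
      (m : ℝ) < κ * k → ‖P.V E (k • h + m • h') x - P.V E1 h x‖ < ε := by
  have hph : Prim h := by
    refine ⟨h'.2, -h'.1, ?_⟩
    unfold dZ at hh
    linarith
  -- uniform continuity
  set E1' : ℝ := (E1 + P.E0) / 2 with hE1'
  have hE1a : P.E0 < E1' := by rw [hE1']; linarith
  have hE1b : E1' < E1 := by rw [hE1']; linarith
  have hcK : IsCompact (Icc E1' (E1 + 1) ×ˢ (Icc (0 : ℝ) 1 ×ˢ Icc (0 : ℝ) 1)) :=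
    isCompact_Icc.prod (isCompact_Icc.prod isCompact_Icc)
  have hcont : ContinuousOn (fun p : ℝ × R2 => P.V p.1 h p.2)
      (Icc E1' (E1 + 1) ×ˢ (Icc (0 : ℝ) 1 ×ˢ Icc (0 : ℝ) 1)) := by
    have h1 := (P.lf_cont hph).fst
    refine h1.mono ?_
    intro p hp
    have h2 := hp.1.1
    show P.E0 < p.1
    linarith
  have huc := hcK.uniformContinuousOn_of_continuous hcont
  rw [Metric.uniformContinuousOn_iff] at huc
  obtain ⟨δ, hδ, huc⟩ := huc (ε / 2) (by positivity)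
  obtain ⟨κ0, hκ0, hgap⟩ := P.gap (E1 + 1)
  obtain ⟨C1, hC1⟩ := P.phi_bdd (E2 := E1 + 1) hE1a h'
  obtain ⟨C2, hC2⟩ := P.phi_bdd (E2 := E1 + 1) hE1a (-h')
  set C : ℝ := |C1| + |C2| + 1 with hC
  have hCpos : 0 < C := by positivity
  set κ : ℝ := min (min 1 ((E1 - P.E0) / 2)) (min δ (κ0 * (ε / 2) ^ 2 / C)) with hκ
  have hκpos : 0 < κ := by
    rw [hκ]
    refine lt_min (lt_min one_pos (by linarith)) (lt_min hδ (by positivity))
  have hκ1 : κ ≤ 1 := (min_le_left _ _).trans (min_le_left _ _)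
  have hκ2 : κ ≤ (E1 - P.E0) / 2 := (min_le_left _ _).trans (min_le_right _ _)
  have hκ3 : κ ≤ δ := (min_le_right _ _).trans (min_le_left _ _)
  have hκ4 : κ ≤ κ0 * (ε / 2) ^ 2 / C := (min_le_right _ _).trans (min_le_right _ _)
  refine ⟨κ, hκpos, fun x E k m hEE hk hm hkm hmk => ?_⟩
  have habs := abs_lt.1 hEE
  have hEl : E1' ≤ E := by rw [hE1']; linarith [habs.1]
  have hEu : E ≤ E1 + 1 := by linarith [habs.2]
  have hE0 : P.E0 < E := lt_of_lt_of_le hE1a hEl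
  have hpf : Prim (k • h + m • h') := prim_comb hh hkm
  have hk0 : (0 : ℝ) < k := by exact_mod_cast hk
  have hm0 : (0 : ℝ) < m := by exact_mod_cast hm
  -- first part
  have hA : ‖P.V E (k • h + m • h') x - P.V E h x‖ < ε / 2 := by
    obtain ⟨c, hc, hcf⟩ := (P.met hE0).exists_c (k • h + m • h')
    obtain ⟨q, hq, hqh⟩ := (P.met hE0).exists_c h
    have h1 := hgap E hE0 hEu c hc (k • h + m • h') h hpf hph x
    have h2 := hq (k • h + m • h')
    rw [← hcf] at h2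
    rw [lv_add, lv_nsmul, lv_nsmul, dt_add, dt_add, dt_smul, dt_smul, dt_smul, dt_smul] at h2
    rw [hqh] at h2
    have h3 : dt c (lv h') ≤ |C1| := (hc h').trans ((hC1 E hEl hEu).trans (le_abs_self _))
    have h4 : - dt q (lv h') ≤ |C2| := by
      have h5 : dt q (lv (-h')) = - dt q (lv h') := by
        simp [dt, lv]; ring
      rw [← h5]
      exact (hq (-h')).trans ((hC2 E hEl hEu).trans (le_abs_self _))
    have h6 : (k : ℝ) * (phi (P.D E) h - dt c (lv h)) ≤ m * C := by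
      have h7 : (k : ℝ) * (phi (P.D E) h - dt c (lv h)) ≤ m * (dt c (lv h') - dt q (lv h')) := by
        linarith
      have h8 : dt c (lv h') - dt q (lv h') ≤ C := by rw [hC]; linarith
      exact h7.trans (mul_le_mul_of_nonneg_left h8 hm0.le)
    have h9 : phi (P.D E) h - dt c (lv h) < κ0 * (ε / 2) ^ 2 := by
      have h10 : (m : ℝ) * C < κ * k * C := mul_lt_mul_of_pos_right hmk hCpos
      have h11 : κ * k * C ≤ κ0 * (ε / 2) ^ 2 / C * k * C := by
        have : κ * (k * C) ≤ κ0 * (ε / 2) ^ 2 / C * (k * C) :=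
          mul_le_mul_of_nonneg_right hκ4 (by positivity)
        linarith
      have h12 : κ0 * (ε / 2) ^ 2 / C * k * C = k * (κ0 * (ε / 2) ^ 2) := by
        field_simp
      have h13 : (k : ℝ) * (phi (P.D E) h - dt c (lv h)) < k * (κ0 * (ε / 2) ^ 2) := by
        linarith
      exact lt_of_mul_lt_mul_left h13 hk0.le
    have h14 : κ0 * ‖P.V E (k • h + m • h') x - P.V E h x‖ ^ 2 < κ0 * (ε / 2) ^ 2 := by
      rw [hcf] at h1
      linarith
    have h15 := lt_of_mul_lt_mul_left h14 hκ0.le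
    exact lt_of_pow_lt_pow_left₀ 2 (by positivity) h15
  -- second part
  have hB : ‖P.V E h x - P.V E1 h x‖ < ε / 2 := by
    set n : Z2 := (⌊x.1⌋, ⌊x.2⌋) with hn
    set y : R2 := (Int.fract x.1, Int.fract x.2) with hy
    have hxy : x = y + lv n := by
      ext
      · simp [hy, hn, lv]
      · simp [hy, hn, lv]
    have hV1 : P.V E h x = P.V E h y := by rw [hxy]; exact (P.lf_per hE0 hph y n).1
    have hV2 : P.V E1 h x = P.V E1 h y := by rw [hxy]; exact (P.lf_per hE hph y n).1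
    rw [hV1, hV2, ← dist_eq_norm]
    have hyI : y ∈ Icc (0 : ℝ) 1 ×ˢ Icc (0 : ℝ) 1 := by
      refine ⟨⟨Int.fract_nonneg _, (Int.fract_lt_one _).le⟩,
        ⟨Int.fract_nonneg _, (Int.fract_lt_one _).le⟩⟩
    refine huc (E, y) ⟨⟨hEl, hEu⟩, hyI⟩ (E1, y) ⟨⟨hE1b.le, by simp⟩, hyI⟩ ?_
    rw [Prod.dist_eq]
    simp only [dist_self]
    rw [Real.dist_eq]
    exact max_lt (lt_of_lt_of_le hEE hκ3) hδ
  calc ‖P.V E (k • h + m • h') x - P.V E1 h x‖
      = ‖(P.V E (k • h + m • h') x - P.V E h x) + (P.V E h x - P.V E1 h x)‖ := by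
        rw [sub_add_sub_cancel]
    _ ≤ ‖P.V E (k • h + m • h') x - P.V E h x‖ + ‖P.V E h x - P.V E1 h x‖ := norm_add_le _ _
    _ < ε := by linarith

end Pool.Agent.DA
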