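import Pool.Agent.DA.OC8
import Pool.Agent.DA.UC7

/-!
# D2 part A: the output (C1)-(C8)
-/

set_option autoImplicit false

namespace Pool.Agent.DA

open Set Filter Topology

variable (P : VI)

/-- THE OUTPUT OF PART A: conditions (C1)-(C8).

Proof. `V = P.V`, `T E h = P.TT E h 0`, `m E h = phi (P.D E) h`.  `VI.lf_arc`, `VI.lf_per`,
`VI.lf_cont`, `VI.TT_const`, `VI.lf_uniq`, `VI.lf_flow`, `VI.fill`, `VI.turns`, `VI.c5`, `VI.c6`, `VI.c7`,
`VI.c8`. -/
theorem VI.ci : CI P P.V (fun E h => P.TT E h 0) (fun E h => phi (P.D E) h) where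
  c1e E h x hE hh := (P.lf_arc hE hh x).2.1
  c1p E h x k hE hh := (P.lf_per hE hh x k).1
  c1c h hh := continuous_fst.comp_continuousOn (P.lf_cont hh)
  c2T E h hE hh := (P.lf_arc hE hh 0).1
  c2X E h x hE hh := by
    rw [P.TT_const hE hh 0 x]
    exact (P.lf_arc hE hh x).2.2.1
  c2W E h x t hE hh := ((P.lf_flow hE hh x t).1).symm
  c2c h hh := by
    have h1 : ContinuousOn (fun p : ℝ × R2 => (P.lf p.1 h p.2).2) {p | P.E0 < p.1} :=
      continuous_snd.comp_continuousOn (P.lf_cont hh)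
    exact h1.comp (f := fun E : ℝ => (E, (0 : R2))) (by fun_prop) fun E hE => hE
  c3 E h x hE hh := by
    rw [P.TT_const hE hh 0 x, ← P.fill hE hh x]
    exact (P.lf_arc hE hh x).2.2.2
  c4 E h x n hE hh := P.turns hE h x n
  c5 E h h' x t t' hE hh hh' hne ht ht' := P.c5 hE hh hh' hne x ht ht'
  c6 E x v ε hE hv hε := P.c6 hE hv hε
  c7 E1 h h' ε hE hh hε := P.c7 hE hh hε
  c8 := P.c8

end Pool.Agent.DA
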