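import Pool.Agent.DA.ToC0
import Pool.Agent.DB.Bas

/-!
# D2 part A: the variational interface of a Lagrangian `DB.Dyn`

`VRest L Fl D al E0`: the variational facts about a Lagrangian on `R2 × R2` with flow `Fl`;
`viOf`: the term of `VI`.
-/

set_option autoImplicit false

namespace Pool.Agent.DA

open Set Filter Topology DB

/-- The variational facts (the output of block V) on `R2 × R2`. -/
structure VRest (L : PP → ℝ) (Fl : ℝ → PP → PP) (D : ℝ → R2 → R2 → ℝ) (al : R2 → ℝ)
    (E0 : ℝ) : Prop where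
  ebd : ∀ R, ∃ C, ∀ z : PP, en L z ≤ R → ‖z.2‖ ≤ C
  e0 : ∀ x : R2, en L (x, 0) ≤ E0
  Dself : ∀ E, E0 < E → ∀ x, D E x x = 0
  Dtri : ∀ E, E0 < E → ∀ x y z, D E x z ≤ D E x y + D E y z
  Dper : ∀ E, E0 < E → ∀ x y (m : Z2), D E (x + lv m) (y + lv m) = D E x y
  Dcont : ContinuousOn (fun p : ℝ × R2 × R2 => D p.1 p.2.1 p.2.2) {p | E0 < p.1}
  Dact : ∀ E, E0 < E → ∀ t (z : PP), 0 ≤ t → D E z.1 (Fl t z).1 ≤ Ac L Fl t z + E * t
  Dex : ∀ E, E0 < E → ∀ x y, x ≠ y → ∃ (v : R2) (t : ℝ), 0 < t ∧ en L (x, v) = E ∧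
    (Fl t (x, v)).1 = y ∧ Ac L Fl t (x, v) + E * t = D E x y
  Dtime : ∀ E1 E2, E0 < E1 → ∃ C, ∀ (E : ℝ) (x y v : R2) (t : ℝ), E1 ≤ E → E ≤ E2 → 0 < t →
    en L (x, v) = E → (Fl t (x, v)).1 = y → Ac L Fl t (x, v) + E * t = D E x y →
    t ≤ C * (1 + ‖y - x‖)
  corner : ∀ τ R, 0 < τ → ∃ κ > 0, ∀ (s t : ℝ) (x v w : R2) (E : ℝ), τ ≤ s → τ ≤ t →
    en L (x, v) ≤ R → en L ((Fl t (x, v)).1, w) ≤ R → E0 < E →
    D E x (Fl s ((Fl t (x, v)).1, w)).1 ≤ Ac L Fl t (x, v) +
      Ac L Fl s ((Fl t (x, v)).1, w) + E * (t + s) - κ * ‖(Fl t (x, v)).2 - w‖ ^ 2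
  bridge : ∀ E, E0 < E → ∀ c, al c ≤ E ↔ ∀ x (m : Z2), dt c (lv m) ≤ D E x (x + lv m)
  alsc : StrictConvexOn ℝ univ al
  almin : ∃ c0, al c0 = E0
  alge : ∀ c, E0 ≤ al c

variable {L : PP → ℝ} {Fl : ℝ → PP → PP} {D : ℝ → R2 → R2 → ℝ} {al : R2 → ℝ} {E0 : ℝ}

private theorem fl_cont (hD : Dyn L Fl) : Continuous (fun q : ℝ × PP => Fl q.1 q.2) :=
  (hD.fsmooth 0).continuous

private theorem l_cont (hD : Dyn L Fl) : Continuous L := (hD.smooth 0).continuous

private theorem lfl_cont (hD : Dyn L Fl) (z : PP) : Continuous fun τ => L (Fl τ z) :=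
  (l_cont hD).comp ((fl_cont hD).comp (continuous_id.prodMk continuous_const))

theorem ac_add (hD : Dyn L Fl) (s t : ℝ) (z : PP) :
    Ac L Fl (s + t) z = Ac L Fl s z + Ac L Fl t (Fl s z) := by
  unfold Ac
  have h1 : ∀ a b, IntervalIntegrable (fun τ => L (Fl τ z)) MeasureTheory.volume a b :=
    fun a b => (lfl_cont hD z).intervalIntegrable a b
  rw [← intervalIntegral.integral_add_adjacent_intervals (h1 0 s) (h1 s (s + t))]
  congr 1
  have h2 : ∀ τ, L (Fl τ (Fl s z)) = (fun r => L (Fl r z)) (τ + s) := by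
    intro τ
    simp only [hD.add τ s z]
  simp only [h2]
  rw [intervalIntegral.integral_comp_add_right (fun r => L (Fl r z)) s]
  rw [zero_add, add_comm t s]

theorem ac_per (hD : Dyn L Fl) (t : ℝ) (z : PP) (m : Z2) :
    Ac L Fl t (z + (zz m, 0)) = Ac L Fl t z := by
  unfold Ac
  congr 1
  funext τ
  rw [hD.fper, hD.per]

theorem ac_cont (hD : Dyn L Fl) : Continuous (fun q : ℝ × PP => Ac L Fl q.1 q.2) := by
  unfold Ac
  have h1 : Continuous (Function.uncurry fun (q : ℝ × PP) (τ : ℝ) => L (Fl τ q.2)) :=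
    (l_cont hD).comp ((fl_cont hD).comp (continuous_snd.prodMk
      (continuous_snd.comp continuous_fst)))
  exact intervalIntegral.continuous_parametric_intervalIntegral_of_continuous h1
    continuous_fst

theorem en_ray (hD : Dyn L Fl) (x : R2) {v : R2} (hv : v ≠ 0) :
    StrictMonoOn (fun s : ℝ => en L (x, s • v)) (Ici 0) := by
  have hd : ∀ s : ℝ, HasDerivAt (fun s : ℝ => en L (x, s • v)) (s * Lvv L (x, s • v) v v) s := by
    intro s
    have h1 : HasDerivAt (fun s : ℝ => ((x, s • v) : PP)) ((0, v) : PP) s := by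
      have := (hasDerivAt_id s).smul_const v
      rw [one_smul] at this
      exact (hasDerivAt_const s x).prodMk this
    have h2 : HasFDerivAt (en L) (fderiv ℝ (en L) (x, s • v)) (x, s • v) :=
      (((hD.en_ana (x, s • v) (mem_univ _)).differentiableAt)).hasFDerivAt
    have h3 := h2.comp_hasDerivAt s h1
    rw [hD.en_dv] at h3
    have h4 : Lvv L (x, s • v) (s • v) v = s * Lvv L (x, s • v) v v := by
      have := lvv_lin L (x, s • v) v 0 v s 0
      simpa using this
    rw [h4] at h3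
    exact h3
  refine strictMonoOn_of_deriv_pos (convex_Ici 0)
    (fun s _ => (hd s).continuousAt.continuousWithinAt) ?_
  intro s hs
  rw [interior_Ici] at hs
  rw [(hd s).deriv]
  exact mul_pos hs (hD.pos _ v hv)

/-- The variational interface of a Lagrangian. -/
noncomputable def viOf (hD : Dyn L Fl) (h : VRest L Fl D al E0) : VI where
  X t x v := (Fl t (x, v)).1
  W t x v := (Fl t (x, v)).2
  A t x v := Ac L Fl t (x, v)
  e x v := en L (x, v)
  D := D
  al := al
  E0 := E0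
  X0 x v := by rw [hD.zero]
  W0 x v := by rw [hD.zero]
  A0 x v := by simp [Ac]
  Xadd s t x v := by rw [add_comm s t, hD.add, Prod.mk.eta]
  Wadd s t x v := by rw [add_comm s t, hD.add, Prod.mk.eta]
  Aadd s t x v := by rw [ac_add hD, Prod.mk.eta]
  Xder t x v := hD.vel t (x, v)
  Xper t x v m := by
    have := congrArg Prod.fst (hD.fper t m (x, v))
    simpa [lv, zz] using this
  Wper t x v m := by
    have := congrArg Prod.snd (hD.fper t m (x, v))
    simpa [lv, zz] using this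
  Aper t x v m := by
    have := ac_per hD t (x, v) m
    simpa [lv, zz] using this
  Xcont := ((fl_cont hD).comp (continuous_fst.prodMk (continuous_snd))).fst
  Wcont := ((fl_cont hD).comp (continuous_fst.prodMk (continuous_snd))).snd
  Acont := (ac_cont hD).comp (continuous_fst.prodMk (continuous_snd))
  econs t x v := by rw [Prod.mk.eta, hD.en_const]
  eper x v m := by
    have := hD.en_per m (x, v)
    simpa [lv, zz] using this
  econt := (continuousOn_univ.1 hD.en_ana.continuousOn)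
  eray x v hv := en_ray hD x hv
  ebd R := by
    obtain ⟨C, hC⟩ := h.ebd R
    exact ⟨C, fun x v hv => hC (x, v) hv⟩
  e0 := h.e0
  Dself := h.Dself
  Dtri := h.Dtri
  Dper := h.Dper
  Dcont := h.Dcont
  Dact E hE t x v ht := h.Dact E hE t (x, v) ht
  Dex := h.Dex
  Dtime := h.Dtime
  corner τ R hτ := h.corner τ R hτ
  bridge := h.bridge
  alsc := h.alsc
  almin := h.almin
  alge := h.alge

end Pool.Agent.DA
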