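import Pool.Agent.DA.OFin
import Pool.Agent.DA.OfDyn

/-!
# D2 part A: the interface of the local part from the variational facts
-/

set_option autoImplicit false

namespace Pool.Agent.DA

open Set Filter Topology DB

/-- THE OUTPUT OF PART A in the notation of the local part. -/
theorem out {L : PP → ℝ} {Fl : ℝ → PP → PP} {D : ℝ → R2 → R2 → ℝ} {al : R2 → ℝ} {E0 : ℝ}
    (hD : Dyn L Fl) (h : VRest L Fl D al E0) :
    ∃ (V : ℝ → Z2 → R2 → R2) (T m : ℝ → Z2 → ℝ), C0 L Fl E0 V T m ∧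
      interior {z : PP | en L z ≤ E0} = ∅ :=
  ⟨_, _, _, toC0 (viOf hD h) hD (fun _ _ _ => rfl) (fun _ _ _ => rfl) (fun _ _ _ => rfl)
    (fun _ _ => rfl) (VI.ci _), toC8 (viOf hD h) (fun _ _ => rfl) (VI.ci _)⟩

end Pool.Agent.DA
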