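import Pool.Agent.DA.Defs

/-!
# D2 part A, T0: directed distances, the stable norm
-/

set_option autoImplicit false

namespace Pool.Agent.DA

open Set Filter Topology

variable {d : R2 → R2 → ℝ}

theorem lv_add (m n : Z2) : lv (m + n) = lv m + lv n := by
  refine Prod.ext ?_ ?_
  · change ((m.1 + n.1 : ℤ) : ℝ) = (m.1 : ℝ) + n.1
    push_cast
    rfl
  · change ((m.2 + n.2 : ℤ) : ℝ) = (m.2 : ℝ) + n.2
    push_cast
    rfl

theorem lv_smul (k : ℤ) (m : Z2) : lv (k • m) = (k : ℝ) • lv m := by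
  refine Prod.ext ?_ ?_
  · change ((k * m.1 : ℤ) : ℝ) = (k : ℝ) * m.1
    push_cast
    rfl
  · change ((k * m.2 : ℤ) : ℝ) = (k : ℝ) * m.2
    push_cast
    rfl

theorem lv_nsmul (k : ℕ) (m : Z2) : lv (k • m) = (k : ℝ) • lv m := by
  rw [← natCast_zsmul, lv_smul]
  push_cast
  rfl

theorem lv_neg (m : Z2) : lv (-m) = - lv m := by
  refine Prod.ext ?_ ?_
  · change ((-m.1 : ℤ) : ℝ) = -(m.1 : ℝ)
    push_cast
    rfl
  · change ((-m.2 : ℤ) : ℝ) = -(m.2 : ℝ)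
    push_cast
    rfl

/-- Nonzero lattice vectors have norm at least one. -/
theorem one_le_lv {m : Z2} (h : m ≠ 0) : 1 ≤ ‖lv m‖ := by
  by_cases h1 : m.1 = 0
  · have h2 : m.2 ≠ 0 := fun h2 => h (Prod.ext h1 h2)
    have h3 : (1 : ℝ) ≤ |(m.2 : ℝ)| := by exact_mod_cast Int.one_le_abs h2
    exact h3.trans (le_max_right _ _)
  · have h3 : (1 : ℝ) ≤ |(m.1 : ℝ)| := by exact_mod_cast Int.one_le_abs h1
    exact h3.trans (le_max_left _ _)

theorem lv_ne {m : Z2} (h : m ≠ 0) : lv m ≠ 0 := by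
  intro h0
  have h1 := one_le_lv h
  rw [h0, norm_zero] at h1
  linarith

theorem dt_add (c x y : R2) : dt c (x + y) = dt c x + dt c y := by
  change c.1 * (x.1 + y.1) + c.2 * (x.2 + y.2) = c.1 * x.1 + c.2 * x.2 + (c.1 * y.1 + c.2 * y.2)
  ring

theorem dt_smul (c : R2) (r : ℝ) (x : R2) : dt c (r • x) = r * dt c x := by
  change c.1 * (r * x.1) + c.2 * (r * x.2) = r * (c.1 * x.1 + c.2 * x.2)
  ring

theorem add_dt (c c' x : R2) : dt (c + c') x = dt c x + dt c' x := by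
  change (c.1 + c'.1) * x.1 + (c.2 + c'.2) * x.2 = c.1 * x.1 + c.2 * x.2 + (c'.1 * x.1 + c'.2 * x.2)
  ring

theorem smul_dt (r : ℝ) (c x : R2) : dt (r • c) x = r * dt c x := by
  change (r * c.1) * x.1 + (r * c.2) * x.2 = r * (c.1 * x.1 + c.2 * x.2)
  ring

theorem abs_dt_le (c x : R2) : |dt c x| ≤ 2 * ‖c‖ * ‖x‖ := by
  have h1 : |c.1| ≤ ‖c‖ := le_max_left _ _
  have h2 : |c.2| ≤ ‖c‖ := le_max_right _ _
  have h3 : |x.1| ≤ ‖x‖ := le_max_left _ _
  have h4 : |x.2| ≤ ‖x‖ := le_max_right _ _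
  calc |dt c x| ≤ |c.1 * x.1| + |c.2 * x.2| := abs_add_le _ _
    _ = |c.1| * |x.1| + |c.2| * |x.2| := by rw [abs_mul, abs_mul]
    _ ≤ ‖c‖ * ‖x‖ + ‖c‖ * ‖x‖ := by gcongr
    _ = 2 * ‖c‖ * ‖x‖ := by ring

private theorem Met.bdd (h : Met d) (m : Z2) : BddBelow (range fun x : R2 => d x (x + lv m)) := by
  obtain ⟨c0, κ, hκ, hp⟩ := h.pos
  refine ⟨dt c0 (lv m) + κ * ‖lv m‖, ?_⟩
  rintro r ⟨x, rfl⟩
  exact hp x m

/-- The stable norm is a lower bound. -/
theorem Met.phi_le (h : Met d) (x : R2) (m : Z2) : phi d m ≤ d x (x + lv m) :=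
  ciInf_le (Met.bdd h m) x

/-- The stable norm is attained. -/
theorem Met.phi_att (h : Met d) (m : Z2) : ∃ x, d x (x + lv m) = phi d m := by
  have hc : Continuous fun x : R2 => d x (x + lv m) :=
    h.cont.comp (continuous_id.prodMk (continuous_id.add continuous_const))
  have hK : IsCompact (Icc (0 : ℝ) 1 ×ˢ Icc (0 : ℝ) 1 : Set R2) := isCompact_Icc.prod isCompact_Icc
  obtain ⟨x₀, hx₀, hmin⟩ := hK.exists_isMinOn ⟨(0, 0), by simp⟩ hc.continuousOn
  refine ⟨x₀, le_antisymm (le_ciInf fun x => ?_) (Met.phi_le h x₀ m)⟩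
  let k : Z2 := (-⌊x.1⌋, -⌊x.2⌋)
  have h1 : x + lv k ∈ (Icc (0 : ℝ) 1 ×ˢ Icc (0 : ℝ) 1 : Set R2) := by
    have e1 : (x + lv k).1 = x.1 - ⌊x.1⌋ := by
      change x.1 + ((-⌊x.1⌋ : ℤ) : ℝ) = _
      push_cast
      ring
    have e2 : (x + lv k).2 = x.2 - ⌊x.2⌋ := by
      change x.2 + ((-⌊x.2⌋ : ℤ) : ℝ) = _
      push_cast
      ring
    rw [mem_prod, e1, e2]
    exact ⟨⟨by linarith [Int.floor_le x.1], by linarith [Int.lt_floor_add_one x.1]⟩,
      ⟨by linarith [Int.floor_le x.2], by linarith [Int.lt_floor_add_one x.2]⟩⟩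
  have h2 : d x₀ (x₀ + lv m) ≤ d (x + lv k) (x + lv k + lv m) := hmin h1
  have h3 : x + lv k + lv m = x + lv m + lv k := by abel
  rw [h3, h.per] at h2
  exact h2

/-- Constant curves. -/
theorem Met.phi_zero (h : Met d) : phi d 0 = 0 := by
  obtain ⟨x, hx⟩ := Met.phi_att h 0
  have h1 : lv 0 = 0 := by
    refine Prod.ext ?_ ?_
    · change (((0 : ℤ)) : ℝ) = 0
      simp
    · change (((0 : ℤ)) : ℝ) = 0
      simp
  rw [h1, add_zero, h.self] at hx
  exact hx.symm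

/-- The stable norm is positive for some cohomology class (`Met.pos`, `Met.phi_att`). -/
theorem Met.phi_pos (h : Met d) :
    ∃ c0 : R2, ∃ κ > 0, ∀ m : Z2, dt c0 (lv m) + κ * ‖lv m‖ ≤ phi d m := by
  obtain ⟨c0, κ, hκ, hp⟩ := h.pos
  exact ⟨c0, κ, hκ, fun m => le_ciInf fun x => hp x m⟩

/-- Opposite vectors. -/
theorem Met.phi_opp (h : Met d) {m : Z2} (hm : m ≠ 0) : 0 < phi d m + phi d (-m) := by
  obtain ⟨c0, κ, hκ, hp⟩ := Met.phi_pos h
  have h1 := hp m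
  have h2 := hp (-m)
  have h3 := one_le_lv hm
  have e : dt c0 (lv (-m)) = -dt c0 (lv m) := by
    rw [lv_neg]
    have := dt_smul c0 (-1) (lv m)
    rw [neg_one_smul] at this
    rw [this]
    ring
  rw [lv_neg, norm_neg] at h2
  rw [lv_neg] at e
  rw [e] at h2
  have h4 : 0 < κ * ‖lv m‖ := by positivity
  linarith

/-- Repetition of loops (induction on `n`, triangle inequality, periodicity). -/
theorem Met.rep (h : Met d) (x : R2) (m : Z2) (n : ℕ) :
    d x (x + (n : ℝ) • lv m) ≤ n * d x (x + lv m) := by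
  induction n with
  | zero =>
    simp [h.self]
  | succ n ih =>
    have h1 := h.tri x (x + (n : ℝ) • lv m) (x + ((n + 1 : ℕ) : ℝ) • lv m)
    have e : x + ((n + 1 : ℕ) : ℝ) • lv m = x + lv m + lv (n • m) := by
      rw [lv_nsmul]
      push_cast
      rw [add_smul, one_smul]
      abel
    have h2 : d (x + (n : ℝ) • lv m) (x + ((n + 1 : ℕ) : ℝ) • lv m) = d x (x + lv m) := by
      rw [e, ← lv_nsmul, h.per]
    rw [h2] at h1
    push_cast at h1 ⊢
    linarith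

/-- Repetition of loops for the stable norm (`Met.phi_att` and `Met.rep`). -/
theorem Met.phi_nsmul_le (h : Met d) (n : ℕ) (m : Z2) : phi d (n • m) ≤ n * phi d m := by
  obtain ⟨x, hx⟩ := Met.phi_att h m
  have h1 := Met.rep h x m n
  rw [hx, ← lv_nsmul] at h1
  exact (Met.phi_le h x (n • m)).trans h1

end Pool.Agent.DA
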