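import Pool.Agent.DA.TPrim

/-!
# D2 part A, T2: the stable norm is homogeneous
-/

set_option autoImplicit false

namespace Pool.Agent.DA

open Set Filter Topology

variable {d : R2 → R2 → ℝ}

private lemma thom_abs (f : ℤ → ℝ) (A κ : ℝ) (hκ : 0 < κ)
    (hlow : ∀ i : ℤ, (i : ℝ) * A + κ * |(i : ℝ)| ≤ f i)
    (hup : ∀ n : ℕ, f (n : ℤ) ≤ n * f 1)
    (hsplit : ∀ n : ℕ, 1 ≤ n → ∃ p : ℤ, ((n : ℤ) ∣ p - 1 ∨ (n : ℤ) ∣ p + 1) ∧
      f p + f ((n : ℤ) - p) ≤ f (n : ℤ)) (n : ℕ) : f (n : ℤ) = n * f 1 := by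
  set σ : ℝ := ⨅ k : ℕ, f ((k : ℤ) + 1) / ((k : ℝ) + 1) with hσ
  set σ' : ℝ := ⨅ k : ℕ, f (-((k : ℤ) + 1)) / ((k : ℝ) + 1) with hσ'
  have hk0 : ∀ k : ℕ, (0 : ℝ) < (k : ℝ) + 1 := fun k => by positivity
  have hb : ∀ k : ℕ, A + κ ≤ f ((k : ℤ) + 1) / ((k : ℝ) + 1) := by
    intro k
    rw [le_div_iff₀ (hk0 k)]
    have h := hlow ((k : ℤ) + 1)
    push_cast at h
    rw [abs_of_pos (hk0 k)] at h
    linarith
  have hb' : ∀ k : ℕ, -A + κ ≤ f (-((k : ℤ) + 1)) / ((k : ℝ) + 1) := by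
    intro k
    rw [le_div_iff₀ (hk0 k)]
    have h := hlow (-((k : ℤ) + 1))
    push_cast at h
    rw [abs_of_nonpos (by linarith [hk0 k])] at h
    linarith
  have hbd : BddBelow (Set.range fun k : ℕ => f ((k : ℤ) + 1) / ((k : ℝ) + 1)) := by
    refine ⟨A + κ, ?_⟩
    rintro _ ⟨k, rfl⟩
    exact hb k
  have hbd' : BddBelow (Set.range fun k : ℕ => f (-((k : ℤ) + 1)) / ((k : ℝ) + 1)) := by
    refine ⟨-A + κ, ?_⟩
    rintro _ ⟨k, rfl⟩
    exact hb' k
  have hσA : A + κ ≤ σ := le_ciInf hb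
  have hσA' : -A + κ ≤ σ' := le_ciInf hb'
  set a : ℝ := σ + σ' with ha
  have ha0 : 0 < a := by rw [ha]; linarith
  have hge : ∀ k : ℕ, 1 ≤ k → (k : ℝ) * σ ≤ f (k : ℤ) := by
    intro k hk
    obtain ⟨j, rfl⟩ : ∃ j, k = j + 1 := ⟨k - 1, by omega⟩
    have h := ciInf_le hbd j
    rw [← hσ, le_div_iff₀ (hk0 j)] at h
    push_cast
    linarith
  have hge' : ∀ k : ℕ, 1 ≤ k → (k : ℝ) * σ' ≤ f (-(k : ℤ)) := by
    intro k hk
    obtain ⟨j, rfl⟩ : ∃ j, k = j + 1 := ⟨k - 1, by omega⟩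
    have h := ciInf_le hbd' j
    rw [← hσ', le_div_iff₀ (hk0 j)] at h
    push_cast
    linarith
  have hex0 : ∀ k : ℕ, 1 ≤ k → 0 ≤ f (k : ℤ) - k * σ := fun k hk => by linarith [hge k hk]
  -- step 1
  have step1 : ∀ k : ℕ, 2 ≤ k →
      ((f 1 - σ) + (f ((k - 1 : ℕ) : ℤ) - ((k - 1 : ℕ) : ℝ) * σ) ≤ f (k : ℤ) - k * σ) ∨
      ∃ N : ℕ, 1 ≤ N ∧ (N : ℝ) * a + (f ((k + N : ℕ) : ℤ) - ((k + N : ℕ) : ℝ) * σ) ≤
        f (k : ℤ) - k * σ := by
    intro k hk
    obtain ⟨p, hp, hfp⟩ := hsplit k (by omega)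
    obtain ⟨q, hq, hfq⟩ : ∃ q : ℤ, (k : ℤ) ∣ q - 1 ∧ f q + f ((k : ℤ) - q) ≤ f (k : ℤ) := by
      rcases hp with hp | hp
      · exact ⟨p, hp, hfp⟩
      · refine ⟨(k : ℤ) - p, ?_, ?_⟩
        · obtain ⟨c, hc⟩ := hp
          exact ⟨1 - c, by linear_combination -hc⟩
        · have e1 : (k : ℤ) - ((k : ℤ) - p) = p := by ring
          rw [e1]
          linarith
    obtain ⟨j, hj⟩ := hq
    have hkpos : (0 : ℤ) < (k : ℤ) := by omega
    rcases lt_trichotomy j 0 with hj0 | hj0 | hj0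
    · -- j ≤ -1
      right
      have hNpos : 1 ≤ -1 - (k : ℤ) * j := by nlinarith
      obtain ⟨N, hN⟩ : ∃ N : ℕ, (N : ℤ) = -1 - (k : ℤ) * j :=
        ⟨(-1 - (k : ℤ) * j).toNat, Int.toNat_of_nonneg (by omega)⟩
      have hN1 : 1 ≤ N := by omega
      refine ⟨N, hN1, ?_⟩
      have e1 : q = -(N : ℤ) := by rw [hN]; linear_combination hj
      have e2 : (k : ℤ) - q = ((k + N : ℕ) : ℤ) := by rw [e1]; push_cast; ring
      rw [e2, e1] at hfq
      have h1 := hge' N hN1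
      push_cast at hfq ⊢
      rw [ha]
      nlinarith
    · left
      rw [hj0, mul_zero] at hj
      have e1 : q = 1 := by linarith
      have e2 : (k : ℤ) - q = ((k - 1 : ℕ) : ℤ) := by rw [e1]; omega
      have e3 : ((k - 1 : ℕ) : ℝ) = (k : ℝ) - 1 := by
        rw [Nat.cast_sub (by omega)]
        simp
      rw [e2, e1] at hfq
      rw [e3]
      linarith
    · right
      have hNpos : 1 ≤ 1 + (k : ℤ) * (j - 1) := by nlinarith
      obtain ⟨N, hN⟩ : ∃ N : ℕ, (N : ℤ) = 1 + (k : ℤ) * (j - 1) :=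
        ⟨(1 + (k : ℤ) * (j - 1)).toNat, Int.toNat_of_nonneg (by omega)⟩
      have hN1 : 1 ≤ N := by omega
      refine ⟨N, hN1, ?_⟩
      have e1 : q = ((k + N : ℕ) : ℤ) := by push_cast; rw [hN]; linear_combination hj
      have e2 : (k : ℤ) - q = -(N : ℤ) := by rw [e1]; push_cast; ring
      rw [e2, e1] at hfq
      have h1 := hge' N hN1
      push_cast at hfq ⊢
      rw [ha]
      nlinarith
  -- step 2
  have hx1 : 0 ≤ f 1 - σ := by
    have := hex0 1 le_rfl
    push_cast at this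
    linarith
  have step2 : ∀ k : ℕ, 1 ≤ k → (k : ℝ) * (f 1 - σ) ≤ f (k : ℤ) - k * σ := by
    rcases hx1.eq_or_lt with h0 | h0
    · intro k hk
      rw [← h0, mul_zero]
      exact hex0 k hk
    · set δ : ℝ := min (f 1 - σ) a with hδ
      have hδ0 : 0 < δ := lt_min h0 ha0
      have hδ1 : δ ≤ f 1 - σ := min_le_left _ _
      have hδa : δ ≤ a := min_le_right _ _
      have ind : ∀ K : ℕ, ∀ k : ℕ, 1 ≤ k → f (k : ℤ) - k * σ < K * δ →
          (k : ℝ) * (f 1 - σ) ≤ f (k : ℤ) - k * σ := by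
        intro K
        induction K with
        | zero =>
          intro k hk hlt
          have := hex0 k hk
          simp only [Nat.cast_zero, zero_mul] at hlt
          linarith
        | succ K ih =>
          intro k hk hlt
          push_cast at hlt
          rcases hk.eq_or_lt with h1 | h1
          · rw [← h1]
            push_cast
            linarith
          · rcases step1 k h1 with hs | ⟨N, hN, hs⟩
            · have h2 := ih (k - 1) (by omega) (by linarith)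
              have e3 : ((k - 1 : ℕ) : ℝ) = (k : ℝ) - 1 := by
                rw [Nat.cast_sub (by omega)]
                simp
              have h3 : ((k - 1 : ℕ) : ℝ) * (f 1 - σ) = (k : ℝ) * (f 1 - σ) - (f 1 - σ) := by
                rw [e3]
                ring
              linarith
            · have hNr : (1 : ℝ) ≤ N := by exact_mod_cast hN
              have hNa : a ≤ N * a := by nlinarith
              have h2 := ih (k + N) (by omega) (by linarith)
              have h3 : (k : ℝ) * (f 1 - σ) ≤ ((k + N : ℕ) : ℝ) * (f 1 - σ) := by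
                refine mul_le_mul_of_nonneg_right ?_ hx1
                push_cast
                linarith
              linarith
      intro k hk
      obtain ⟨K, hK⟩ := exists_nat_gt ((f (k : ℤ) - k * σ) / δ)
      rw [div_lt_iff₀ hδ0] at hK
      exact ind K k hk hK
  -- step 3
  have step3 : f 1 ≤ σ := by
    have h1 : σ + (f 1 - σ) ≤ σ := by
      conv_rhs => rw [hσ]
      refine le_ciInf fun k => ?_
      rw [le_div_iff₀ (hk0 k)]
      have h2 := step2 (k + 1) (by omega)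
      push_cast at h2
      linarith
    linarith
  have hf1 : f 1 = σ := le_antisymm step3 (by linarith)
  rcases Nat.eq_zero_or_pos n with h0 | h0
  · subst h0
    have h1 := hup 0
    have h2 := hlow 0
    push_cast at h1 h2 ⊢
    rw [abs_zero] at h2
    linarith
  · refine le_antisymm (hup n) ?_
    rw [hf1]
    exact hge n h0

/-- Homogeneity for primitive vectors.

Proof. Put `f i = phi d (i • e)` for integers `i`; `f 0 = 0`.  Let `σ = inf f n / n` and
`σ' = inf f (-n) / n` over `n ≥ 1` (both bounded below, by `Met.phi_pos` with `c0, κ`: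
`f n / n ≥ dt c0 (lv e) + κ ‖lv e‖`, `f (-n) / n ≥ - dt c0 (lv e) + κ ‖lv e‖`).  So
`a = σ + σ' ≥ 2 κ ‖lv e‖ > 0`.  Put `ex n = f n - n σ ≥ 0` for `n ≥ 1`.

Step 1. For `n ≥ 2`: either `f n ≥ f 1 + f (n - 1)`, or there is `N ≥ 1` with
`f n ≥ f (-N) + f (n + N)`.  Indeed take `p` from `Met.split0`.  If `n ∣ p + 1` then
`n ∣ (n - p) - 1`; so, exchanging `p` and `n - p`, we may suppose `p = 1 + j n`.  `j = 0`: the
first case.  `j ≥ 1`: `n - p = - N` with `N = 1 + (j - 1) n ≥ 1` and `p = n + N`.  `j ≤ -1`: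
`p = - N` with `N = - 1 - j n ≥ 1` and `n - p = n + N`.
So `ex n ≥ ex 1 + ex (n - 1)`, or `ex n ≥ N a + ex (n + N)` for some `N ≥ 1`.

Step 2. `ex n ≥ n * ex 1` for all `n ≥ 1`.  Clear if `ex 1 = 0`.  If `ex 1 > 0` put
`δ = min (ex 1) a > 0`; prove by induction on `k : ℕ`: for all `n ≥ 1` with `ex n < k δ`,
`ex n ≥ n * ex 1`.  `k = 0`: no such `n`.  Step from `k` to `k + 1`: `n = 1` is clear; for
`n ≥ 2`: in the first case `ex (n - 1) ≤ ex n - δ < k δ`, so `ex (n - 1) ≥ (n - 1) * ex 1` and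
`ex n ≥ n * ex 1`; in the second case `ex (n + N) ≤ ex n - δ < k δ`, so
`ex n ≥ ex (n + N) ≥ (n + N) * ex 1 ≥ n * ex 1`.

Step 3. So `ex 1 ≤ ex n / n = f n / n - σ` for all `n ≥ 1`, whose infimum is `0`: `ex 1 ≤ 0`,
`ex 1 = 0`, `σ = f 1`, and `f n ≥ n σ = n f 1`; `f n ≤ n f 1` is `Met.phi_nsmul_le`. -/
theorem Met.hom_prim (h : Met d) {e : Z2} (he : Prim e) (n : ℕ) :
    phi d (n • e) = n * phi d e := by
  have he0 : e ≠ 0 := by
    rintro rfl
    have h1 : IsCoprime (0 : ℤ) 0 := he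
    exact not_isUnit_zero (isCoprime_zero_left.1 h1)
  obtain ⟨c0, κ, hκ, hpos⟩ := h.phi_pos
  have key := thom_abs (fun i : ℤ => phi d (i • e)) (dt c0 (lv e)) κ hκ (fun i => ?_)
    (fun k => ?_) (fun k hk => h.split0 he hk) n
  · simp only [natCast_zsmul, one_smul] at key
    exact key
  · have h1 := hpos (i • e)
    rw [lv_smul, dt_smul, norm_smul, Real.norm_eq_abs] at h1
    have h2 : κ * |(i : ℝ)| ≤ κ * (|(i : ℝ)| * ‖lv e‖) := by
      refine mul_le_mul_of_nonneg_left ?_ hκ.le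
      exact le_mul_of_one_le_right (abs_nonneg _) (one_le_lv he0)
    linarith
  · have h1 := h.phi_nsmul_le k e
    simp only [natCast_zsmul, one_smul]
    exact h1

/-- Homogeneity.

Proof. `m = 0` is `Met.phi_zero`.  Otherwise `m = k • e` with `k ≥ 1` the gcd and `e` primitive;
`n • m = (n k) • e`. -/
theorem Met.hom (h : Met d) (m : Z2) (n : ℕ) : phi d (n • m) = n * phi d m := by
  rcases eq_or_ne m 0 with rfl | hm
  · rw [smul_zero, h.phi_zero, mul_zero]
  · obtain ⟨e, k, he, _, rfl⟩ := exists_prim hm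
    rw [smul_smul, h.hom_prim he, h.hom_prim he]
    push_cast
    ring

end Pool.Agent.DA
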