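import Pool.Agent.DA.TBas

/-!
# D2 part A, T0: periodic minimal curves
-/

set_option autoImplicit false

namespace Pool.Agent.DA

open Set Filter Topology

variable {d : R2 → R2 → ℝ}

/-- Periodic extension of minimal curves: a curve `γ` on `ℝ` with `γ (t + 1) = γ t + lv m`.

Proof. Take the minimal curve `γ` of `Met.geo` from `x` to `x + lv m` and
`γ' t = γ (Int.fract t) + ⌊t⌋ • lv m`.  Continuity: `γ (Int.fract t) - Int.fract t • lv m` is
continuous (`ContinuousOn.comp_fract`, equal values at `0` and `1`), and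
`γ' t = (γ (Int.fract t) - Int.fract t • lv m) + t • lv m`.  On `[0,1]` it is `γ`. -/
theorem Met.ext (h : Met d) (x : R2) (m : Z2) : ∃ γ : ℝ → R2, Continuous γ ∧ γ 0 = x ∧
    γ 1 = x + lv m ∧ (∀ t, γ (t + 1) = γ t + lv m) ∧
    ∀ s t, 0 ≤ s → s ≤ t → t ≤ 1 →
      d x (γ s) + d (γ s) (γ t) + d (γ t) (x + lv m) = d x (x + lv m) := by
  obtain ⟨γ, hγc, h0, h1, hg⟩ := h.geo x (x + lv m)
  have hfc : Continuous ((fun s : ℝ => γ s - s • lv m) ∘ Int.fract) := by
    refine ContinuousOn.comp_fract'' ?_ ?_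
    · exact (hγc.sub (continuous_id.smul continuous_const)).continuousOn
    · show γ 0 - (0 : ℝ) • lv m = γ 1 - (1 : ℝ) • lv m
      rw [h0, h1, zero_smul, one_smul, sub_zero, add_sub_cancel_right]
  have he : ∀ t : ℝ, γ (Int.fract t) + (⌊t⌋ : ℝ) • lv m =
      ((fun s : ℝ => γ s - s • lv m) ∘ Int.fract) t + t • lv m := by
    intro t
    show _ = γ (Int.fract t) - Int.fract t • lv m + t • lv m
    have h2 : (⌊t⌋ : ℝ) • lv m = t • lv m - Int.fract t • lv m := by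
      rw [← sub_smul, Int.self_sub_fract]
    rw [h2]
    abel
  have hI : ∀ t : ℝ, 0 ≤ t → t ≤ 1 → γ (Int.fract t) + (⌊t⌋ : ℝ) • lv m = γ t := by
    intro t ht0 ht1
    rcases ht1.lt_or_eq with ht1 | ht1
    · have h2 : Int.fract t = t := Int.fract_eq_self.2 ⟨ht0, ht1⟩
      have h3 : ⌊t⌋ = 0 := Int.floor_eq_zero_iff.2 ⟨ht0, ht1⟩
      rw [h2, h3, Int.cast_zero, zero_smul, add_zero]
    · rw [ht1, Int.fract_one, Int.floor_one, Int.cast_one, one_smul, h0, h1]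
  refine ⟨fun t => γ (Int.fract t) + (⌊t⌋ : ℝ) • lv m, ?_, ?_, ?_, ?_, ?_⟩
  · simp only [he]
    exact hfc.add (continuous_id.smul continuous_const)
  · show γ (Int.fract 0) + (⌊(0 : ℝ)⌋ : ℝ) • lv m = x
    rw [hI 0 le_rfl zero_le_one, h0]
  · show γ (Int.fract 1) + (⌊(1 : ℝ)⌋ : ℝ) • lv m = x + lv m
    rw [hI 1 zero_le_one le_rfl, h1]
  · intro t
    show γ (Int.fract (t + 1)) + (⌊t + 1⌋ : ℝ) • lv m = γ (Int.fract t) + (⌊t⌋ : ℝ) • lv m + lv m
    rw [Int.fract_add_one, Int.floor_add_one, Int.cast_add, Int.cast_one, add_smul, one_smul,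
      add_assoc]
  · intro s t hs hst ht
    show d x (γ (Int.fract s) + (⌊s⌋ : ℝ) • lv m) +
      d (γ (Int.fract s) + (⌊s⌋ : ℝ) • lv m) (γ (Int.fract t) + (⌊t⌋ : ℝ) • lv m) +
      d (γ (Int.fract t) + (⌊t⌋ : ℝ) • lv m) (x + lv m) = _
    rw [hI s hs (hst.trans ht), hI t (hs.trans hst) ht]
    exact hg s t hs hst ht

private theorem shift_int {γ : ℝ → R2} {m : Z2} (hγ : ∀ t, γ (t + 1) = γ t + lv m) (n : ℤ) :
    ∀ t, γ (t + n) = γ t + (n : ℝ) • lv m := by
  induction n using Int.induction_on with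
  | zero => intro t; rw [Int.cast_zero, add_zero, zero_smul, add_zero]
  | succ n ih =>
    intro t
    have h1 : t + (((n : ℤ) + 1 : ℤ) : ℝ) = t + ((n : ℤ) : ℝ) + 1 := by push_cast; ring
    rw [h1, hγ, ih t, Int.cast_add, Int.cast_one, add_smul, one_smul, add_assoc]
  | pred n ih =>
    intro t
    have h1 : t + ((-(n : ℤ) : ℤ) : ℝ) = t + ((-(n : ℤ) - 1 : ℤ) : ℝ) + 1 := by push_cast; ring
    have h2 := ih t
    rw [h1, hγ] at h2
    rw [eq_sub_of_add_eq h2, Int.cast_sub (-(n : ℤ)) 1, Int.cast_one, sub_smul, one_smul]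
    abel

/-- Minimal loops: all subarcs of length at most one period are minimal.

Proof. Take `x` with `d x (x + lv m) = phi d m` and the curve of `Met.ext`.
* `0 ≤ s ≤ t ≤ 1`: `d (γ t) (γ s + lv m) ≤ d (γ t) (x + lv m) + d (x + lv m) (γ s + lv m)` and
  the last term is `d x (γ s)`; so `d (γ s) (γ t) + d (γ t) (γ s + lv m) ≤ phi d m`; and it is
  `≥ d (γ s) (γ s + lv m) ≥ phi d m`.
* `0 ≤ s ≤ 1 ≤ t ≤ s + 1`: with `r = t - 1`, `γ t = γ r + lv m`, the first case for `(r, s)`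
  gives `d (γ r) (γ s) + d (γ s) (γ r + lv m) = phi d m`, and
  `d (γ t) (γ s + lv m) = d (γ r) (γ s)`.
* General `s ≤ t ≤ s + 1`: subtract `⌊s⌋` from both. -/
theorem Met.loop (h : Met d) (m : Z2) : ∃ γ : ℝ → R2, Continuous γ ∧
    (∀ t, γ (t + 1) = γ t + lv m) ∧
    ∀ s t, s ≤ t → t ≤ s + 1 → d (γ s) (γ t) + d (γ t) (γ s + lv m) = phi d m := by
  obtain ⟨x, hx⟩ := h.phi_att m
  obtain ⟨γ, hγc, h0, h1, hp, hg⟩ := h.ext x m
  have hA : ∀ s t, 0 ≤ s → s ≤ t → t ≤ 1 →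
      d (γ s) (γ t) + d (γ t) (γ s + lv m) = phi d m := by
    intro s t hs hst ht
    have e1 := hg s t hs hst ht
    have e2 := h.tri (γ t) (x + lv m) (γ s + lv m)
    rw [h.per x (γ s) m] at e2
    have e3 := h.tri (γ s) (γ t) (γ s + lv m)
    have e4 := h.phi_le (γ s) m
    linarith
  have hB : ∀ s t, 0 ≤ s → s ≤ 1 → s ≤ t → t ≤ s + 1 →
      d (γ s) (γ t) + d (γ t) (γ s + lv m) = phi d m := by
    intro s t hs hs1 hst ht
    rcases le_total t 1 with h2 | h2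
    · exact hA s t hs hst h2
    · have e1 := hA (t - 1) s (by linarith) (by linarith) hs1
      have e2 : γ t = γ (t - 1) + lv m := by
        rw [← hp, sub_add_cancel]
      rw [e2, h.per]
      linarith
  refine ⟨γ, hγc, hp, fun s t hst ht => ?_⟩
  have e1 := hB (Int.fract s) (t - ⌊s⌋) (Int.fract_nonneg s) (Int.fract_lt_one s).le
    (by rw [Int.fract]; linarith) (by rw [Int.fract]; linarith)
  have e2 : γ s = γ (Int.fract s) + lv (⌊s⌋ • m) := by
    rw [lv_smul, ← shift_int hp, Int.fract_add_floor]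
  have e3 : γ t = γ (t - ⌊s⌋) + lv (⌊s⌋ • m) := by
    rw [lv_smul, ← shift_int hp, sub_add_cancel]
  rw [e2, e3, h.per, add_right_comm (γ (Int.fract s)), h.per]
  exact e1

end Pool.Agent.DA
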