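import Pool.Agent.DA.THom

/-!
# D2 part A, T5: splitting of nearly minimal loops
-/

set_option autoImplicit false

namespace Pool.Agent.DA

open Set Filter Topology

variable {d : R2 → R2 → ℝ}

/-- If `n` turns of class `e` from `z` cost at most `n φ + η`, one turn costs at most `φ + η`.

Proof. Put `φ = phi d e`, `φ' = phi d (-e)`, `a = φ + φ'`.  A pair `y, y + p e` (`p` an integer)
has excess `d y (y + p • lv e) - p φ`; it is `≥ 0` for `p ≥ 0` and `≥ |p| a ≥ a` for `p < 0`
(`Met.phi_le`, `Met.hom`: `d y (y + p e) ≥ phi d (p • e)`).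

Induction on `n ≥ 1`; `n = 1` is clear.  Let `n ≥ 2`.  `Met.ext` gives the minimal curve `γ` from
`z` to `z + n e` with `γ (t + 1) = γ t + n • lv e`; `chord` gives `0 ≤ s ≤ t ≤ 1` and `p` with
`γ t = γ s + p • lv e` and `p = 1` or `p = -1` modulo `n`.  By `Met.ext`
`d z (z + n e) = d z (γ s) + d (γ s) (γ t) + d (γ t) (z + n e)`, and
`d z (γ s) + d (γ t) (z + n e) = d (γ t) (z + n e) + d (z + n e) (γ s + n e)`
`≥ d (γ t) (γ s + n e)`, a pair of class `n - p`.  So the sum of the excesses of the classes
`p` and `n - p` is at most `η < a`: `0 ≤ p ≤ n`, so `p = 1` or `p = n - 1` (as `n ≥ 2`).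
* `p = 1`: `d z (z + (n-1) e) ≤ d z (γ s) + d (γ t - e) (z + n e - e)`
  `= d z (γ s) + d (γ t) (z + n e) = d z (z + n e) - d (γ s) (γ t) ≤ n φ + η - φ` (here
  `γ t - e = γ s`).  Induction hypothesis.
* `p = n - 1`: `d z (z + e) ≤ d z (γ s) + d (γ t - (n-1) e) (z + n e - (n-1) e)`
  `= d z (z + n e) - d (γ s) (γ t) ≤ n φ + η - (n - 1) φ = φ + η`. -/
theorem Met.split (h : Met d) {e : Z2} (he : Prim e) {η : ℝ}
    (hη : η < phi d e + phi d (-e)) {n : ℕ} (hn : 1 ≤ n) {z : R2}
    (hz : d z (z + (n : ℝ) • lv e) ≤ n * phi d e + η) :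
    d z (z + lv e) ≤ phi d e + η := by
  induction n with
  | zero => omega
  | succ m ih =>
    rcases Nat.eq_zero_or_pos m with hm | hm
    · subst hm
      simpa using hz
    · obtain ⟨γ, hγ, h0, h1, hper, hmin⟩ := h.ext z ((m + 1) • e)
      have hlv : lv ((m + 1) • e) = ((m + 1 : ℕ) : ℝ) • lv e := lv_nsmul (m + 1) e
      rw [hlv] at h1 hper hmin
      obtain ⟨s, t, p, hs, hst, ht, hp, hdiv⟩ := chord he hn hγ hper
      have hmn := hmin s t hs hst ht
      -- the two pairs
      have e1 : phi d (p • e) ≤ d (γ s) (γ t) := by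
        have := h.phi_le (γ s) (p • e)
        rwa [lv_smul, ← hp] at this
      have e2 : phi d ((((m + 1 : ℕ) : ℤ) - p) • e) ≤
          d z (γ s) + d (γ t) (z + ((m + 1 : ℕ) : ℝ) • lv e) := by
        have a1 := h.phi_le (γ t) ((((m + 1 : ℕ) : ℤ) - p) • e)
        have a2 : γ t + lv ((((m + 1 : ℕ) : ℤ) - p) • e) =
            γ s + lv ((m + 1) • e) := by
          rw [lv_smul, hlv, hp]
          push_cast
          module
        rw [a2] at a1
        have a3 := h.tri (γ t) (z + lv ((m + 1) • e)) (γ s + lv ((m + 1) • e))
        rw [h.per] at a3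
        rw [hlv] at a1 a3
        linarith
      have key : phi d (p • e) + phi d ((((m + 1 : ℕ) : ℤ) - p) • e) ≤
          ((m + 1 : ℕ) : ℝ) * phi d e + η := by linarith
      -- nonnegativity of the excesses
      have hnn : ∀ k : ℕ, phi d ((k : ℤ) • e) = k * phi d e := by
        intro k
        have := h.hom e k
        rwa [← natCast_zsmul] at this
      have hneg : ∀ k : ℕ, phi d ((-(k : ℤ)) • e) = k * phi d (-e) := by
        intro k
        have := h.hom (-e) k
        rw [← natCast_zsmul, smul_neg, ← neg_smul] at this
        exact this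
      have hp0 : 0 ≤ p := by
        by_contra hlt
        push Not at hlt
        obtain ⟨k, hk⟩ := Int.eq_ofNat_of_zero_le (show 0 ≤ -p by omega)
        have hk1 : 1 ≤ k := by omega
        have hpk : p = -(k : ℤ) := by omega
        have hq : ((m + 1 : ℕ) : ℤ) - p = ((m + 1 + k : ℕ) : ℤ) := by
          rw [hpk]; push_cast; ring
        rw [hq, hnn, hpk, hneg] at key
        push_cast at key
        have hk' : (1 : ℝ) ≤ k := by exact_mod_cast hk1
        have hη0 : 0 < phi d e + phi d (-e) := by
          have hne : e ≠ 0 := by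
            rintro rfl
            exact not_isCoprime_zero_zero he
          exact h.phi_opp hne
        nlinarith
      have hp1 : p ≤ ((m + 1 : ℕ) : ℤ) := by
        by_contra hlt
        push Not at hlt
        obtain ⟨k, hk⟩ := Int.eq_ofNat_of_zero_le
          (show 0 ≤ -(((m + 1 : ℕ) : ℤ) - p) by omega)
        have hk1 : 1 ≤ k := by omega
        have hpk : ((m + 1 : ℕ) : ℤ) - p = -(k : ℤ) := by omega
        have hq : p = ((m + 1 + k : ℕ) : ℤ) := by
          push_cast at hpk ⊢
          omega
        rw [hpk, hneg, hq, hnn] at key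
        push_cast at key
        have hk' : (1 : ℝ) ≤ k := by exact_mod_cast hk1
        have hη0 : 0 < phi d e + phi d (-e) := by
          have hne : e ≠ 0 := by
            rintro rfl
            exact not_isCoprime_zero_zero he
          exact h.phi_opp hne
        nlinarith
      -- the remaining arc
      have hrem : d z (z + (((m + 1 : ℕ) : ℤ) - p : ℤ) • lv e) ≤
          d z (γ s) + d (γ t) (z + ((m + 1 : ℕ) : ℝ) • lv e) := by
        have b1 := h.tri z (γ s) (z + (((m + 1 : ℕ) : ℤ) - p : ℤ) • lv e)
        have b2 : d (γ s) (z + (((m + 1 : ℕ) : ℤ) - p : ℤ) • lv e) =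
            d (γ t) (z + ((m + 1 : ℕ) : ℝ) • lv e) := by
          rw [← h.per (γ s) _ (p • e), lv_smul, ← hp]
          congr 1
          rw [← Int.cast_smul_eq_zsmul ℝ]
          push_cast
          module
        linarith
      have e3 : (p : ℝ) * phi d e ≤ d (γ s) (γ t) := by
        obtain ⟨k, hk⟩ := Int.eq_ofNat_of_zero_le hp0
        rw [hk, hnn] at e1
        rw [hk]
        exact_mod_cast e1
      have hcases : p = 1 ∨ p = (m : ℤ) := by
        rcases hdiv with hd | hd
        · left
          obtain ⟨c, hc⟩ := hd
          push_cast at hc hp1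
          have hm' : (1 : ℤ) ≤ m := by exact_mod_cast hm
          have hc1 : c < 1 := by
            by_contra hcc
            push Not at hcc
            nlinarith
          have hc0 : -1 < c := by
            by_contra hcc
            push Not at hcc
            nlinarith
          have : c = 0 := by omega
          rw [this] at hc
          omega
        · right
          obtain ⟨c, hc⟩ := hd
          push_cast at hc hp1
          have hm' : (1 : ℤ) ≤ m := by exact_mod_cast hm
          have hc1 : c < 2 := by
            by_contra hcc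
            push Not at hcc
            nlinarith
          have hc0 : 0 < c := by
            by_contra hcc
            push Not at hcc
            nlinarith
          have : c = 1 := by omega
          rw [this] at hc
          omega
      rcases hcases with hpp | hpp
      · have hq : (((m + 1 : ℕ) : ℤ) - p : ℤ) = (m : ℤ) := by
          rw [hpp]; push_cast; ring
        rw [hq, ← Int.cast_smul_eq_zsmul ℝ] at hrem
        rw [hpp] at e3
        apply ih hm
        push_cast at hrem e3 hmn hz ⊢
        linarith
      · have hq : (((m + 1 : ℕ) : ℤ) - p : ℤ) = 1 := by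
          rw [hpp]; push_cast; ring
        rw [hq, one_smul] at hrem
        rw [hpp] at e3
        push_cast at hrem e3 hmn hz ⊢
        linarith

end Pool.Agent.DA
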