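import Pool.Agent.DA.Defs
import Pool.Agent.Brouwer.Convex

/-!
# D2 part A, W4: crossing of quasiperiodic curves
-/

set_option autoImplicit false

namespace Pool.Agent.DA

open Set Filter Topology

/-- Two quasiperiodic curves with linearly independent periods meet.

Proof. `p1 s = γ1 s - s • f1` and `p2 t = γ2 t - t • f2` are continuous and `1`-periodic, so
bounded (compactness of `[0,1]`).  For `y` in the plane put
`Λ y = (dR y f2 / dR f1 f2, dR y f1 / dR f1 f2)`, so `(Λ y).1 • f1 - (Λ y).2 • f2 = y`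
(linear, continuous).  The map `(s,t) ↦ Λ (p2 t - p1 s)` is continuous on the plane with values
in a closed ball of radius `R ≥ 0`; `Pool.Agent.Brouwer.brouwer_convex` with this closed ball
gives a fixed point `(s,t)`: `s • f1 - t • f2 = p2 t - p1 s`, so `γ1 s = γ2 t`. -/
theorem cross {f1 f2 : R2} (h : dR f1 f2 ≠ 0) {γ1 γ2 : ℝ → R2} (h1 : Continuous γ1)
    (h2 : Continuous γ2) (p1 : ∀ t, γ1 (t + 1) = γ1 t + f1)
    (p2 : ∀ t, γ2 (t + 1) = γ2 t + f2) : ∃ s t, γ1 s = γ2 t := by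
  set q1 : ℝ → R2 := fun s => γ1 s - s • f1 with hq1
  set q2 : ℝ → R2 := fun t => γ2 t - t • f2 with hq2
  have c1 : Continuous q1 := h1.sub (continuous_id.smul continuous_const)
  have c2 : Continuous q2 := h2.sub (continuous_id.smul continuous_const)
  have r1 : Function.Periodic q1 1 := by
    intro s
    simp only [hq1]
    rw [p1, add_smul, one_smul]
    abel
  have r2 : Function.Periodic q2 1 := by
    intro s
    simp only [hq2]
    rw [p2, add_smul, one_smul]
    abel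
  have k1 : IsCompact (range q1) := r1.compact_of_continuous one_ne_zero c1
  have k2 : IsCompact (range q2) := r2.compact_of_continuous one_ne_zero c2
  set Λ : R2 → R2 := fun y => (dR y f2 / dR f1 f2, dR y f1 / dR f1 f2) with hΛ
  have cΛ : Continuous Λ := by
    simp only [hΛ, dR]
    fun_prop
  set Ψ : R2 → R2 := fun z => Λ (q2 z.2 - q1 z.1) with hΨ
  have cΨ : Continuous Ψ :=
    cΛ.comp ((c2.comp continuous_snd).sub (c1.comp continuous_fst))
  have k3 : IsCompact ((fun p : R2 × R2 => Λ (p.1 - p.2)) '' (range q2 ×ˢ range q1)) :=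
    (k2.prod k1).image (cΛ.comp (continuous_fst.sub continuous_snd))
  obtain ⟨R, hR⟩ := k3.isBounded.exists_norm_le
  have hb : ∀ z, ‖Ψ z‖ ≤ R := fun z =>
    hR _ ⟨(q2 z.2, q1 z.1), ⟨mem_range_self _, mem_range_self _⟩, rfl⟩
  have hR0 : 0 ≤ R := (norm_nonneg _).trans (hb 0)
  obtain ⟨z, -, hz⟩ := Pool.Agent.Brouwer.brouwer_convex
    (isCompact_closedBall (0 : R2) R) (convex_closedBall (0 : R2) R)
    ⟨0, Metric.mem_closedBall_self hR0⟩ Ψ cΨ.continuousOn
    (fun z _ => by rw [mem_closedBall_zero_iff]; exact hb z)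
  refine ⟨z.1, z.2, ?_⟩
  have e1 : dR (q2 z.2 - q1 z.1) f2 / dR f1 f2 = z.1 := congrArg Prod.fst hz
  have e2 : dR (q2 z.2 - q1 z.1) f1 / dR f1 f2 = z.2 := congrArg Prod.snd hz
  rw [div_eq_iff h] at e1 e2
  simp only [dR, hq1, hq2, Prod.fst_sub, Prod.snd_sub, Prod.smul_fst, Prod.smul_snd,
    smul_eq_mul] at e1 e2 h
  have g1 : (f1.1 * f2.2 - f1.2 * f2.1) * ((γ1 z.1).1 - (γ2 z.2).1) = 0 := by
    linear_combination (-f1.1) * e1 + f2.1 * e2
  have g2 : (f1.1 * f2.2 - f1.2 * f2.1) * ((γ1 z.1).2 - (γ2 z.2).2) = 0 := by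
    linear_combination (-f1.2) * e1 + f2.2 * e2
  refine Prod.ext ?_ ?_
  · exact sub_eq_zero.1 ((mul_eq_zero.1 g1).resolve_left h)
  · exact sub_eq_zero.1 ((mul_eq_zero.1 g2).resolve_left h)

end Pool.Agent.DA
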