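import Pool.Agent.DA.TExc
import Pool.Agent.DA.TSpl
import Pool.Agent.DA.WCross

/-!
# D2 part A, T6: nearly null curves transversal to `e`
-/

set_option autoImplicit false

namespace Pool.Agent.DA

open Set Filter Topology

variable {d : R2 → R2 → ℝ}

/-- For every `ε > 0` there is a quasiperiodic curve of class `m e + e'` on which one turn of
class `e` costs at most `phi d e + ε`.

Proof. `e` is primitive (`prim_of_dZ`), so `a = phi d e + phi d (-e) > 0` (`Met.phi_opp`).  Let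
`0 < η ≤ ε / 2` with `2 η < a`.  Let `c ∈ KS d` with `dt c (lv e) = phi d e`
(`Met.exists_c`): it is a maximizer of the pairing with `w = lv e` on `KS d`.
`Met.excess` with `η` and `R = ‖lv e'‖` gives `M`; take `m ≥ 1` with `M ≤ m`: with
`f = m • e + e'` and `f' = m • e - e'`, `phi d f ≤ dt c (lv f) + η`, `phi d f' ≤ dt c (lv f') + η`.

Let `γ`, `γ'` be the curves of `Met.loop` for `f` and `f'`.  We show
`d (γ s) (γ s + lv e) ≤ phi d e + 2 η` for every `s`.  `lv f`, `lv f'` are linearly independent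
(`dZ f f' = - 2 m`), so by `cross` `γ s1 = γ' t1` for some `s1, t1`.  With the integer `k` for
which `s ≤ s1 + k ≤ s + 1` put `s' = s1 + k` and `w = γ s' = γ' t1 + k • lv f` (`qper_int`).
`d w (w + lv f') = d (γ' t1) (γ' t1 + lv f') = phi d f'` (`Met.per`, `Met.loop` with `t = s`).
With `z = γ s`: `f + f' = 2 m e` and
`d z (z + 2 m e) ≤ d z w + d w (w + lv f') + d (w + lv f') (z + lv f + lv f')`
`= d z w + d w (z + lv f) + phi d f' = phi d f + phi d f'` (`Met.loop`)
`≤ dt c (lv f + lv f') + 2 η = 2 m phi d e + 2 η`.  `Met.split` with `n = 2 m`. -/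
theorem Met.nearnull (h : Met d) (hs : SCK d) {e e' : Z2} (hee : dZ e e' = 1) {ε : ℝ}
    (hε : 0 < ε) : ∃ (m : ℕ) (γ : ℝ → R2), Continuous γ ∧
      (∀ t, γ (t + 1) = γ t + lv (m • e + e')) ∧
      ∀ t, d (γ t) (γ t + lv e) ≤ phi d e + ε := by
  have he : Prim e := prim_of_dZ hee
  have hne : e ≠ 0 := by
    rintro rfl
    simp [dZ] at hee
  have ha : 0 < phi d e + phi d (-e) := h.phi_opp hne
  obtain ⟨η, hη, hη1, hη2⟩ : ∃ η : ℝ, 0 < η ∧ 2 * η ≤ ε ∧ 2 * η < phi d e + phi d (-e) := by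
    refine ⟨min (ε / 2) ((phi d e + phi d (-e)) / 4), lt_min (by linarith) (by linarith), ?_, ?_⟩
    · have := min_le_left (ε / 2) ((phi d e + phi d (-e)) / 4)
      linarith
    · have := min_le_right (ε / 2) ((phi d e + phi d (-e)) / 4)
      linarith
  obtain ⟨c, hc, hce⟩ := h.exists_c e
  have hmax : ∀ q ∈ KS d, dt q (lv e) ≤ dt c (lv e) := fun q hq => by
    rw [hce]
    exact hq e
  obtain ⟨M, hM, hex⟩ := h.excess hs (lv_ne hne) hc hmax ‖lv e'‖ hη
  obtain ⟨m0, hm0⟩ := exists_nat_ge M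
  set m : ℕ := m0 + 1 with hm
  have hmM : M ≤ (m : ℝ) := by
    rw [hm]
    push_cast
    linarith
  have hmpos : (0 : ℝ) < m := lt_of_lt_of_le hM hmM
  have hf : lv (m • e + e') = (m : ℝ) • lv e + lv e' := by
    rw [lv_add, lv_nsmul]
  have hf' : lv (m • e - e') = (m : ℝ) • lv e - lv e' := by
    rw [sub_eq_add_neg, lv_add, lv_nsmul, lv_neg, sub_eq_add_neg]
  have h1 : phi d (m • e + e') ≤ dt c (lv (m • e + e')) + η := by
    refine hex _ (m : ℝ) hmM ?_
    rw [hf, add_sub_cancel_left]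
  have h2 : phi d (m • e - e') ≤ dt c (lv (m • e - e')) + η := by
    refine hex _ (m : ℝ) hmM ?_
    rw [hf', sub_sub_cancel_left, norm_neg]
  have hsum : lv (m • e + e') + lv (m • e - e') = ((2 * m : ℕ) : ℝ) • lv e := by
    rw [hf, hf']
    push_cast
    module
  obtain ⟨γ, γc, γp, γm⟩ := h.loop (m • e + e')
  obtain ⟨γ', γc', γp', γm'⟩ := h.loop (m • e - e')
  refine ⟨m, γ, γc, γp, fun s => ?_⟩
  have hdR : dR (lv (m • e + e')) (lv (m • e - e')) ≠ 0 := by
    have h3 : dR (lv (m • e + e')) (lv (m • e - e')) = - 2 * (m : ℝ) := by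
      have h4 : ((e.1 * e'.2 - e.2 * e'.1 : ℤ) : ℝ) = 1 := by
        have : e.1 * e'.2 - e.2 * e'.1 = 1 := hee
        rw [this]
        norm_num
      push_cast at h4
      rw [hf, hf']
      simp only [dR, lv, Prod.smul_mk, smul_eq_mul, Prod.mk_add_mk, Prod.mk_sub_mk]
      linear_combination (- 2 * (m : ℝ)) * h4
    rw [h3]
    have : - 2 * (m : ℝ) < 0 := by linarith
    exact this.ne
  obtain ⟨s1, t1, hst⟩ := cross hdR γc γc' γp γp'
  obtain ⟨k, hk1, hk2⟩ : ∃ k : ℤ, s ≤ s1 + k ∧ s1 + k ≤ s + 1 := by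
    refine ⟨⌈s - s1⌉, ?_, ?_⟩
    · have := Int.le_ceil (s - s1)
      linarith
    · have := Int.ceil_lt_add_one (s - s1)
      linarith
  have hw : γ (s1 + k) = γ' t1 + lv (k • (m • e + e')) := by
    rw [qper_int γp k s1, hst, lv_smul]
  have h5 : d (γ (s1 + k)) (γ (s1 + k) + lv (m • e - e')) = phi d (m • e - e') := by
    have h6 := γm' t1 t1 le_rfl (by linarith)
    rw [h.self, zero_add] at h6
    rw [hw, add_right_comm, h.per, h6]
  have h7 := γm s (s1 + k) hk1 hk2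
  have h8 : d (γ s) (γ s + ((2 * m : ℕ) : ℝ) • lv e) ≤ ((2 * m : ℕ) : ℝ) * phi d e + 2 * η := by
    have e1 : γ s + ((2 * m : ℕ) : ℝ) • lv e
        = (γ s + lv (m • e + e')) + lv (m • e - e') := by
      rw [← hsum, add_assoc]
    have e2 : d (γ (s1 + k) + lv (m • e - e')) (γ s + ((2 * m : ℕ) : ℝ) • lv e)
        = d (γ (s1 + k)) (γ s + lv (m • e + e')) := by
      rw [e1, h.per]
    have e3 := h.tri (γ s) (γ (s1 + k)) (γ s + ((2 * m : ℕ) : ℝ) • lv e)
    have e4 := h.tri (γ (s1 + k)) (γ (s1 + k) + lv (m • e - e'))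
      (γ s + ((2 * m : ℕ) : ℝ) • lv e)
    have e5 : dt c (lv (m • e + e')) + dt c (lv (m • e - e'))
        = ((2 * m : ℕ) : ℝ) * phi d e := by
      rw [← dt_add, hsum, dt_smul, hce]
    linarith
  have h9 := h.split he hη2 (n := 2 * m) (by omega) h8
  linarith

end Pool.Agent.DA
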