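import Pool.Agent.DA.WLog

/-!
# D2 part A, W2: the chord lemma (T1 of the text, by the index)
-/

set_option autoImplicit false

namespace Pool.Agent.DA

open Set Filter Topology

/-- Translation of a quasiperiodic curve by an integer. -/
theorem qper_int {γ : ℝ → R2} {v : R2} (hp : ∀ t, γ (t + 1) = γ t + v) (k : ℤ) (t : ℝ) :
    γ (t + k) = γ t + (k : ℝ) • v := by
  induction k using Int.induction_on with
  | zero => simp
  | succ i ih =>
    push_cast at ih ⊢
    rw [← add_assoc, hp, ih, add_smul, one_smul, add_assoc]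
  | pred i ih =>
    push_cast at ih ⊢
    have h := hp (t + (-(i : ℝ) - 1))
    rw [show t + (-(i : ℝ) - 1) + 1 = t + -(i : ℝ) by ring, ih] at h
    have h2 : γ (t + (-(i : ℝ) - 1)) = γ t + -(i : ℝ) • v - v := by
      rw [h, add_sub_cancel_right]
    rw [h2, sub_smul, one_smul, add_sub_assoc]

/-- A curve of class `n e` (with `e` primitive) meets its translate by `e`.

Proof. Suppose not.  For real `s, t` put `u t s = (2 π i / n) * zc (γ s - γ t - lv e)` and
`F t s = exp (u t s) - 1`, continuous in `(t,s)`.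
* `u t 1 = u t 0 + 2 π i` (because `zc (n • lv e) = n`), so `F t 1 = F t 0`.
* `F t s ≠ 0`: otherwise `u t s = 2 π i k` (`Complex.exp_eq_one_iff`), so
  `zc (γ s - γ t - lv e) = n k` and by `eq_of_zc_int` `γ s = γ t + lv e + (n k) • lv e`, that is
  `γ (s - k) = γ t + lv e` (`qper_int`), contradiction.
* So `F t` has an index `N t` (`exists_hasInd`); it is locally constant in `t`
  (`eventually_near`, `hasInd_near`, `hasInd_unique`), so constant: for instance the sets
  `{t | HasInd (F t) N}` are open and disjoint and cover `ℝ`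
  (`IsLocallyConstant`, `PreconnectedSpace ℝ`).
* `b t = zb e (γ t)` is continuous and `1`-periodic (`zb e (n • lv e) = 0`), so it has a
  maximum at some `t0` and a minimum at some `t1` (compactness of `[0,1]` and periodicity).
  The real part of `u t s` is `- (2 π / n) (b s - b t)` (as `zb e (lv e) = 0`).
* For `t = t0` it is `≥ 0`: `hasInd_above` gives the index `1`.  For `t = t1` it is `≤ 0`:
  `hasInd_below` gives the index `0`.  Contradiction. -/
theorem chord0 {e e' : Z2} (h : dZ e e' = 1) {n : ℕ} (hn : 1 ≤ n) {γ : ℝ → R2}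
    (hγ : Continuous γ) (hp : ∀ t, γ (t + 1) = γ t + (n : ℝ) • lv e) :
    ∃ s t, γ t = γ s + lv e := by
  by_contra hcon
  push Not at hcon
  have hn0 : (0 : ℝ) < n := by exact_mod_cast hn
  have hnC : (n : ℂ) ≠ 0 := by exact_mod_cast hn0.ne'
  have hpi : (Real.pi : ℂ) ≠ 0 := by exact_mod_cast Real.pi_ne_zero
  set u : ℝ → ℝ → ℂ := fun t s =>
    (2 * (Real.pi : ℂ) * Complex.I / n) * zc e e' (γ s - γ t - lv e) with hu
  have hucont : Continuous (fun p : ℝ × ℝ => u p.1 p.2) := by
    refine continuous_const.mul ((zc_cont e e').comp ?_)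
    exact ((hγ.comp continuous_snd).sub (hγ.comp continuous_fst)).sub continuous_const
  have hFcont : Continuous (fun p : ℝ × ℝ => Complex.exp (u p.1 p.2) - 1) :=
    (Complex.continuous_exp.comp hucont).sub continuous_const
  have hut : ∀ t, Continuous (u t) := fun t =>
    hucont.comp (continuous_const.prodMk continuous_id)
  -- the end point
  have h1 : ∀ t, u t 1 = u t 0 + ((1 : ℤ) : ℂ) * (2 * (Real.pi : ℂ) * Complex.I) := by
    intro t
    have e1 : γ 1 = γ 0 + (n : ℝ) • lv e := by
      have := hp 0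
      rwa [zero_add] at this
    have e2 : γ 1 - γ t - lv e = (γ 0 - γ t - lv e) + (n : ℝ) • lv e := by
      rw [e1]
      abel
    simp only [hu]
    rw [e2, zc_add, zc_smul, zc_e h]
    push_cast
    field_simp
  have hne : ∀ t s, Complex.exp (u t s) ≠ 1 := by
    intro t s hexp
    obtain ⟨k, hk⟩ := Complex.exp_eq_one_iff.1 hexp
    have e3 : zc e e' (γ s - γ t - lv e) = (((n : ℤ) * k : ℤ) : ℂ) := by
      simp only [hu] at hk
      have hI : Complex.I ≠ 0 := Complex.I_ne_zero
      push_cast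
      field_simp at hk
      linear_combination hk
    have e4 := eq_of_zc_int h e3
    have e5 : γ s = γ t + lv e + (((n : ℤ) * k : ℤ) : ℝ) • lv e := by
      rw [← e4]
      abel
    have e6 := qper_int hp (-k) s
    have e7 : γ (s + ((-k : ℤ) : ℝ)) = γ t + lv e := by
      rw [e6, e5, smul_smul, add_assoc, ← add_smul]
      push_cast
      rw [show ((n : ℝ) * k + -(k : ℝ) * n) = 0 by ring, zero_smul, add_zero]
    exact hcon t _ e7
  have hne' : ∀ t s, Complex.exp (u t s) - 1 ≠ 0 := fun t s => sub_ne_zero.2 (hne t s)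
  have hclosed : ∀ t, Complex.exp (u t 1) - 1 = Complex.exp (u t 0) - 1 := by
    intro t
    rw [h1 t, Complex.exp_add]
    push_cast
    rw [one_mul, Complex.exp_two_pi_mul_I, mul_one]
  have hFt : ∀ t, Continuous (fun s => Complex.exp (u t s) - 1) := fun t =>
    (Complex.continuous_exp.comp (hut t)).sub continuous_const
  have hopen : ∀ N : ℤ, IsOpen {t | HasInd (fun s => Complex.exp (u t s) - 1) N} := by
    intro N
    rw [isOpen_iff_mem_nhds]
    intro t ht
    have h2 := eventually_near (F := fun t s => Complex.exp (u t s) - 1) (u0 := t) hFcont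
      (fun s _ => hne' t s)
    filter_upwards [h2] with t' ht'
    exact hasInd_near ht (hFt t).continuousOn (hFt t').continuousOn (hclosed t') ht'
  have hclopen : IsClopen {t | HasInd (fun s => Complex.exp (u t s) - 1) 1} := by
    refine ⟨⟨?_⟩, hopen 1⟩
    have e8 : {t | HasInd (fun s => Complex.exp (u t s) - 1) 1}ᶜ =
        ⋃ N : {N : ℤ // N ≠ 1}, {t | HasInd (fun s => Complex.exp (u t s) - 1) N.1} := by
      ext t
      simp only [mem_compl_iff, mem_ofPred_eq, mem_iUnion]
      constructor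
      · intro h3
        obtain ⟨N, hN⟩ := exists_hasInd (hFt t).continuousOn (fun s _ => hne' t s) (hclosed t)
        exact ⟨⟨N, fun h4 => h3 (h4 ▸ hN)⟩, hN⟩
      · rintro ⟨⟨N, hN1⟩, hN⟩ h3
        exact hN1 (hasInd_unique hN h3)
    rw [e8]
    exact isOpen_iUnion fun N => hopen N.1
  -- the transversal coordinate
  have hzbsub : ∀ x y : R2, zb e (x - y) = zb e x - zb e y := by
    intro x y
    simp only [zb, dR, Prod.fst_sub, Prod.snd_sub]
    ring
  have hzbe : zb e (lv e) = 0 := by
    simp only [zb, dR]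
    ring
  have hbcont : Continuous (fun t => zb e (γ t)) := by
    simp only [zb, dR]
    exact (continuous_const.mul (continuous_snd.comp hγ)).sub
      (continuous_const.mul (continuous_fst.comp hγ))
  have hbper : ∀ (t : ℝ) (k : ℤ), zb e (γ (t + k)) = zb e (γ t) := by
    intro t k
    rw [qper_int hp k t]
    simp only [zb, dR, Prod.fst_add, Prod.snd_add, Prod.smul_fst, Prod.smul_snd, smul_eq_mul]
    ring
  have hbfract : ∀ t : ℝ, zb e (γ t) = zb e (γ (Int.fract t)) := by
    intro t
    have := hbper (Int.fract t) ⌊t⌋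
    rw [Int.fract_add_floor] at this
    exact this
  have hfr : ∀ t : ℝ, Int.fract t ∈ Icc (0 : ℝ) 1 := fun t =>
    ⟨Int.fract_nonneg t, (Int.fract_lt_one t).le⟩
  have hre : ∀ t s, (u t s).re = -(2 * Real.pi / n * (zb e (γ s) - zb e (γ t))) := by
    intro t s
    have e9 : zb e (γ s - γ t - lv e) = zb e (γ s) - zb e (γ t) := by
      rw [hzbsub, hzbsub, hzbe, sub_zero]
    have e10 : u t s = ((2 * Real.pi / n : ℝ) : ℂ) *
        (Complex.I * zc e e' (γ s - γ t - lv e)) := by
      simp only [hu]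
      push_cast
      ring
    rw [e10, Complex.re_ofReal_mul, zc, e9]
    simp
    ring
  obtain ⟨t0, _, ht0⟩ := isCompact_Icc.exists_isMaxOn (s := Icc (0 : ℝ) 1)
    ⟨0, by simp⟩ hbcont.continuousOn
  obtain ⟨t1, _, ht1⟩ := isCompact_Icc.exists_isMinOn (s := Icc (0 : ℝ) 1)
    ⟨0, by simp⟩ hbcont.continuousOn
  have hpn : 0 ≤ 2 * Real.pi / n := by positivity
  have hi1 : HasInd (fun s => Complex.exp (u t0 s) - 1) 1 := by
    refine hasInd_above (hut t0).continuousOn (h1 t0) ?_ fun s _ => hne t0 s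
    intro s _
    rw [hre]
    have h5 : zb e (γ s) ≤ zb e (γ t0) := by
      rw [hbfract s]
      exact ht0 (hfr s)
    nlinarith
  have hi0 : HasInd (fun s => Complex.exp (u t1 s) - 1) 0 := by
    refine hasInd_below (hut t1).continuousOn (h1 t1) ?_ fun s _ => hne t1 s
    intro s _
    rw [hre]
    have h5 : zb e (γ t1) ≤ zb e (γ s) := by
      rw [hbfract s]
      exact ht1 (hfr s)
    nlinarith
  have huniv := hclopen.eq_univ ⟨t0, hi1⟩
  have h6 : HasInd (fun s => Complex.exp (u t1 s) - 1) 1 := by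
    have : t1 ∈ {t | HasInd (fun s => Complex.exp (u t s) - 1) 1} := by
      rw [huniv]
      trivial
    exact this
  exact absurd (hasInd_unique h6 hi0) (by norm_num)

/-- The chord lemma: a curve of class `n e` has a subarc in `[0,1]` of class `p e`
with `p = 1` or `p = -1` modulo `n`.

Proof. `chord0` gives `γ t' = γ s' + lv e`.  With `s = Int.fract s'`, `t = Int.fract t'` and
`i = ⌊s'⌋`, `j = ⌊t'⌋`: `γ t + (j n) • lv e = γ s + (i n) • lv e + lv e`, so
`γ t = γ s + q • lv e`, `q = 1 + (i - j) n`.  If `s ≤ t` take `p = q`; if `t < s` exchange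
`s` and `t` and take `p = -q`. -/
theorem chord {e : Z2} (he : Prim e) {n : ℕ} (hn : 1 ≤ n) {γ : ℝ → R2}
    (hγ : Continuous γ) (hp : ∀ t, γ (t + 1) = γ t + (n : ℝ) • lv e) :
    ∃ s t : ℝ, ∃ p : ℤ, 0 ≤ s ∧ s ≤ t ∧ t ≤ 1 ∧ γ t = γ s + (p : ℝ) • lv e ∧
      ((n : ℤ) ∣ p - 1 ∨ (n : ℤ) ∣ p + 1) := by
  obtain ⟨e', h⟩ := exists_dual he
  obtain ⟨s', t', hst⟩ := chord0 h hn hγ hp
  set i : ℤ := ⌊s'⌋ with hi
  set j : ℤ := ⌊t'⌋ with hj
  set q : ℤ := 1 + (i - j) * n with hq
  have hs : γ s' = γ (Int.fract s') + (i : ℝ) • ((n : ℝ) • lv e) := by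
    have := qper_int hp i (Int.fract s')
    rwa [Int.fract_add_floor] at this
  have ht : γ t' = γ (Int.fract t') + (j : ℝ) • ((n : ℝ) • lv e) := by
    have := qper_int hp j (Int.fract t')
    rwa [Int.fract_add_floor] at this
  have hkey : γ (Int.fract t') = γ (Int.fract s') + (q : ℝ) • lv e := by
    rw [ht, hs] at hst
    have e1 : γ (Int.fract t') = γ (Int.fract s') + (i : ℝ) • ((n : ℝ) • lv e) + lv e -
        (j : ℝ) • ((n : ℝ) • lv e) := by
      rw [← hst, add_sub_cancel_right]
    rw [e1, hq]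
    push_cast
    rw [add_smul, one_smul, sub_mul, sub_smul, mul_smul, mul_smul]
    abel
  rcases le_total (Int.fract s') (Int.fract t') with hle | hle
  · refine ⟨Int.fract s', Int.fract t', q, Int.fract_nonneg _, hle, (Int.fract_lt_one _).le,
      hkey, Or.inl ⟨i - j, ?_⟩⟩
    rw [hq]
    ring
  · refine ⟨Int.fract t', Int.fract s', -q, Int.fract_nonneg _, hle, (Int.fract_lt_one _).le,
      ?_, Or.inr ⟨-(i - j), ?_⟩⟩
    · rw [hkey]
      push_cast
      rw [neg_smul, add_neg_cancel_right]
    · rw [hq]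
      ring

end Pool.Agent.DA
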