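import Pool.Agent.DA.TLoop
import Pool.Agent.DA.WChord

/-!
# D2 part A, T2a: splitting of minimal loops of class `n e`
-/

set_option autoImplicit false

namespace Pool.Agent.DA

open Set Filter Topology

variable {d : R2 → R2 → ℝ}

/-- Nonzero lattice vectors are multiples of primitive ones. -/
theorem exists_prim {m : Z2} (hm : m ≠ 0) :
    ∃ (e : Z2) (k : ℕ), Prim e ∧ 1 ≤ k ∧ m = k • e := by
  have hg : 0 < Int.gcd m.1 m.2 := by
    rw [Int.gcd_pos_iff]
    by_contra h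
    simp only [not_or, not_not] at h
    exact hm (Prod.ext h.1 h.2)
  refine ⟨(m.1 / (Int.gcd m.1 m.2 : ℤ), m.2 / (Int.gcd m.1 m.2 : ℤ)), Int.gcd m.1 m.2, ?_, hg, ?_⟩
  · unfold Prim
    rw [Int.isCoprime_iff_gcd_eq_one]
    exact Int.gcd_ediv_gcd_ediv_gcd hg
  · refine Prod.ext ?_ ?_
    · simp only [Prod.smul_mk, nsmul_eq_mul]
      exact (Int.mul_ediv_cancel' (Int.gcd_dvd_left _ _)).symm
    · simp only [Prod.smul_mk, nsmul_eq_mul]
      exact (Int.mul_ediv_cancel' (Int.gcd_dvd_right _ _)).symm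

/-- Splitting of the minimal loops of class `n e`.

Proof. `Met.phi_att` gives `x` with `d x (x + n e) = phi d (n • e)`; `Met.ext` the curve `γ` with
`γ (t + 1) = γ t + n • lv e`; `chord` gives `0 ≤ s ≤ t ≤ 1` with `γ t = γ s + p • lv e`.  The
subarc costs `d (γ s) (γ t) ≥ phi d (p • e)`.  The rest costs
`d x (γ s) + d (γ t) (x + n e) = d (γ t) (x + n e) + d (x + n e) (γ s + n e)`
`≥ d (γ t) (γ s + n e) ≥ phi d ((n - p) • e)` (as `γ s + n e = γ t + (n - p) e`). -/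
theorem Met.split0 (h : Met d) {e : Z2} (he : Prim e) {n : ℕ} (hn : 1 ≤ n) :
    ∃ p : ℤ, ((n : ℤ) ∣ p - 1 ∨ (n : ℤ) ∣ p + 1) ∧
      phi d (p • e) + phi d (((n : ℤ) - p) • e) ≤ phi d (n • e) := by
  obtain ⟨x, hx⟩ := h.phi_att (n • e)
  obtain ⟨γ, hγc, h0, h1, hper, hmin⟩ := h.ext x (n • e)
  obtain ⟨s, t, p, hs, hst, ht, hγt, hdiv⟩ := chord he hn hγc (fun t => by
    rw [hper t, lv_nsmul])
  refine ⟨p, hdiv, ?_⟩
  have hm := hmin s t hs hst ht
  rw [hx] at hm
  have hA : phi d (p • e) ≤ d (γ s) (γ t) := by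
    have h2 := h.phi_le (γ s) (p • e)
    rw [lv_smul, ← hγt] at h2
    exact h2
  have hB : phi d (((n : ℤ) - p) • e) ≤ d (γ t) (γ s + lv (n • e)) := by
    have h2 := h.phi_le (γ t) (((n : ℤ) - p) • e)
    have h3 : γ t + lv (((n : ℤ) - p) • e) = γ s + lv (n • e) := by
      rw [lv_smul, lv_nsmul, hγt]
      push_cast
      rw [sub_smul]
      abel
    rw [h3] at h2
    exact h2
  have hC := h.tri (γ t) (x + lv (n • e)) (γ s + lv (n • e))
  have hD := h.per x (γ s) (n • e)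
  linarith

end Pool.Agent.DA
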