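import Pool.Agent.DA.THom

/-!
# D2 part A, T3a: the stable norm is subadditive, supporting classes
-/

set_option autoImplicit false

namespace Pool.Agent.DA

open Set Filter Topology

variable {d : R2 → R2 → ℝ}

/-- Subadditivity of the stable norm.

Proof. Let `x, y` be minimal base points of the classes `m` and `n` (`Met.phi_att`).  For `N ≥ 1`
`N phi d (m + n) = phi d (N • (m + n)) ≤ d x (x + N m + N n)` (`Met.hom`, `Met.phi_le`)
`≤ d x (x + N m) + d (x + N m) (y + N m) + d (y + N m) (y + N m + N n)`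
`+ d (y + N m + N n) (x + N m + N n) ≤ N phi d m + d x y + N phi d n + d y x` (`Met.rep`).
Divide by `N`, `N → ∞`. -/
theorem Met.add_le (h : Met d) (m n : Z2) : phi d (m + n) ≤ phi d m + phi d n := by
  obtain ⟨x, hx⟩ := h.phi_att m
  obtain ⟨y, hy⟩ := h.phi_att n
  have key : ∀ N : ℕ, (N : ℝ) * phi d (m + n) ≤
      N * phi d m + N * phi d n + (d x y + d y x) := by
    intro N
    have h1 := h.phi_le x (N • (m + n))
    rw [h.hom] at h1
    have e1 : x + lv (N • (m + n)) = x + lv (N • m + N • n) := by rw [nsmul_add]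
    rw [e1] at h1
    have h2 : d x (x + lv (N • m)) ≤ N * phi d m := by
      rw [lv_nsmul, ← hx]
      exact h.rep x m N
    have h3 : d y (y + lv (N • n)) ≤ N * phi d n := by
      rw [lv_nsmul, ← hy]
      exact h.rep y n N
    have h4 : d (x + lv (N • m)) (y + lv (N • m)) = d x y := h.per x y _
    have h5 : d (y + lv (N • m)) (y + lv (N • m + N • n)) = d y (y + lv (N • n)) := by
      have e2 : y + lv (N • m + N • n) = (y + lv (N • n)) + lv (N • m) := by
        rw [lv_add]
        abel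
      rw [e2, h.per]
    have h6 : d (y + lv (N • m + N • n)) (x + lv (N • m + N • n)) = d y x := h.per y x _
    have t1 := h.tri x (x + lv (N • m)) (x + lv (N • m + N • n))
    have t2 := h.tri (x + lv (N • m)) (y + lv (N • m)) (x + lv (N • m + N • n))
    have t3 := h.tri (y + lv (N • m)) (y + lv (N • m + N • n)) (x + lv (N • m + N • n))
    linarith
  by_contra hcon
  rw [not_le] at hcon
  have hpos : 0 < phi d (m + n) - (phi d m + phi d n) := by linarith
  obtain ⟨N, hN⟩ := exists_nat_gt ((d x y + d y x) / (phi d (m + n) - (phi d m + phi d n)))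
  rw [div_lt_iff₀ hpos] at hN
  have h1 := key N
  nlinarith

private theorem tsub_line (h : Met d) (e : Z2) (i : ℤ) :
    (i : ℝ) * phi d e ≤ phi d (i • e) := by
  obtain ⟨k, rfl | rfl⟩ := i.eq_nat_or_neg
  · rw [natCast_zsmul, h.hom]
    push_cast
    exact le_rfl
  · rw [neg_smul, natCast_zsmul, ← smul_neg, h.hom]
    push_cast
    have h1 : 0 ≤ phi d e + phi d (-e) := by
      by_cases he : e = 0
      · subst he
        rw [neg_zero, h.phi_zero]
        norm_num
      · exact (h.phi_opp he).le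
    have h2 : (0 : ℝ) ≤ k := Nat.cast_nonneg k
    nlinarith

private theorem tsub_basis {e e' : Z2} (h : dZ e e' = 1) (u : Z2) :
    u = dZ u e' • e + dZ e u • e' := by
  unfold dZ at *
  apply Prod.ext
  · simp only [Prod.fst_add, Prod.smul_fst, smul_eq_mul]
    linear_combination (-u.1) * h
  · simp only [Prod.snd_add, Prod.smul_snd, smul_eq_mul]
    linear_combination (-u.2) * h

private theorem tsub_prim (h : Met d) {e : Z2} (he : Prim e) :
    ∃ c ∈ KS d, dt c (lv e) = phi d e := by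
  obtain ⟨e', he'⟩ := exists_dual he
  set s := phi d e with hs
  have hbd : ∀ x ∈ {x : ℝ | ∃ (i : ℤ) (k : ℕ), 0 < k ∧
        x = ((i : ℝ) * s - phi d (i • e - (k : ℤ) • e')) / k},
      ∀ y ∈ {y : ℝ | ∃ (i : ℤ) (j : ℕ), 0 < j ∧
        y = (phi d (i • e + (j : ℤ) • e') - (i : ℝ) * s) / j}, x ≤ y := by
    rintro x ⟨i, k, hk, rfl⟩ y ⟨i', j, hj, rfl⟩
    have hk' : (0 : ℝ) < k := Nat.cast_pos.2 hk
    have hj' : (0 : ℝ) < j := Nat.cast_pos.2 hj
    rw [div_le_div_iff₀ hk' hj']
    have h1 := tsub_line h e ((j : ℤ) * i + (k : ℤ) * i')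
    have e1 : ((j : ℤ) * i + (k : ℤ) * i') • e =
        j • (i • e - (k : ℤ) • e') + k • (i' • e + (j : ℤ) • e') := by
      rw [← natCast_zsmul (i • e - (k : ℤ) • e') j, ← natCast_zsmul (i' • e + (j : ℤ) • e') k,
        smul_sub, smul_add, smul_smul, smul_smul, smul_smul, smul_smul, add_smul,
        mul_comm (k : ℤ) (j : ℤ)]
      abel
    rw [e1] at h1
    have h2 := h.add_le (j • (i • e - (k : ℤ) • e')) (k • (i' • e + (j : ℤ) • e'))
    rw [h.hom, h.hom] at h2
    push_cast at h1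
    rw [← hs] at h1
    nlinarith
  obtain ⟨r, hr1, hr2⟩ := exists_between_of_forall_le
    (s := {x : ℝ | ∃ (i : ℤ) (k : ℕ), 0 < k ∧
        x = ((i : ℝ) * s - phi d (i • e - (k : ℤ) • e')) / k})
    (t := {y : ℝ | ∃ (i : ℤ) (j : ℕ), 0 < j ∧
        y = (phi d (i • e + (j : ℤ) • e') - (i : ℝ) * s) / j})
    ⟨_, 0, 1, one_pos, rfl⟩ ⟨_, 0, 1, one_pos, rfl⟩ hbd
  have hall : ∀ i j : ℤ, (i : ℝ) * s + (j : ℝ) * r ≤ phi d (i • e + j • e') := by
    intro i j
    rcases lt_trichotomy j 0 with hj | rfl | hj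
    · obtain ⟨k, rfl⟩ : ∃ k : ℕ, j = -(k : ℤ) := ⟨j.natAbs, by omega⟩
      have hk : 0 < k := by omega
      have hk' : (0 : ℝ) < k := Nat.cast_pos.2 hk
      have h1 : ((i : ℝ) * s - phi d (i • e - (k : ℤ) • e')) / k ≤ r := hr1 ⟨i, k, hk, rfl⟩
      rw [div_le_iff₀ hk'] at h1
      rw [neg_smul, ← sub_eq_add_neg]
      push_cast
      linarith
    · rw [zero_smul, add_zero]
      push_cast
      have h1 := tsub_line h e i
      linarith
    · obtain ⟨k, rfl⟩ : ∃ k : ℕ, j = (k : ℤ) := ⟨j.natAbs, by omega⟩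
      have hk : 0 < k := by omega
      have hk' : (0 : ℝ) < k := Nat.cast_pos.2 hk
      have h1 : r ≤ (phi d (i • e + (k : ℤ) • e') - (i : ℝ) * s) / k := hr2 ⟨i, k, hk, rfl⟩
      rw [le_div_iff₀ hk'] at h1
      push_cast
      linarith
  have hdet : (e.1 : ℝ) * e'.2 - e.2 * e'.1 = 1 := by
    have h1 : ((dZ e e' : ℤ) : ℝ) = 1 := by rw [he']; norm_num
    unfold dZ at h1
    push_cast at h1
    exact h1
  set c : R2 := (s * e'.2 - r * e.2, -s * e'.1 + r * e.1) with hc
  have hc1 : dt c (lv e) = s := by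
    simp only [dt, lv, hc]
    linear_combination s * hdet
  have hc2 : dt c (lv e') = r := by
    simp only [dt, lv, hc]
    linear_combination r * hdet
  refine ⟨c, fun u => ?_, hc1⟩
  rw [tsub_basis he' u, lv_add, lv_smul, lv_smul, dt_add, dt_smul, dt_smul, hc1, hc2]
  exact hall _ _

/-- Supporting classes.

Proof. `m = 0`: `c0` of `Met.phi_pos`.  For `m ≠ 0` we have `m = k • e`, `e` primitive
(`exists_prim`), and by `Met.hom` we may take `m = e`.  `exists_dual` gives `e'`, so every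
`u : Z2` is `i • e + j • e'` with integers `i, j`.  Put `s = phi d e`.  Look for `r` with
`i s + j r ≤ phi d (i • e + j • e')` for all integers `i, j`.
* `j = 0`: `i ≥ 0` is `Met.hom`; for `i = - I < 0`: `- I s ≤ I phi d (- e)` by `Met.phi_opp`.
* For `j > 0` the condition is `r ≤ (phi d (i e + j e') - i s) / j`, for `j = - k < 0` it is
  `(i s - phi d (i e - k e')) / k ≤ r`.  Such an `r` exists (`exists_between_of_forall_le`)
  because for all `i, i'` and `j, k > 0`
  `(j i + k i') s ≤ phi d ((j i + k i') • e) ≤ phi d (j • (i e - k e')) + phi d (k • (i' e + j e'))`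
  `= j phi d (i e - k e') + k phi d (i' e + j e')` (the case `j = 0` above, `Met.add_le`,
  `Met.hom`).
Then `c` with `dt c (lv e) = s`, `dt c (lv e') = r` (solve the linear system,
`dZ e e' = 1`) is in `KS d`. -/
theorem Met.exists_c (h : Met d) (m : Z2) : ∃ c ∈ KS d, dt c (lv m) = phi d m := by
  by_cases hm : m = 0
  · subst hm
    obtain ⟨c0, κ, hκ, h1⟩ := h.phi_pos
    refine ⟨c0, fun u => ?_, ?_⟩
    · have h2 := h1 u
      have h3 : 0 ≤ κ * ‖lv u‖ := mul_nonneg hκ.le (norm_nonneg _)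
      linarith
    · rw [h.phi_zero]
      simp [dt, lv]
  · obtain ⟨e, k, he, hk, rfl⟩ := exists_prim hm
    obtain ⟨c, hc, h1⟩ := tsub_prim h he
    refine ⟨c, hc, ?_⟩
    rw [lv_nsmul, dt_smul, h1, h.hom]

end Pool.Agent.DA
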