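import Pool.Agent.DA.Defs
import Pool.Agent.DB.Defs

/-!
# D2 part A: from the output `CI` to the interface `DB.C0`
-/

set_option autoImplicit false

namespace Pool.Agent.DA

open Set Filter Topology

/-- The interface of the local part from the output of part A. -/
theorem toC0 (P : VI) {L : DB.PP → ℝ} {Fl : ℝ → DB.PP → DB.PP} (hD : DB.Dyn L Fl)
    (hX : ∀ t x v, P.X t x v = (Fl t (x, v)).1) (hW : ∀ t x v, P.W t x v = (Fl t (x, v)).2)
    (hA : ∀ t x v, P.A t x v = DB.Ac L Fl t (x, v)) (he : ∀ x v, P.e x v = DB.en L (x, v))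
    {V : ℝ → Z2 → R2 → R2} {T m : ℝ → Z2 → ℝ} (h : CI P V T m) :
    DB.C0 L Fl P.E0 V T m where
  toDyn := hD
  rest x := by rw [← he]; exact P.e0 x
  enV E hE k hk x := by rw [← he]; exact h.c1e E k x hE hk
  perV E hE k hk x j := h.c1p E k x j hE hk
  contV k hk := (h.c1c k hk).mono fun p hp => hp.1
  orb E hE k hk x := by rw [← hX]; exact h.c2X E k x hE hk
  inv E hE k hk x t := by rw [← hX, ← hW]; exact h.c2W E k x t hE hk
  Tpos E hE k hk := h.c2T E k hE hk
  contT k hk := h.c2c k hk
  act E hE k hk x := by rw [← hA]; exact h.c3 E k x hE hk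
  mini E hE k hk n N z τ hn hN hτ hz hc := by
    have hE' : P.E0 < E := hE
    have key : ∀ M, M ≤ N → P.D E (z 0).1 (z M).1 ≤
        ∑ i ∈ Finset.range M, (DB.Ac L Fl (τ i) (z i) + E * τ i) := by
      intro M
      induction M with
      | zero => intro _; simp [P.Dself E hE']
      | succ M ih =>
        intro hM
        rw [Finset.sum_range_succ]
        have h1 := ih (by omega)
        have h2 := P.Dtri E hE' (z 0).1 (z M).1 (z (M + 1)).1
        have h3 := P.Dact E hE' (τ M) (z M).1 (z M).2 (hτ M (by omega)).le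
        rw [hX, hA, Prod.mk.eta, hz M (by omega)] at h3
        linarith
    have h1 := key N le_rfl
    have h2 := h.c4 E k (z 0).1 n hE hk
    rw [hc] at h1
    exact h2.trans h1
  once E hE k k' hk hk' hne x t t' ht ht' := by
    rw [← hX, ← hX]; exact h.c5 E k k' x t t' hE hk hk' hne ht ht'
  dens E hE x v hv d hd := by
    rw [← he] at hv; exact h.c6 E x v d hE hv hd
  conv E1 hE1 k k' hkk d hd := by
    obtain ⟨κ, hκ, H⟩ := h.c7 E1 k k' d hE1 hkk hd
    refine ⟨κ, hκ, fun E hE a b ha hb hab hlt x => ?_⟩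
    have := H x E a b hE ha hb hab hlt
    rwa [← natCast_zsmul, ← natCast_zsmul] at this

/-- Condition (C8) in the notation of the local part. -/
theorem toC8 (P : VI) {L : DB.PP → ℝ} (he : ∀ x v, P.e x v = DB.en L (x, v))
    {V : ℝ → Z2 → R2 → R2} {T m : ℝ → Z2 → ℝ} (h : CI P V T m) :
    interior {z : DB.PP | DB.en L z ≤ P.E0} = ∅ := by
  have := h.c8
  simpa only [he] using this

end Pool.Agent.DA
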