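import Pool.Agent.DA.Defs

/-!
# D2 part A, W1: the index of closed curves
-/

set_option autoImplicit false

namespace Pool.Agent.DA

open Set Filter Topology

/-- The index is unique.

Proof. For two logarithms `g, g'` the function `(g - g') / (2 π i)` is continuous on `[0,1]` with
integer values (`Complex.exp_eq_exp_iff_exists_int`), so it is constant on the preconnected set
`[0,1]` (its real part is a continuous function on `[0,1]` with values in the range of
`Int.cast`; for instance `IsPreconnected.constant_of_mapsTo`, or: if the values at `0` and `1`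
are different the intermediate value theorem gives a value that is not an integer).  Compare
the values at `0` and at `1`. -/
theorem hasInd_unique {w : ℝ → ℂ} {N N' : ℤ} (h : HasInd w N) (h' : HasInd w N') :
    N = N' := by
  obtain ⟨g, hgc, hg, hg1⟩ := h
  obtain ⟨g', hgc', hg', hg1'⟩ := h'
  obtain ⟨r, hr⟩ : ∃ r : ℝ → ℝ,
      r = fun t => ((g t - g' t) / (2 * (Real.pi : ℂ) * Complex.I)).re := ⟨_, rfl⟩
  have hrc : ContinuousOn r (Icc 0 1) := by
    rw [hr]
    exact Complex.continuous_re.comp_continuousOn ((hgc.sub hgc').div_const _)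
  have hpi : (2 * (Real.pi : ℂ) * Complex.I : ℂ) ≠ 0 := Complex.two_pi_I_ne_zero
  have hint : ∀ t ∈ Icc (0 : ℝ) 1, ∃ n : ℤ,
      g t - g' t = n * (2 * (Real.pi : ℂ) * Complex.I) ∧ r t = n := by
    intro t ht
    obtain ⟨n, hn⟩ := Complex.exp_eq_exp_iff_exists_int.1 ((hg t ht).trans (hg' t ht).symm)
    have h1 : g t - g' t = n * (2 * (Real.pi : ℂ) * Complex.I) := by
      rw [hn]
      ring
    refine ⟨n, h1, ?_⟩
    rw [hr]
    simp only
    rw [h1, mul_div_cancel_right₀ _ hpi]
    simp
  have m0 : (0 : ℝ) ∈ Icc (0 : ℝ) 1 := ⟨le_rfl, zero_le_one⟩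
  have m1 : (1 : ℝ) ∈ Icc (0 : ℝ) 1 := ⟨zero_le_one, le_rfl⟩
  obtain ⟨n0, a0, b0⟩ := hint 0 m0
  obtain ⟨n1, a1, b1⟩ := hint 1 m1
  have key : n0 = n1 := by
    by_contra hne
    have hhalf : ∀ k : ℤ, ((k : ℝ) + 1 / 2) ∉ r '' Icc 0 1 := by
      rintro k ⟨t, ht, htk⟩
      obtain ⟨n, -, hn⟩ := hint t ht
      rw [hn] at htk
      have h2 : (2 * n : ℝ) = 2 * k + 1 := by linarith
      have h3 : 2 * n = 2 * k + 1 := by exact_mod_cast h2
      omega
    rcases lt_or_gt_of_ne hne with hlt | hlt
    · refine hhalf n0 (intermediate_value_Icc zero_le_one hrc ?_)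
      rw [b0, b1]
      have h2 : (n0 : ℝ) + 1 ≤ n1 := by exact_mod_cast hlt
      constructor <;> linarith
    · refine hhalf n1 (intermediate_value_Icc' zero_le_one hrc ?_)
      rw [b0, b1]
      have h2 : (n1 : ℝ) + 1 ≤ n0 := by exact_mod_cast hlt
      constructor <;> linarith
  rw [← key, hg1, hg1'] at a1
  have h3 : ((N : ℂ) - N') * (2 * (Real.pi : ℂ) * Complex.I) = 0 := by
    linear_combination a1 - a0
  rcases mul_eq_zero.1 h3 with h4 | h4
  · have h5 : (N : ℂ) = N' := by linear_combination h4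
    exact_mod_cast h5
  · exact absurd h4 hpi

/-- A closed curve without zeros has an index.

Proof. Replace `w` by `t ↦ w (max 0 (min 1 t))` (continuous on `ℝ`, no zeros);
`Complex.exists_continuousOn_eqOn_exp_comp` with `U = univ` (`ℝ` is simply connected: it is
contractible) gives a continuous `g` with `exp (g t) = w t` on `[0,1]`; `exp (g 1 - g 0) = 1`,
`Complex.exp_eq_one_iff`. -/
theorem exists_hasInd {w : ℝ → ℂ} (hc : ContinuousOn w (Icc 0 1))
    (h0 : ∀ t ∈ Icc (0 : ℝ) 1, w t ≠ 0) (h1 : w 1 = w 0) : ∃ N, HasInd w N := by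
  have hmem : ∀ t : ℝ, max 0 (min 1 t) ∈ Icc (0 : ℝ) 1 := fun t =>
    ⟨le_max_left _ _, max_le zero_le_one (min_le_left _ _)⟩
  have hcc : Continuous fun t : ℝ => w (max 0 (min 1 t)) :=
    hc.comp_continuous (by fun_prop) hmem
  have hsc : IsSimplyConnected (univ : Set ℝ) := by
    have := (convex_univ (𝕜 := ℝ) (E := ℝ)).contractibleSpace univ_nonempty
    unfold IsSimplyConnected
    infer_instance
  obtain ⟨g, hgc, hg⟩ := Complex.exists_continuousOn_eqOn_exp_comp hsc isOpen_univ
    hcc.continuousOn (by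
      rintro ⟨t, -, ht⟩
      exact h0 _ (hmem t) ht)
  have hval : ∀ t ∈ Icc (0 : ℝ) 1, Complex.exp (g t) = w t := by
    intro t ht
    have h2 := hg (mem_univ t)
    have h3 : max 0 (min 1 t) = t := by
      rw [min_eq_right ht.2, max_eq_right ht.1]
    simp only [Function.comp_apply] at h2
    rw [h2, h3]
  have h4 : Complex.exp (g 1) = Complex.exp (g 0) := by
    rw [hval 1 ⟨zero_le_one, le_rfl⟩, hval 0 ⟨le_rfl, zero_le_one⟩, h1]
  obtain ⟨n, hn⟩ := Complex.exp_eq_exp_iff_exists_int.1 h4
  exact ⟨n, g, hgc.mono (subset_univ _), hval, hn⟩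

/-- Curves at small relative distance have the same index.

Proof. `g' t = g t + log (w' t / w t)`: `w t ≠ 0` (it is an exponential), the quotient is at
distance `< 1` from `1`, so in `Complex.slitPlane` (`Complex.mem_slitPlane_of_norm_lt_one`),
`log` is continuous there.  `w 1 = w 0` follows from `g 1 = g 0 + 2 π i N`, so the second term
has the same value at `0` and `1`. -/
theorem hasInd_near {w w' : ℝ → ℂ} {N : ℤ} (h : HasInd w N) (hc : ContinuousOn w (Icc 0 1))
    (hc' : ContinuousOn w' (Icc 0 1))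
    (h1 : w' 1 = w' 0) (hn : ∀ t ∈ Icc (0 : ℝ) 1, ‖w' t - w t‖ < ‖w t‖) : HasInd w' N := by
  obtain ⟨g, hgc, hg, hg1⟩ := h
  have hw0 : ∀ t ∈ Icc (0 : ℝ) 1, w t ≠ 0 := by
    intro t ht h2
    have h3 := hn t ht
    rw [h2, norm_zero] at h3
    exact absurd h3 (not_lt.2 (norm_nonneg _))
  have hsl : ∀ t ∈ Icc (0 : ℝ) 1, w' t / w t ∈ Complex.slitPlane := by
    intro t ht
    have h2 : w' t / w t = 1 + (w' t - w t) / w t := by
      field_simp [hw0 t ht]
      ring
    rw [h2]
    apply Complex.mem_slitPlane_of_norm_lt_one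
    rw [norm_div, div_lt_one (norm_pos_iff.2 (hw0 t ht))]
    exact hn t ht
  have hw01 : w 1 = w 0 := by
    rw [← hg 1 ⟨zero_le_one, le_rfl⟩, ← hg 0 ⟨le_rfl, zero_le_one⟩, hg1]
    exact Complex.exp_eq_exp_iff_exists_int.2 ⟨N, rfl⟩
  refine ⟨fun t => g t + Complex.log (w' t / w t), ?_, ?_, ?_⟩
  · exact hgc.add ((hc'.div hc hw0).clog hsl)
  · intro t ht
    have h2 : w' t / w t ≠ 0 := Complex.slitPlane_ne_zero (hsl t ht)
    rw [Complex.exp_add, hg t ht, Complex.exp_log h2]
    field_simp [hw0 t ht]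
  · simp only [h1, hw01, hg1]
    ring

private theorem wlog_slit {z : ℂ} (hz : ‖z‖ ≤ 1) (hne : z ≠ 1) :
    1 - z ∈ Complex.slitPlane := by
  rw [Complex.mem_slitPlane_iff]
  left
  rw [Complex.sub_re, Complex.one_re]
  by_contra h
  have h1 : 1 ≤ z.re := by linarith
  have h2 : z.re ≤ 1 := (Complex.re_le_norm z).trans hz
  have h3 : z.re = 1 := le_antisymm h2 h1
  have h4 : z.re ^ 2 + z.im ^ 2 ≤ 1 := by
    have h5 := Complex.sq_norm z
    rw [Complex.normSq_apply] at h5
    have h6 : ‖z‖ ^ 2 ≤ 1 := by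
      have := pow_le_pow_left₀ (norm_nonneg z) hz 2
      linarith
    nlinarith
  rw [h3] at h4
  have h5 : z.im = 0 := by
    have : z.im ^ 2 ≤ 0 := by linarith
    exact pow_eq_zero_iff (two_ne_zero) |>.1 (le_antisymm this (sq_nonneg _))
  exact hne (Complex.ext h3 h5)

/-- The index of `exp u - 1` when `exp u` stays outside of the open unit disc.

Proof. Put `g t = u t + log (1 - exp (- u t))`.  As `‖exp (- u t)‖ ≤ 1` and
`exp (- u t) ≠ 1`, the real part of `1 - exp (- u t)` is positive (a complex number of norm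
`≤ 1` with real part `1` is `1`), so it is in `Complex.slitPlane`, where `log` is continuous.
The second term has the same value at `0` and at `1`, because `exp` has the period `2 π i`. -/
theorem hasInd_above {u : ℝ → ℂ} {N : ℤ} (hc : ContinuousOn u (Icc 0 1))
    (h1 : u 1 = u 0 + (N : ℂ) * (2 * (Real.pi : ℂ) * Complex.I))
    (hre : ∀ t ∈ Icc (0 : ℝ) 1, 0 ≤ (u t).re)
    (hne : ∀ t ∈ Icc (0 : ℝ) 1, Complex.exp (u t) ≠ 1) :
    HasInd (fun t => Complex.exp (u t) - 1) N := by
  have hsl : ∀ t ∈ Icc (0 : ℝ) 1, 1 - Complex.exp (-(u t)) ∈ Complex.slitPlane := by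
    intro t ht
    apply wlog_slit
    · rw [Complex.norm_exp, Complex.neg_re]
      exact Real.exp_le_one_iff.2 (by linarith [hre t ht])
    · intro h2
      apply hne t ht
      rw [Complex.exp_neg] at h2
      exact inv_eq_one.1 h2
  have hper : Complex.exp (-(u 1)) = Complex.exp (-(u 0)) := by
    rw [Complex.exp_neg, Complex.exp_neg, h1]
    congr 1
    exact Complex.exp_eq_exp_iff_exists_int.2 ⟨N, rfl⟩
  refine ⟨fun t => u t + Complex.log (1 - Complex.exp (-(u t))), ?_, ?_, ?_⟩
  · refine hc.add (ContinuousOn.clog ?_ hsl)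
    exact continuousOn_const.sub hc.neg.cexp
  · intro t ht
    have h2 : 1 - Complex.exp (-(u t)) ≠ 0 := Complex.slitPlane_ne_zero (hsl t ht)
    rw [Complex.exp_add, Complex.exp_log h2, mul_sub, ← Complex.exp_add, add_neg_cancel,
      Complex.exp_zero, mul_one]
  · simp only [hper]
    rw [h1]
    ring

/-- The index of `exp u - 1` when `exp u` stays in the closed unit disc.

Proof. Put `g t = log (1 - exp (u t)) + π i`: the real part of `1 - exp (u t)` is
positive, as in `hasInd_above`; the values at `0` and at `1` are equal. -/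
theorem hasInd_below {u : ℝ → ℂ} {k : ℤ} (hc : ContinuousOn u (Icc 0 1))
    (h1 : u 1 = u 0 + (k : ℂ) * (2 * (Real.pi : ℂ) * Complex.I))
    (hre : ∀ t ∈ Icc (0 : ℝ) 1, (u t).re ≤ 0)
    (hne : ∀ t ∈ Icc (0 : ℝ) 1, Complex.exp (u t) ≠ 1) :
    HasInd (fun t => Complex.exp (u t) - 1) 0 := by
  have hsl : ∀ t ∈ Icc (0 : ℝ) 1, 1 - Complex.exp (u t) ∈ Complex.slitPlane := by
    intro t ht
    apply wlog_slit
    · rw [Complex.norm_exp]
      exact Real.exp_le_one_iff.2 (hre t ht)
    · exact hne t ht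
  have hper : Complex.exp (u 1) = Complex.exp (u 0) := by
    rw [h1]
    exact Complex.exp_eq_exp_iff_exists_int.2 ⟨k, rfl⟩
  refine ⟨fun t => Complex.log (1 - Complex.exp (u t)) + (Real.pi : ℂ) * Complex.I,
    ?_, ?_, ?_⟩
  · refine ContinuousOn.add (ContinuousOn.clog ?_ hsl) continuousOn_const
    exact continuousOn_const.sub hc.cexp
  · intro t ht
    have h2 : 1 - Complex.exp (u t) ≠ 0 := Complex.slitPlane_ne_zero (hsl t ht)
    rw [Complex.exp_add, Complex.exp_log h2, Complex.exp_pi_mul_I]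
    ring
  · simp only [hper]
    push_cast
    ring

/-- Uniform closeness of the members of a continuous family.

Proof. The set of `(u,t)` with `‖F u t - F u0 t‖ < ‖F u0 t‖` is open (both sides are continuous
functions of `(u,t)`) and contains `{u0} × [0,1]`; `[0,1]` is compact:
`IsCompact.eventually_forall_of_forall_eventually` or `generalized_tube_lemma`. -/
theorem eventually_near {U : Type*} [TopologicalSpace U] {F : U → ℝ → ℂ} {u0 : U}
    (hF : Continuous (fun p : U × ℝ => F p.1 p.2)) (h0 : ∀ t ∈ Icc (0 : ℝ) 1, F u0 t ≠ 0) :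
    ∀ᶠ u in 𝓝 u0, ∀ t ∈ Icc (0 : ℝ) 1, ‖F u t - F u0 t‖ < ‖F u0 t‖ := by
  refine isCompact_Icc.eventually_forall_of_forall_eventually fun t ht => ?_
  have h1 : Continuous fun p : U × ℝ => F u0 p.2 :=
    hF.comp (continuous_const.prodMk continuous_snd)
  have h2 : IsOpen {p : U × ℝ | ‖F p.1 p.2 - F u0 p.2‖ < ‖F u0 p.2‖} :=
    isOpen_lt (hF.sub h1).norm h1.norm
  refine h2.mem_nhds ?_
  show ‖F u0 t - F u0 t‖ < ‖F u0 t‖
  rw [sub_self, norm_zero]
  exact norm_pos_iff.2 (h0 t ht)

/-- The complex coordinate is additive. -/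
theorem zc_add (e e' : Z2) (x y : R2) : zc e e' (x + y) = zc e e' x + zc e e' y := by
  simp only [zc, za, zb, dR, lv, Prod.fst_add, Prod.snd_add]
  push_cast
  ring

/-- The complex coordinate is homogeneous. -/
theorem zc_smul (e e' : Z2) (r : ℝ) (x : R2) : zc e e' (r • x) = r * zc e e' x := by
  simp only [zc, za, zb, dR, lv, Prod.smul_fst, Prod.smul_snd, smul_eq_mul]
  push_cast
  ring

/-- The complex coordinate is continuous. -/
theorem zc_cont (e e' : Z2) : Continuous (zc e e') := by
  unfold zc za zb dR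
  fun_prop

/-- The first basis vector. -/
theorem zc_e {e e' : Z2} (h : dZ e e' = 1) : zc e e' (lv e) = 1 := by
  have h1 : ((e.1 : ℂ) * e'.2 - e.2 * e'.1) = 1 := by
    unfold dZ at h
    exact_mod_cast h
  simp only [zc, za, zb, dR, lv]
  push_cast
  linear_combination h1

/-- The second basis vector. -/
theorem zc_e' {e e' : Z2} (h : dZ e e' = 1) : zc e e' (lv e') = Complex.I := by
  have h1 : ((e.1 : ℂ) * e'.2 - e.2 * e'.1) = 1 := by
    unfold dZ at h
    exact_mod_cast h
  simp only [zc, za, zb, dR, lv]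
  push_cast
  linear_combination Complex.I * h1

/-- Every vector is a combination of the basis vectors. -/
theorem eq_coord {e e' : Z2} (h : dZ e e' = 1) (x : R2) :
    x = za e' x • lv e + zb e x • lv e' := by
  have h1 : ((e.1 : ℝ) * e'.2 - e.2 * e'.1) = 1 := by
    unfold dZ at h
    exact_mod_cast h
  refine Prod.ext ?_ ?_
  · simp only [za, zb, dR, lv, Prod.fst_add, Prod.smul_fst, smul_eq_mul]
    linear_combination -x.1 * h1
  · simp only [za, zb, dR, lv, Prod.snd_add, Prod.smul_snd, smul_eq_mul]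
    linear_combination -x.2 * h1

/-- A vector with a real integer complex coordinate is a multiple of `e`. -/
theorem eq_of_zc_int {e e' : Z2} (h : dZ e e' = 1) {x : R2} {k : ℤ}
    (hx : zc e e' x = (k : ℂ)) : x = (k : ℝ) • lv e := by
  have h1 : za e' x = k := by
    have := congrArg Complex.re hx
    simpa [zc] using this
  have h2 : zb e x = 0 := by
    have := congrArg Complex.im hx
    simpa [zc] using this
  have h3 := eq_coord h x
  rw [h1, h2, zero_smul, add_zero] at h3
  exact h3

/-- A primitive vector is the first vector of a basis.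

Proof. From `a * e.1 + b * e.2 = 1` take `e' = (-b, a)`. -/
theorem exists_dual {e : Z2} (he : Prim e) : ∃ e', dZ e e' = 1 := by
  obtain ⟨a, b, hab⟩ := he
  refine ⟨(-b, a), ?_⟩
  show e.1 * a - e.2 * -b = 1
  linear_combination hab

/-- The first vector of a basis is primitive. -/
theorem prim_of_dZ {e e' : Z2} (h : dZ e e' = 1) : Prim e := by
  refine ⟨e'.2, -e'.1, ?_⟩
  unfold dZ at h
  linear_combination h

end Pool.Agent.DA
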