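import Pool.Agent.DA.UMet
import Pool.Agent.DA.WLog

/-!
# D2 part A, T8a: the index of a minimal arc
-/

set_option autoImplicit false

namespace Pool.Agent.DA

open Set Filter Topology

variable (P : VI)

/-- The curve of complex numbers whose index is the position of `x0` with respect to the arc
with initial data `z, v` and duration `T`. -/
noncomputable def VI.wv (e e' : Z2) (x0 z v : R2) (T : ℝ) (r : ℝ) : ℂ :=
  Complex.exp (2 * (Real.pi : ℂ) * Complex.I * zc e e' (P.X (r * T) z v - x0)) - 1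

/-- Arcs with small cost of one turn miss the points with a larger one.

Proof. Let `y = X r z v`, `0 ≤ r ≤ T`; `D y (y + e) ≤ D y (z + e) + D (z + e) (y + e)`
`= D y (z + e) + D z y = D z (z + e)` (`VI.Arc.add` with `s = t = r`, `Dself`, `Dper`).  If
`y = x0 + k • lv e` then `D y (y + e) = D x0 (x0 + e)` (`Dper`). -/
theorem VI.miss {E : ℝ} (hE : P.E0 < E) {e : Z2} {x0 z v : R2} {T : ℝ}
    (h : P.Arc E z v T (z + lv e)) (hlt : P.D E z (z + lv e) < P.D E x0 (x0 + lv e))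
    {r : ℝ} (h0 : 0 ≤ r) (h1 : r ≤ T) (k : ℤ) : P.X r z v ≠ x0 + (k : ℝ) • lv e := by
  intro hy
  have h2 := VI.Arc.add P hE h h0 le_rfl h1
  rw [P.Dself E hE] at h2
  have h3 := P.Dtri E hE (P.X r z v) (z + lv e) (P.X r z v + lv e)
  rw [P.Dper E hE z (P.X r z v) e] at h3
  have h4 : (k : ℝ) • lv e = lv (k • e) := by
    ext <;> simp [lv]
  rw [h4] at hy
  have h5 : P.D E (P.X r z v) (P.X r z v + lv e) = P.D E x0 (x0 + lv e) := by
    rw [hy]
    have h6 : x0 + lv (k • e) + lv e = x0 + lv e + lv (k • e) := by abel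
    rw [h6, P.Dper E hE]
  linarith

private theorem zc_sub_aux (e e' : Z2) (x y : R2) : zc e e' (x - y) = zc e e' x - zc e e' y := by
  have h := zc_add e e' (x - y) y
  rw [sub_add_cancel] at h
  rw [h]; ring

/-- The curve of complex numbers has no zeros and is closed.

Proof. A zero gives `zc e e' (X (r T) z v - x0) = k`, an integer (`Complex.exp_eq_one_iff`),
so `X (r T) z v = x0 + k • lv e` (`eq_of_zc_int`), against `VI.miss`.  Closed: `zc (lv e) = 1`. -/
theorem VI.wv_ne {E : ℝ} (hE : P.E0 < E) {e e' : Z2} (hee : dZ e e' = 1) {x0 z v : R2} {T : ℝ}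
    (h : P.Arc E z v T (z + lv e)) (hlt : P.D E z (z + lv e) < P.D E x0 (x0 + lv e)) :
    (∀ r ∈ Icc (0 : ℝ) 1, P.wv e e' x0 z v T r ≠ 0) ∧
      P.wv e e' x0 z v T 1 = P.wv e e' x0 z v T 0 := by
  have hT : 0 < T := h.1
  constructor
  · intro r hr h0
    unfold VI.wv at h0
    rw [sub_eq_zero, Complex.exp_eq_one_iff] at h0
    obtain ⟨n, hn⟩ := h0
    have hpi : (2 * (Real.pi : ℂ) * Complex.I) ≠ 0 := by
      simp [Real.pi_ne_zero]
    have h1 : zc e e' (P.X (r * T) z v - x0) = (n : ℂ) := by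
      have h2 : (2 * (Real.pi : ℂ) * Complex.I) * zc e e' (P.X (r * T) z v - x0)
          = (2 * (Real.pi : ℂ) * Complex.I) * n := by rw [hn]; ring
      exact mul_left_cancel₀ hpi h2
    have h3 := eq_of_zc_int hee h1
    have h4 : P.X (r * T) z v = x0 + (n : ℝ) • lv e := by
      rw [← h3]; abel
    exact P.miss hE h hlt (mul_nonneg hr.1 hT.le) (by nlinarith [hr.2]) n h4
  · unfold VI.wv
    rw [one_mul, zero_mul, P.X0, h.2.2.1]
    have h1 : zc e e' (z + lv e - x0) = zc e e' (z - x0) + 1 := by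
      have : z + lv e - x0 = (z - x0) + lv e := by abel
      rw [this, zc_add, zc_e hee]
    rw [h1, mul_add, Complex.exp_add, mul_one, Complex.exp_two_pi_mul_I, mul_one]

private theorem VI.wv_cont (e e' : Z2) (x0 : R2) :
    Continuous (fun p : (R2 × R2 × ℝ) × ℝ => P.wv e e' x0 p.1.1 p.1.2.1 p.1.2.2 p.2) := by
  unfold VI.wv
  have h1 : Continuous (fun p : (R2 × R2 × ℝ) × ℝ => P.X (p.2 * p.1.2.2) p.1.1 p.1.2.1) := by
    have h2 : Continuous (fun p : (R2 × R2 × ℝ) × ℝ =>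
        ((p.2 * p.1.2.2, p.1.1, p.1.2.1) : ℝ × R2 × R2)) := by fun_prop
    exact P.Xcont.comp h2
  have h3 : Continuous (fun p : (R2 × R2 × ℝ) × ℝ =>
      zc e e' (P.X (p.2 * p.1.2.2) p.1.1 p.1.2.1 - x0)) :=
    (zc_cont e e').comp (h1.sub continuous_const)
  exact (Complex.continuous_exp.comp (continuous_const.mul h3)).sub continuous_const

/-- The index is locally constant.

Proof. `(z,v,T,r) ↦ wv e e' x0 z v T r` is continuous; `eventually_near` with `U = R2 × R2 × ℝ` at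
the limit point, `VI.wv_ne` and `hasInd_near`. -/
theorem VI.wv_lim {E : ℝ} (hE : P.E0 < E) {e e' : Z2} (hee : dZ e e' = 1) {x0 z v : R2} {T : ℝ}
    (h : P.Arc E z v T (z + lv e)) (hlt : P.D E z (z + lv e) < P.D E x0 (x0 + lv e)) {N : ℤ}
    (hN : HasInd (P.wv e e' x0 z v T) N) {zn vn : ℕ → R2} {Tn : ℕ → ℝ}
    (hz : Tendsto zn atTop (𝓝 z)) (hv : Tendsto vn atTop (𝓝 v))
    (hT : Tendsto Tn atTop (𝓝 T)) (hc : ∀ n, P.X (Tn n) (zn n) (vn n) = zn n + lv e) :
    ∀ᶠ n in atTop, HasInd (P.wv e e' x0 (zn n) (vn n) (Tn n)) N := by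
  have hcont := P.wv_cont e e' x0
  have hne := (P.wv_ne hE hee h hlt).1
  have h1 := eventually_near (U := R2 × R2 × ℝ) (u0 := (z, v, T))
    (F := fun u r => P.wv e e' x0 u.1 u.2.1 u.2.2 r) hcont hne
  have h2 : Tendsto (fun n => ((zn n, vn n, Tn n) : R2 × R2 × ℝ)) atTop (𝓝 (z, v, T)) :=
    hz.prodMk_nhds (hv.prodMk_nhds hT)
  filter_upwards [h2.eventually h1] with n hn
  refine hasInd_near hN ?_ ?_ ?_ hn
  · exact (hcont.comp (by fun_prop : Continuous fun r : ℝ =>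
      (((z, v, T), r) : (R2 × R2 × ℝ) × ℝ))).continuousOn
  · exact (hcont.comp (by fun_prop : Continuous fun r : ℝ =>
      (((zn n, vn n, Tn n), r) : (R2 × R2 × ℝ) × ℝ))).continuousOn
  · unfold VI.wv
    rw [one_mul, zero_mul, P.X0, hc]
    have h1 : zc e e' (zn n + lv e - x0) = zc e e' (zn n - x0) + 1 := by
      have : zn n + lv e - x0 = (zn n - x0) + lv e := by abel
      rw [this, zc_add, zc_e hee]
    rw [h1, mul_add, Complex.exp_add, mul_one, Complex.exp_two_pi_mul_I, mul_one]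

private theorem zb_sub_aux (e : Z2) (x y : R2) : zb e (x - y) = zb e x - zb e y := by
  simp [zb, dR]; ring

private theorem zb_abs_le_aux (e : Z2) (x : R2) : |zb e x| ≤ (|(e.1 : ℝ)| + |(e.2 : ℝ)|) * ‖x‖ := by
  have h1 : |x.1| ≤ ‖x‖ := by
    have := norm_fst_le x; simpa using this
  have h2 : |x.2| ≤ ‖x‖ := by
    have := norm_snd_le x; simpa using this
  have h3 : zb e x = (e.1 : ℝ) * x.2 - (e.2 : ℝ) * x.1 := rfl
  rw [h3]
  have h4 : |(e.1 : ℝ) * x.2 - (e.2 : ℝ) * x.1| ≤ |(e.1 : ℝ) * x.2| + |(e.2 : ℝ) * x.1| := abs_sub _ _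
  rw [abs_mul, abs_mul] at h4
  nlinarith [abs_nonneg (e.1 : ℝ), abs_nonneg (e.2 : ℝ)]

/-- Arcs that start far above or far below `x0`.

Proof. `ebd E` and `Dtime E E` bound `‖X r z v - z‖ ≤ C T ≤ C'` (`VI.dist_le`), with `C'`
independent of `z`, so `|zb e (X r z v) - zb e z| ≤ C''`.  Put `u r = 2 π i zc (X (r T) z v - x0)`:
real part `- 2 π (zb e (X (r T) z v) - zb e x0)`, `u 1 = u 0 + 2 π i`.  If
`zb e z ≥ zb e x0 + C''` the real part is `≤ 0`: `hasInd_below`; if `zb e z ≤ zb e x0 - C''` it is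
`≥ 0`: `hasInd_above`. -/
theorem VI.far {E : ℝ} (hE : P.E0 < E) {e e' : Z2} (hee : dZ e e' = 1) (x0 : R2) :
    ∃ B : ℝ, ∀ z v T, P.Arc E z v T (z + lv e) →
      P.D E z (z + lv e) < P.D E x0 (x0 + lv e) →
      (B ≤ zb e z → HasInd (P.wv e e' x0 z v T) 0) ∧
      (zb e z ≤ -B → HasInd (P.wv e e' x0 z v T) 1) := by
  obtain ⟨C, hC⟩ := P.ebd E
  obtain ⟨C1, hC1⟩ := P.Dtime E E hE
  set K : ℝ := |(e.1 : ℝ)| + |(e.2 : ℝ)| with hK
  have hK0 : 0 ≤ K := by positivity
  set S : ℝ := K * (|C| * (|C1| * (1 + ‖lv e‖))) with hS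
  refine ⟨S + |zb e x0|, fun z v T h hlt => ?_⟩
  have hT : 0 < T := h.1
  have hTb : T ≤ |C1| * (1 + ‖lv e‖) := by
    have h1 := hC1 E z (z + lv e) v T le_rfl le_rfl hT h.2.1 h.2.2.1 h.2.2.2
    have h2 : z + lv e - z = lv e := by abel
    rw [h2] at h1
    have h3 : C1 * (1 + ‖lv e‖) ≤ |C1| * (1 + ‖lv e‖) :=
      mul_le_mul_of_nonneg_right (le_abs_self _) (by positivity)
    linarith
  have hd : ∀ r ∈ Icc (0 : ℝ) 1, |zb e (P.X (r * T) z v) - zb e z| ≤ S := by
    intro r hr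
    have h1 := P.dist_le hC (x := z) (v := v) h.2.1.le (mul_nonneg hr.1 hT.le)
    have h2 := zb_abs_le_aux e (P.X (r * T) z v - z)
    rw [zb_sub_aux] at h2
    have h3 : C * (r * T) ≤ |C| * (|C1| * (1 + ‖lv e‖)) := by
      have h4 : r * T ≤ |C1| * (1 + ‖lv e‖) := by nlinarith [hr.2]
      have h5 : 0 ≤ r * T := mul_nonneg hr.1 hT.le
      calc C * (r * T) ≤ |C| * (r * T) := mul_le_mul_of_nonneg_right (le_abs_self _) h5
        _ ≤ _ := mul_le_mul_of_nonneg_left h4 (abs_nonneg _)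
    calc _ ≤ K * ‖P.X (r * T) z v - z‖ := h2
      _ ≤ K * (|C| * (|C1| * (1 + ‖lv e‖))) :=
        mul_le_mul_of_nonneg_left (h1.trans h3) hK0
  set u : ℝ → ℂ := fun r => 2 * (Real.pi : ℂ) * Complex.I * zc e e' (P.X (r * T) z v - x0) with hu
  have hw : P.wv e e' x0 z v T = fun r => Complex.exp (u r) - 1 := by
    funext r; rfl
  have hc : ContinuousOn u (Icc 0 1) := by
    have h1 : Continuous (fun r : ℝ => P.X (r * T) z v) := by
      have h2 : Continuous (fun r : ℝ => ((r * T, z, v) : ℝ × R2 × R2)) := by fun_prop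
      exact P.Xcont.comp h2
    exact (continuous_const.mul ((zc_cont e e').comp (h1.sub continuous_const))).continuousOn
  have h1 : u 1 = u 0 + 2 * (Real.pi : ℂ) * Complex.I := by
    simp only [hu]
    rw [one_mul, zero_mul, P.X0, h.2.2.1]
    have h1 : zc e e' (z + lv e - x0) = zc e e' (z - x0) + 1 := by
      have : z + lv e - x0 = (z - x0) + lv e := by abel
      rw [this, zc_add, zc_e hee]
    rw [h1]; ring
  have hne : ∀ t ∈ Icc (0 : ℝ) 1, Complex.exp (u t) ≠ 1 := by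
    intro t ht h0
    exact (P.wv_ne hE hee h hlt).1 t ht (by rw [hw]; simp [h0])
  have hre : ∀ t, (u t).re = - (2 * Real.pi * (zb e (P.X (t * T) z v) - zb e x0)) := by
    intro t
    have h2 : zc e e' (P.X (t * T) z v - x0)
        = (za e' (P.X (t * T) z v - x0) : ℂ) + (zb e (P.X (t * T) z v - x0) : ℂ) * Complex.I := rfl
    simp only [hu]
    rw [h2, zb_sub_aux]
    simp
  have hpi : 0 < 2 * Real.pi := by positivity
  rw [hw]
  constructor
  · intro hB
    refine hasInd_below (k := 1) hc (by rw [h1]; push_cast; ring) (fun t ht => ?_) hne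
    rw [hre]
    have h2 := abs_le.1 (hd t ht)
    have h3 := le_abs_self (zb e x0)
    have h4 : 0 ≤ zb e (P.X (t * T) z v) - zb e x0 := by linarith [h2.1]
    nlinarith
  · intro hB
    refine hasInd_above (N := 1) hc (by rw [h1]; push_cast; ring) (fun t ht => ?_) hne
    rw [hre]
    have h2 := abs_le.1 (hd t ht)
    have h3 := neg_abs_le (zb e x0)
    have h4 : zb e (P.X (t * T) z v) - zb e x0 ≤ 0 := by linarith [h2.2]
    nlinarith

end Pool.Agent.DA
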