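import Pool.Agent.DA.TBas

/-!
# D2 part A, U0: minimal arcs of the variational interface
-/

set_option autoImplicit false

namespace Pool.Agent.DA

open Set Filter Topology

variable (P : VI)

/-- Closed orbits of class zero have positive cost.

Proof. With `E' = (E + E0) / 2`: `0 = D E' x x ≤ A t x v + E' t` (`Dself`, `Dact`). -/
theorem VI.no_return {E : ℝ} (hE : P.E0 < E) {x v : R2} {t : ℝ} (ht : 0 < t)
    (hx : P.X t x v = x) : 0 < P.A t x v + E * t := by
  have h1 : P.E0 < (E + P.E0) / 2 := by linarith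
  have h2 := P.Dact _ h1 t x v ht.le
  rw [hx, P.Dself _ h1] at h2
  have h3 : (E + P.E0) / 2 * t < E * t := by
    have h4 : (E + P.E0) / 2 < E := by linarith
    exact mul_lt_mul_of_pos_right h4 ht
  linarith

private theorem UBas_X {x v : R2} {s t : ℝ} :
    P.X t x v = P.X (t - s) (P.X s x v) (P.W s x v) := by
  rw [← P.Xadd, add_sub_cancel]

private theorem UBas_A {x v : R2} {s t : ℝ} :
    P.A (t - s) (P.X s x v) (P.W s x v) = P.A t x v - P.A s x v := by
  have h := P.Aadd s (t - s) x v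
  rw [add_sub_cancel] at h
  linarith

private theorem UBas_act {E : ℝ} (hE : P.E0 < E) {x v : R2} {s t : ℝ} (hst : s ≤ t) :
    P.D E (P.X s x v) (P.X t x v) ≤ P.A t x v - P.A s x v + E * (t - s) := by
  have h := P.Dact E hE (t - s) (P.X s x v) (P.W s x v) (by linarith)
  rwa [← UBas_X, UBas_A] at h

/-- Subarcs of minimal arcs are minimal.

Proof. `D x (X s) ≤ A s + E s`, `D (X s) (X t) ≤ (A t - A s) + E (t - s)`,
`D (X t) y ≤ (A T - A t) + E (T - t)` (`Dact` at the points of the orbit, `Xadd`, `Aadd`); the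
sum of the left sides is `≥ D x y`, the sum of the right sides (`Dtri`); so equality. -/
theorem VI.Arc.sub {E : ℝ} (hE : P.E0 < E) {x v y : R2} {T : ℝ} (h : P.Arc E x v T y)
    {s t : ℝ} (hs : 0 ≤ s) (hst : s ≤ t) (htT : t ≤ T) :
    P.D E (P.X s x v) (P.X t x v) = P.A t x v - P.A s x v + E * (t - s) := by
  obtain ⟨hT, he, hX, hA⟩ := h
  have h1 : P.D E x (P.X s x v) ≤ P.A s x v + E * s := P.Dact E hE s x v hs
  have h2 := UBas_act P hE (x := x) (v := v) hst
  have h3 := UBas_act P hE (x := x) (v := v) htT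
  rw [hX] at h3
  have h4 := P.Dtri E hE x (P.X s x v) y
  have h5 := P.Dtri E hE (P.X s x v) (P.X t x v) y
  refine le_antisymm h2 ?_
  have h6 : E * T = E * s + E * (t - s) + E * (T - t) := by ring
  linarith

/-- Additivity along minimal arcs (`VI.Arc.sub` three times). -/
theorem VI.Arc.add {E : ℝ} (hE : P.E0 < E) {x v y : R2} {T : ℝ} (h : P.Arc E x v T y)
    {s t : ℝ} (hs : 0 ≤ s) (hst : s ≤ t) (htT : t ≤ T) :
    P.D E x (P.X s x v) + P.D E (P.X s x v) (P.X t x v) + P.D E (P.X t x v) y = P.D E x y := by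
  have h1 := VI.Arc.sub P hE h le_rfl hs (hst.trans htT)
  have h2 := VI.Arc.sub P hE h hs hst htT
  have h3 := VI.Arc.sub P hE h (hs.trans hst) htT le_rfl
  obtain ⟨hT, he, hX, hA⟩ := h
  rw [P.X0, P.A0] at h1
  rw [hX] at h3
  rw [h1, h2, h3, ← hA]
  ring

/-- The shifted orbit of a closed orbit. -/
theorem VI.X_shift {x v : R2} {T : ℝ} {m : Z2} (hX : P.X T x v = x + lv m)
    (hW : P.W T x v = v) (t : ℝ) : P.X (t + T) x v = P.X t x v + lv m := by
  rw [add_comm, P.Xadd, hX, hW, P.Xper]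

/-- The shifted orbit of a closed orbit. -/
theorem VI.W_shift {x v : R2} {T : ℝ} {m : Z2} (hX : P.X T x v = x + lv m)
    (hW : P.W T x v = v) (t : ℝ) : P.W (t + T) x v = P.W t x v := by
  rw [add_comm, P.Wadd, hX, hW, P.Wper]

/-- The shifted orbit of a closed orbit. -/
theorem VI.A_shift {x v : R2} {T : ℝ} {m : Z2} (hX : P.X T x v = x + lv m)
    (hW : P.W T x v = v) (t : ℝ) : P.A (t + T) x v = P.A T x v + P.A t x v := by
  rw [add_comm, P.Aadd, hX, hW, P.Aper]

/-- Speed bound along an orbit: the displacement is at most `C t` if `C` bounds the velocities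
of energy at most `R` (mean value inequality, `econs`). -/
theorem VI.dist_le {R C : ℝ} (hC : ∀ x v, P.e x v ≤ R → ‖v‖ ≤ C) {x v : R2}
    (hv : P.e x v ≤ R) {t : ℝ} (ht : 0 ≤ t) : ‖P.X t x v - x‖ ≤ C * t := by
  have h1 := norm_image_sub_le_of_norm_deriv_le_segment' (f := fun s => P.X s x v)
    (f' := fun s => P.W s x v) (a := 0) (b := t) (C := C)
    (fun s _ => (P.Xder s x v).hasDerivWithinAt)
    (fun s _ => hC (P.X s x v) (P.W s x v) (by rw [P.econs]; exact hv)) t (right_mem_Icc.2 ht)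
  rw [P.X0, sub_zero] at h1
  exact h1

end Pool.Agent.DA
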