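import Pool.Agent.DA.UMin

/-!
# D2 part A, C5: no second meeting
-/

set_option autoImplicit false

namespace Pool.Agent.DA

open Set Filter Topology

variable (P : VI)

private theorem par_prim {h h' : Z2} (hh : Prim h) (hh' : Prim h') (h0 : dZ h h' = 0) :
    h' = h ∨ h' = -h := by
  obtain ⟨p, q, hpq⟩ := hh
  unfold dZ at h0
  have e1 : (p * h'.1 + q * h'.2) * h.1 = h'.1 := by linear_combination h'.1 * hpq + q * h0
  have e2 : (p * h'.1 + q * h'.2) * h.2 = h'.2 := by linear_combination h'.2 * hpq - p * h0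
  obtain ⟨a, b, hab⟩ := hh'
  have hu : IsUnit (p * h'.1 + q * h'.2) := by
    refine IsUnit.of_mul_eq_one (a * h.1 + b * h.2) ?_
    linear_combination hab + a * e1 + b * e2
  rcases Int.isUnit_iff.1 hu with hk | hk
  · left
    rw [hk] at e1 e2
    ext <;> linarith
  · right
    rw [hk] at e1 e2
    ext
    · change h'.1 = -h.1
      linarith
    · change h'.2 = -h.2
      linarith

private theorem V_inj {E : ℝ} (hE : P.E0 < E) {h h' : Z2} (hh : Prim h) (hh' : Prim h')
    (x : R2) (hV : P.V E h x = P.V E h' x) : h = h' := by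
  obtain ⟨C, hC⟩ := P.ebd E
  have hT : 0 < P.TT E h x := (P.lf_arc hE hh x).1
  have hT' : 0 < P.TT E h' x := (P.lf_arc hE hh' x).1
  have heV : P.e x (P.V E h x) = E := (P.lf_arc hE hh x).2.1
  have hVn : ‖P.V E h x‖ ≤ C := hC _ _ heV.le
  have hC0 : 0 ≤ C := (norm_nonneg _).trans hVn
  set T := P.TT E h x with hTd
  set T' := P.TT E h' x with hTd'
  set V := P.V E h x with hVd
  -- bounded combinations
  have key : ∀ a : ℕ, (a : ℝ) * |((dZ h h' : ℤ) : ℝ)| ≤ 2 * (C * T') * ‖lv h'‖ := by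
    intro a
    set b : ℕ := ⌊(a * T) / T'⌋₊ with hb
    have hb1 : (b : ℝ) * T' ≤ a * T := by
      have := Nat.floor_le (div_nonneg (mul_nonneg (Nat.cast_nonneg a) hT.le) hT'.le)
      rwa [le_div_iff₀ hT'] at this
    have hb2 : (a : ℝ) * T < (b + 1) * T' := by
      have := Nat.lt_floor_add_one ((a * T) / T')
      rwa [div_lt_iff₀ hT'] at this
    set r := a * T - b * T' with hr
    have hr0 : 0 ≤ r := by linarith
    have hr1 : r ≤ T' := by linarith
    have h1 := (P.n_turns hE hh x a).1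
    have h2 := P.n_turns hE hh' x b
    rw [← hV] at h2
    have h3 : P.X (a * T) x V = P.X r x V + (b : ℝ) • lv h' := by
      have e1 : (a : ℝ) * T = b * T' + r := by rw [hr]; ring
      rw [e1, P.Xadd, h2.1, h2.2.1]
      have := P.Xper r x V (b • h')
      rw [lv_nsmul] at this
      exact this
    have h4 : P.X r x V - x = (a : ℝ) • lv h - (b : ℝ) • lv h' := by
      rw [h1] at h3
      have : P.X r x V = x + (a : ℝ) • lv h - (b : ℝ) • lv h' := by
        rw [h3]; abel
      rw [this]; abel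
    have h5 : ‖(a : ℝ) • lv h - (b : ℝ) • lv h'‖ ≤ C * T' := by
      rw [← h4]
      exact (P.dist_le hC heV.le hr0).trans (mul_le_mul_of_nonneg_left hr1 hC0)
    have h6 : dR ((a : ℝ) • lv h - (b : ℝ) • lv h') (lv h') = a * ((dZ h h' : ℤ) : ℝ) := by
      simp only [dR, lv, dZ, Prod.smul_fst, Prod.smul_snd, Prod.fst_sub, Prod.snd_sub,
        smul_eq_mul, Int.cast_sub, Int.cast_mul]
      ring
    have h7 : ∀ u w : R2, |dR u w| ≤ 2 * ‖u‖ * ‖w‖ := by
      intro u w
      have a1 : |u.1| ≤ ‖u‖ := norm_fst_le u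
      have a2 : |u.2| ≤ ‖u‖ := norm_snd_le u
      have a3 : |w.1| ≤ ‖w‖ := norm_fst_le w
      have a4 : |w.2| ≤ ‖w‖ := norm_snd_le w
      calc |dR u w| ≤ |u.1 * w.2| + |u.2 * w.1| := abs_sub _ _
        _ = |u.1| * |w.2| + |u.2| * |w.1| := by rw [abs_mul, abs_mul]
        _ ≤ ‖u‖ * ‖w‖ + ‖u‖ * ‖w‖ := by gcongr
        _ = 2 * ‖u‖ * ‖w‖ := by ring
    calc (a : ℝ) * |((dZ h h' : ℤ) : ℝ)| = |(a : ℝ) * ((dZ h h' : ℤ) : ℝ)| := by
          rw [abs_mul, abs_of_nonneg (Nat.cast_nonneg a : (0 : ℝ) ≤ (a : ℝ))]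
      _ = |dR ((a : ℝ) • lv h - (b : ℝ) • lv h') (lv h')| := by rw [h6]
      _ ≤ 2 * ‖(a : ℝ) • lv h - (b : ℝ) • lv h'‖ * ‖lv h'‖ := h7 _ _
      _ ≤ 2 * (C * T') * ‖lv h'‖ := by gcongr
  have hdet : dZ h h' = 0 := by
    by_contra hne
    have h1 : (1 : ℝ) ≤ |((dZ h h' : ℤ) : ℝ)| := by
      rw [← Int.cast_abs]
      exact_mod_cast Int.one_le_abs hne
    obtain ⟨a, ha⟩ := exists_nat_gt (2 * (C * T') * ‖lv h'‖)
    have h2 := key a
    have h3 : (a : ℝ) * 1 ≤ a * |((dZ h h' : ℤ) : ℝ)| :=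
      mul_le_mul_of_nonneg_left h1 (Nat.cast_nonneg a)
    linarith
  rcases par_prim hh hh' hdet with h1 | h1
  · exact h1.symm
  · exfalso
    have hX : P.X T x V = x + lv h := (P.lf_arc hE hh x).2.2.1
    have hW : P.W T x V = V := (P.lf_uniq hE hh (P.lf_arc hE hh x)).2.2
    have hX' : P.X T' x V = x + lv h' := by
      have := (P.lf_arc hE hh' x).2.2.1
      rwa [← hV] at this
    have h2 : P.X (T + T') x V = x := by
      rw [P.Xadd, hX, hW, P.Xper, hX', h1, lv_neg]
      abel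
    have h3 := P.leaf_inj hE hh x (s := 0) (t := T + T') (by rw [P.X0]; exact h2.symm)
    linarith

/-- NO SECOND MEETING (C5).

Proof. Suppose `X t x V = X t' x V' = y`, `V = V E h x`, `V' = V E h' x`, `t, t' > 0`.
The arc `(V', t')` from `x` to `y` is minimal (`VI.leaf_min`), and so is the arc of the
`h`-orbit from `y` to `z = X 1 y (W t x V) = X (t + 1) x V` (`VI.lf_flow`, `VI.leaf_min` at
`y`); and `D E x z = D E x y + D E y z` because the `h`-orbit is minimal from `x` to `z`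
(`VI.leaf_min`, `Aadd`).  `VI.no_corner`: `W t' x V' = W t x V`.  So the orbits are the same:
`x = X (-t) y (W t x V)` and `x = X (-t') y (W t x V)`; as points of the `h`-orbit of `y`
(`V E h y = W t x V` by `VI.lf_flow`) they are equal only if `t = t'` (`VI.leaf_inj` at `y`),
and then `V = W (-t) y (W t x V) = W (-t') y (W t' x V') = V'`.
So the orbit of `x` has both periods.  For `a : ℕ` take `b = ⌊a T / T'⌋`:
`‖a h - b h'‖ ≤ C T'` (`VI.dist_le`), so `a |dZ h h'| ≤ 2 C T' ‖lv h'‖` for all `a`, and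
`dZ h h' = 0`.  As `h, h'` are primitive and `h ≠ h'`: `h' = - h`; then
`X (T + T') x V = x`, against `VI.leaf_inj`. -/
theorem VI.c5 {E : ℝ} (hE : P.E0 < E) {h h' : Z2} (hh : Prim h) (hh' : Prim h')
    (hne : h ≠ h') (x : R2) {t t' : ℝ} (ht : 0 < t) (ht' : 0 < t') :
    P.X t x (P.V E h x) ≠ P.X t' x (P.V E h' x) := by
  intro hy
  set V := P.V E h x with hV
  set V' := P.V E h' x with hV'
  set y := P.X t x V with hyd
  set w := P.W t x V with hw
  have hfl : P.V E h y = w := (P.lf_flow hE hh x t).1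
  have hmin : ∀ s, 0 ≤ s → P.D E x (P.X s x V) = P.A s x V + E * s :=
    fun s hs => P.leaf_min hE hh x hs
  have heV : P.e x V = E := (P.lf_arc hE hh x).2.1
  have heV' : P.e x V' = E := (P.lf_arc hE hh' x).2.1
  have hyw : P.e y w = E := by rw [hyd, hw, P.econs, heV]
  have a1 : P.Arc E x V' t' y := by
    refine ⟨ht', heV', hy.symm, ?_⟩
    have := P.leaf_min hE hh' x ht'.le
    rw [hy]
    exact this.symm
  have a2 : P.Arc E y w 1 (P.X 1 y w) := by
    refine ⟨one_pos, hyw, rfl, ?_⟩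
    have := P.leaf_min hE hh y (zero_le_one (α := ℝ))
    rw [hfl] at this
    exact this.symm
  have hsum : P.D E x (P.X 1 y w) = P.D E x y + P.D E y (P.X 1 y w) := by
    have h1 : P.X (t + 1) x V = P.X 1 y w := P.Xadd t 1 x V
    have h2 : P.A (t + 1) x V = P.A t x V + P.A 1 y w := P.Aadd t 1 x V
    have h3 := hmin (t + 1) (by linarith)
    rw [h1, h2] at h3
    have h4 := hmin t ht.le
    have h5 := a2.2.2.2
    rw [h3, h4, ← h5]
    ring
  have hc : P.W t' x V' = w := P.no_corner hE a1 a2 hsum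
  have b1 : P.X (-t) y w = x := by
    have := P.Xadd t (-t) x V
    rw [add_neg_cancel, P.X0] at this
    exact this.symm
  have b2 : P.W (-t) y w = V := by
    have := P.Wadd t (-t) x V
    rw [add_neg_cancel, P.W0] at this
    exact this.symm
  have b3 : P.X (-t') y w = x := by
    have := P.Xadd t' (-t') x V'
    rw [add_neg_cancel, P.X0, hc, ← hy] at this
    exact this.symm
  have b4 : P.W (-t') y w = V' := by
    have := P.Wadd t' (-t') x V'
    rw [add_neg_cancel, P.W0, hc, ← hy] at this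
    exact this.symm
  have b5 : -t = -t' := by
    refine P.leaf_inj hE hh y ?_
    rw [hfl, b1, b3]
  rw [b5, b4] at b2
  exact hne (V_inj P hE hh hh' x b2.symm)

/-- Two different classes have different velocities at every point (`VI.c5` at `t = t' = 1`,
or directly). -/
theorem VI.V_ne {E : ℝ} (hE : P.E0 < E) {h h' : Z2} (hh : Prim h) (hh' : Prim h')
    (hne : h ≠ h') (x : R2) : P.V E h x ≠ P.V E h' x :=
  fun hV => hne (V_inj P hE hh hh' x hV)

end Pool.Agent.DA
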