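import Pool.Agent.DA.UMet

/-!
# D2 part A, T7: uniqueness of minimal loops through a given point
-/

set_option autoImplicit false

namespace Pool.Agent.DA

open Set Filter Topology

variable (P : VI)

/-- No corner: a minimal arc followed by a minimal arc of a minimal concatenation.

Proof. `corner` with `τ = min T S` and `R = E`: `D E x z ≤ A T x v + A S y w + E (T + S) -`
`κ ‖W T x v - w‖ ^ 2`, and the left side is `D E x y + D E y z`. -/
theorem VI.no_corner {E : ℝ} (hE : P.E0 < E) {x v y w z : R2} {T S : ℝ}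
    (h : P.Arc E x v T y) (h' : P.Arc E y w S z)
    (hm : P.D E x z = P.D E x y + P.D E y z) : P.W T x v = w := by
  obtain ⟨hT, he, hX, hA⟩ := h
  obtain ⟨hS, he', hX', hA'⟩ := h'
  obtain ⟨κ, hκ, hc⟩ := P.corner (min T S) E (lt_min hT hS)
  have h1 := hc S T x v w E (min_le_right _ _) (min_le_left _ _) he.le
    (by rw [hX, he']) hE
  rw [hX, hX', hm] at h1
  have h2 : κ * ‖P.W T x v - w‖ ^ 2 ≤ 0 := by linarith
  have h3 : ‖P.W T x v - w‖ ^ 2 ≤ 0 := by
    by_contra h4
    have h5 := mul_pos hκ (not_le.1 h4)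
    linarith
  have h4 : ‖P.W T x v - w‖ = 0 := by
    have := sq_nonneg ‖P.W T x v - w‖
    exact pow_eq_zero_iff (two_ne_zero) |>.1 (le_antisymm h3 this)
  exact sub_eq_zero.1 (norm_eq_zero.1 h4)

/-- The translate of an arc. -/
theorem VI.Arc.shift {E : ℝ} (hE : P.E0 < E) {x v y : R2} {T : ℝ} (h : P.Arc E x v T y)
    (m : Z2) : P.Arc E (x + lv m) v T (y + lv m) := by
  obtain ⟨hT, he, hX, hA⟩ := h
  refine ⟨hT, ?_, ?_, ?_⟩
  · rw [P.eper, he]
  · rw [P.Xper, hX]
  · rw [P.Aper, P.Dper E hE, hA]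

private theorem uuni_dur {E : ℝ} (hE : P.E0 < E) {e : Z2} {z v : R2} {T T' : ℝ}
    (h : P.Arc E z v T (z + lv e)) (h' : P.Arc E z v T' (z + lv e))
    (hW : P.W T z v = v) : ¬ T < T' := by
  intro hlt
  obtain ⟨hT, he, hX, hA⟩ := h
  obtain ⟨hT', -, hX', hA'⟩ := h'
  have h1 : P.X (T' - T) (z + lv e) v = z + lv e := by
    have h2 := P.Xadd T (T' - T) z v
    rw [add_sub_cancel, hX', hX, hW] at h2
    exact h2.symm
  have h2 := P.Aadd T (T' - T) z v
  rw [add_sub_cancel, hX, hW] at h2
  have h3 := P.no_return hE (sub_pos.2 hlt) h1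
  have h4 : E * (T' - T) = E * T' - E * T := by ring
  linarith

/-- Uniqueness of the minimal loop of class `e` through a point where it has the least cost,
and no corner at the base point.

Proof. For two arcs `(v,T)`, `(v',T')`: `(v,T)` followed by the translate of `(v',T')` goes from `z`
to `z + 2 e`, and `D z (z + 2 e) ≥ phi (D E) (2 • e) = 2 phi (D E) e` is the total cost
(`Met.phi_le`, and `≤` by `Dtri`).  `VI.no_corner`: `W T z v = v'`.  With `(v',T') = (v,T)`:
`W T z v = v`.  So `v = v'`.  If `T < T'` then with `y = z + e = X T z v`, `X (T' - T) y v = y` (`Xadd`,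
`X T' z v = y`), and `A (T' - T) y v + E (T' - T) = 0` (`Aadd`: both arcs have the cost
`D E z (z + e)`), against `VI.no_return`.  The same for `T' < T`. -/
theorem VI.uni {E : ℝ} (hE : P.E0 < E) {e : Z2} {z : R2}
    (hz : P.D E z (z + lv e) = phi (P.D E) e)
    (h2 : phi (P.D E) (2 • e) = 2 * phi (P.D E) e) {v v' : R2} {T T' : ℝ}
    (h : P.Arc E z v T (z + lv e)) (h' : P.Arc E z v' T' (z + lv e)) :
    v = v' ∧ T = T' ∧ P.W T z v = v := by
  have hlv : z + lv (2 • e) = z + lv e + lv e := by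
    rw [add_assoc, two_nsmul]
    congr 1
    refine Prod.ext ?_ ?_
    · simp only [lv, Prod.fst_add]
      push_cast
      ring
    · simp only [lv, Prod.snd_add]
      push_cast
      ring
  have h3 := (P.met hE).phi_le z (2 • e)
  rw [h2, hlv] at h3
  have h4 : P.D E (z + lv e) (z + lv e + lv e) = P.D E z (z + lv e) := P.Dper E hE _ _ _
  have h5 : P.D E z (z + lv e + lv e) =
      P.D E z (z + lv e) + P.D E (z + lv e) (z + lv e + lv e) := by
    refine le_antisymm (P.Dtri E hE _ _ _) ?_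
    rw [h4, hz]
    linarith
  have h6 : P.W T z v = v' := P.no_corner hE h (h'.shift P hE e) h5
  have h7 : P.W T z v = v := P.no_corner hE h (h.shift P hE e) h5
  have h8 : v = v' := h7.symm.trans h6
  subst h8
  have h9 : P.W T' z v = v := P.no_corner hE h' (h'.shift P hE e) h5
  exact ⟨rfl, le_antisymm (not_lt.1 (uuni_dur P hE h' h h9))
    (not_lt.1 (uuni_dur P hE h h' h7)), h7⟩

end Pool.Agent.DA
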