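import Pool.Agent.DA.UTwo
import Pool.Agent.DA.UUni
import Pool.Agent.DA.TNul

/-!
# D2 part A, T8: the closed minimal orbits fill the torus
-/

set_option autoImplicit false

namespace Pool.Agent.DA

open Set Filter Topology

variable (P : VI)

private theorem wv_shift {e e' : Z2} (hee : dZ e e' = 1) (x0 z v : R2) (T : ℝ) (k : ℤ) :
    P.wv e e' x0 (z + lv (k • e)) v T = P.wv e e' x0 z v T := by
  funext r
  unfold VI.wv
  have h1 : P.X (r * T) (z + lv (k • e)) v - x0 =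
      (P.X (r * T) z v - x0) + ((k : ℝ) • lv e) := by
    rw [P.Xper, lv_smul]
    abel
  rw [h1, zc_add, zc_smul, zc_e hee, mul_add, Complex.exp_add]
  have h2 : 2 * (Real.pi : ℂ) * Complex.I * (((k : ℝ) : ℂ) * 1) =
      (k : ℂ) * (2 * (Real.pi : ℂ) * Complex.I) := by
    push_cast
    ring
  rw [h2, Complex.exp_int_mul_two_pi_mul_I, mul_one]

private theorem wv_cont (e e' : Z2) (x0 z v : R2) (T : ℝ) :
    Continuous (P.wv e e' x0 z v T) := by
  unfold VI.wv
  have h1 : Continuous fun r : ℝ => P.X (r * T) z v :=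
    P.Xcont.comp (by fun_prop : Continuous fun r : ℝ => (r * T, z, v))
  have h2 : Continuous fun r : ℝ => zc e e' (P.X (r * T) z v - x0) :=
    (zc_cont e e').comp (h1.sub continuous_const)
  exact (Complex.continuous_exp.comp (continuous_const.mul h2)).sub continuous_const

/-- THEOREM T8: through every point passes a closed minimal orbit of class `e`.

Proof. Suppose not: `δ = D E x0 (x0 + e) - phi (D E) e > 0` for some `x0` (`Met.phi_le`).
`exists_dual` gives `e'`.  For `j : ℕ` let `ε j = δ / (j + 2) < δ` and take the curve of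
`Met.nearnull` (`VI.met`, `VI.sck`) for `ε j`, and the point `z j` and the two arcs of
`VI.two_arcs`.  By `VI.far` `zb e (z j)` stays between `-B` and `B` (otherwise one of the two
indices would be wrong, `hasInd_unique`).  Translate by multiples of `e`: `za e' (z j) ∈ [0,1)`; the
arcs (`VI.Arc.shift`) and the indices are not changed (`wv` is invariant under
`z ↦ z + k • lv e`, because `exp` has the period `2 π i`).  So `z j` is bounded
(`eq_coord`), and we may pass to a subsequence with `z j → z`, and (`VI.arc_lim` twice) both arcs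
converge to arcs `(v,T)`, `(v',T')` from `z` to `z + e`.  `D E z (z + e) = phi (D E) e` (limit of
`D (z j) (z j + e) ≤ phi + ε j`).  By `VI.uni` (and `Met.hom` for `n = 2`) `(v,T) = (v',T')`.  Its index
`N` is by `VI.wv_lim` the index of both arcs for large `j`: `N ≥ 1` and `N ≤ 0`.  Contradiction. -/
theorem VI.fill {E : ℝ} (hE : P.E0 < E) {e : Z2} (he : Prim e) (x : R2) :
    P.D E x (x + lv e) = phi (P.D E) e := by
  have hm : Met (P.D E) := P.met hE
  have hsc : SCK (P.D E) := P.sck hE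
  by_contra hne
  have hlt : phi (P.D E) e < P.D E x (x + lv e) :=
    lt_of_le_of_ne (hm.phi_le x e) (Ne.symm hne)
  set φ : ℝ := phi (P.D E) e with hφ
  set δ : ℝ := P.D E x (x + lv e) - φ with hδ
  have hδ0 : 0 < δ := by linarith
  obtain ⟨e', hee⟩ := exists_dual he
  obtain ⟨B, hB⟩ := P.far hE hee x
  have he0 : lv e ≠ 0 := by
    refine lv_ne fun h => ?_
    rw [h] at hee
    simp [dZ] at hee
  -- the arcs
  have key : ∀ j : ℕ, ∃ (z v : R2) (T : ℝ) (v' : R2) (T' : ℝ) (N N' : ℤ),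
      (P.Arc E z v T (z + lv e) ∧ P.Arc E z v' T' (z + lv e)) ∧
      (HasInd (P.wv e e' x z v T) N ∧ HasInd (P.wv e e' x z v' T') N') ∧ (1 ≤ N ∧ N' ≤ 0) ∧
      P.D E z (z + lv e) ≤ φ + δ / ((j : ℝ) + 2) ∧
      (0 ≤ za e' z ∧ za e' z ≤ 1) ∧ (-B ≤ zb e z ∧ zb e z ≤ B) := by
    intro j
    have hj : (0 : ℝ) < (j : ℝ) + 2 := by positivity
    have hε : 0 < δ / ((j : ℝ) + 2) := by positivity
    have hε' : δ / ((j : ℝ) + 2) < δ := by
      rw [div_lt_iff₀ hj]
      have : (0 : ℝ) ≤ j := Nat.cast_nonneg j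
      nlinarith
    obtain ⟨m, γ, hγ, hp, hb⟩ := hm.nearnull hsc hee hε
    have hlt' : ∀ t, P.D E (γ t) (γ t + lv e) < P.D E x (x + lv e) := by
      intro t
      have := hb t
      linarith
    obtain ⟨t, v, T, v', T', N, N', h1, h2, h3, h4, h5, h6⟩ :=
      P.two_arcs hE hee (x0 := x) hγ hp hlt'
    have hzb1 : zb e (γ t) < B := by
      by_contra hh
      have h7 := hasInd_unique h3 ((hB _ _ _ h1 (hlt' t)).1 (not_lt.1 hh))
      omega
    have hzb2 : -B < zb e (γ t) := by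
      by_contra hh
      have h7 := hasInd_unique h4 ((hB _ _ _ h2 (hlt' t)).2 (not_lt.1 hh))
      omega
    -- translate
    set k : ℤ := ⌊za e' (γ t)⌋ with hk
    set z : R2 := γ t + lv ((-k) • e) with hz
    have hze : z + lv e = γ t + lv e + lv ((-k) • e) := by
      rw [hz]
      abel
    have hlvk : lv ((-k) • e) = ((-k : ℤ) : ℝ) • lv e := lv_smul _ _
    have hee' : (e.1 : ℝ) * e'.2 - e.2 * e'.1 = 1 := by
      have : ((dZ e e' : ℤ) : ℝ) = 1 := by rw [hee]; norm_num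
      unfold dZ at this
      push_cast at this
      exact this
    have hza : za e' z = za e' (γ t) - k := by
      have h7 : za e' z = za e' (γ t) + ((-k : ℤ) : ℝ) * ((e.1 : ℝ) * e'.2 - e.2 * e'.1) := by
        rw [hz, hlvk]
        simp only [za, dR, lv, Prod.fst_add, Prod.snd_add, Prod.smul_fst, Prod.smul_snd,
          smul_eq_mul]
        ring
      rw [h7, hee']
      push_cast
      ring
    have hzb : zb e z = zb e (γ t) := by
      rw [hz, hlvk]
      simp only [zb, dR, lv, Prod.fst_add, Prod.snd_add, Prod.smul_fst, Prod.smul_snd,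
        smul_eq_mul]
      ring
    refine ⟨z, v, T, v', T', N, N', ⟨?_, ?_⟩, ⟨?_, ?_⟩, ⟨h5, h6⟩, ?_, ⟨?_, ?_⟩, ⟨?_, ?_⟩⟩
    · rw [hze]
      exact VI.Arc.shift P hE h1 _
    · rw [hze]
      exact VI.Arc.shift P hE h2 _
    · rw [hz, wv_shift P hee]
      exact h3
    · rw [hz, wv_shift P hee]
      exact h4
    · rw [hze, hz, P.Dper E hE]
      exact hb t
    · rw [hza]
      have := Int.floor_le (za e' (γ t))
      linarith
    · rw [hza]
      have := Int.lt_floor_add_one (za e' (γ t))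
      linarith
    · rw [hzb]
      exact hzb2.le
    · rw [hzb]
      exact hzb1.le
  choose z v T v' T' N N' hA hI hN hD hza hzb using key
  -- the base points converge along a subsequence
  have hK : IsCompact ((fun p : ℝ × ℝ => p.1 • lv e + p.2 • lv e') ''
      (Icc (0 : ℝ) 1 ×ˢ Icc (-B) B)) :=
    (isCompact_Icc.prod isCompact_Icc).image (by fun_prop)
  have hzK : ∀ j, z j ∈ (fun p : ℝ × ℝ => p.1 • lv e + p.2 • lv e') ''
      (Icc (0 : ℝ) 1 ×ˢ Icc (-B) B) := fun j =>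
    ⟨(za e' (z j), zb e (z j)), ⟨⟨(hza j).1, (hza j).2⟩, ⟨(hzb j).1, (hzb j).2⟩⟩,
      (eq_coord hee (z j)).symm⟩
  obtain ⟨z₀, -, ρ₁, hρ₁, hz₁⟩ := hK.tendsto_subseq hzK
  have hzne : z₀ ≠ z₀ + lv e := by
    intro h
    exact he0 (by simpa using h.symm)
  obtain ⟨ρ₂, v₀, T₀, hρ₂, hv₂, hT₂, hArc⟩ := P.arc_lim hE hzne
    (En := fun _ => E) (xn := z ∘ ρ₁) (yn := fun n => z (ρ₁ n) + lv e) (vn := v ∘ ρ₁)
    (Tn := T ∘ ρ₁) (fun n => (hA (ρ₁ n)).1) tendsto_const_nhds hz₁ (hz₁.add_const _)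
  have hz₂ : Tendsto (z ∘ ρ₁ ∘ ρ₂) atTop (𝓝 z₀) := hz₁.comp hρ₂.tendsto_atTop
  obtain ⟨ρ₃, v₀', T₀', hρ₃, hv₃, hT₃, hArc'⟩ := P.arc_lim hE hzne
    (En := fun _ => E) (xn := z ∘ ρ₁ ∘ ρ₂) (yn := fun n => z (ρ₁ (ρ₂ n)) + lv e)
    (vn := v' ∘ ρ₁ ∘ ρ₂) (Tn := T' ∘ ρ₁ ∘ ρ₂) (fun n => (hA (ρ₁ (ρ₂ n))).2)
    tendsto_const_nhds hz₂ (hz₂.add_const _)
  set ρ : ℕ → ℕ := ρ₁ ∘ ρ₂ ∘ ρ₃ with hρ
  have hρm : StrictMono ρ := hρ₁.comp (hρ₂.comp hρ₃)
  have hz₃ : Tendsto (z ∘ ρ) atTop (𝓝 z₀) := hz₂.comp hρ₃.tendsto_atTop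
  have hv₃' : Tendsto (v ∘ ρ) atTop (𝓝 v₀) := hv₂.comp hρ₃.tendsto_atTop
  have hT₃' : Tendsto (T ∘ ρ) atTop (𝓝 T₀) := hT₂.comp hρ₃.tendsto_atTop
  -- the cost of the limit
  have hDz : P.D E z₀ (z₀ + lv e) = φ := by
    refine le_antisymm ?_ (hm.phi_le z₀ e)
    have h1 : Tendsto (fun n => P.D E (z (ρ n)) (z (ρ n) + lv e)) atTop
        (𝓝 (P.D E z₀ (z₀ + lv e))) := by
      have h2 : Tendsto (fun n => (z (ρ n), z (ρ n) + lv e)) atTop (𝓝 (z₀, z₀ + lv e)) :=
        hz₃.prodMk_nhds (hz₃.add_const _)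
      exact (hm.cont.tendsto (z₀, z₀ + lv e)).comp h2
    have h3 : Tendsto (fun n : ℕ => φ + δ / (((ρ n : ℕ) : ℝ) + 2)) atTop (𝓝 (φ + 0)) := by
      refine tendsto_const_nhds.add ?_
      refine Tendsto.div_atTop tendsto_const_nhds ?_
      exact tendsto_atTop_add_const_right _ _
        (tendsto_natCast_atTop_atTop.comp hρm.tendsto_atTop)
    rw [add_zero] at h3
    exact le_of_tendsto_of_tendsto' h1 h3 fun n => hD (ρ n)
  have h2 : phi (P.D E) (2 • e) = 2 * phi (P.D E) e := by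
    have := hm.hom e 2
    simpa using this
  obtain ⟨huv, huT, -⟩ := P.uni hE hDz h2 hArc hArc'
  have hlt₀ : P.D E z₀ (z₀ + lv e) < P.D E x (x + lv e) := by
    rw [hDz]
    exact hlt
  obtain ⟨hw1, hw2⟩ := P.wv_ne hE hee hArc hlt₀
  obtain ⟨M, hM⟩ := exists_hasInd (wv_cont P e e' x z₀ v₀ T₀).continuousOn hw1 hw2
  have hev1 := P.wv_lim hE hee hArc hlt₀ hM hz₃ hv₃' hT₃' (fun n => (hA (ρ n)).1.2.2.1)
  have hM' : HasInd (P.wv e e' x z₀ v₀' T₀') M := by
    rw [← huv, ← huT]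
    exact hM
  have hev2 := P.wv_lim hE hee hArc' hlt₀ hM' hz₃ hv₃ hT₃ (fun n => (hA (ρ n)).2.2.2.1)
  obtain ⟨n, hn1, hn2⟩ := (hev1.and hev2).exists
  have e1 := hasInd_unique hn1 (hI (ρ n)).1
  have e2 := hasInd_unique hn2 (hI (ρ n)).2
  have e3 := (hN (ρ n)).1
  have e4 := (hN (ρ n)).2
  omega

end Pool.Agent.DA
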