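import Pool.Agent.DA.ULeaf

/-!
# D2 part A, T9: continuity of the leaves, common period, cost of n turns
-/

set_option autoImplicit false

namespace Pool.Agent.DA

open Set Filter Topology

variable (P : VI)

/-- Continuity of the velocity and of the period.

Proof. Sequential continuity (metric spaces): let `(En, xn) → (E, x)` with `E > E0`, `En > E0`.  Every
subsequence has a further subsequence along which `lf En h xn` converges to an arc from `x` to
`x + h` of energy `E` (`VI.arc_lim`, `VI.lf_arc`), which is `lf E h x` by `VI.lf_uniq`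
(`tendsto_of_subseq_tendsto`). -/
theorem VI.lf_cont {h : Z2} (hh : Prim h) :
    ContinuousOn (fun p : ℝ × R2 => P.lf p.1 h p.2) {p | P.E0 < p.1} := by
  rintro ⟨E, x⟩ hE
  have hE' : P.E0 < E := hE
  refine tendsto_of_seq_tendsto fun u hu => ?_
  obtain ⟨hu1, hu2⟩ := tendsto_nhdsWithin_iff.mp hu
  refine tendsto_of_subseq_tendsto fun ns hns => ?_
  obtain ⟨N, hN⟩ := eventually_atTop.mp (hns.eventually hu2)
  have hsh : Tendsto (fun n => ns (n + N)) atTop atTop :=
    hns.comp (tendsto_add_atTop_nat N)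
  have hun : Tendsto (fun n => u (ns (n + N))) atTop (𝓝 (E, x)) := hu1.comp hsh
  have hEn : Tendsto (fun n => (u (ns (n + N))).1) atTop (𝓝 E) :=
    (continuous_fst.tendsto (E, x)).comp hun
  have hxn : Tendsto (fun n => (u (ns (n + N))).2) atTop (𝓝 x) :=
    (continuous_snd.tendsto (E, x)).comp hun
  have hyn : Tendsto (fun n => (u (ns (n + N))).2 + lv h) atTop (𝓝 (x + lv h)) :=
    hxn.add_const _
  have hxy : x ≠ x + lv h := by
    intro h0
    exact lv_ne (prim_ne hh) (left_eq_add.mp h0)
  have harc : ∀ n, P.Arc (u (ns (n + N))).1 (u (ns (n + N))).2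
      (P.V (u (ns (n + N))).1 h (u (ns (n + N))).2)
      (P.TT (u (ns (n + N))).1 h (u (ns (n + N))).2) ((u (ns (n + N))).2 + lv h) := fun n =>
    P.lf_arc (hN (n + N) (Nat.le_add_left N n)) hh _
  obtain ⟨ψ, v, T, -, hv, hT, ha⟩ := P.arc_lim hE' hxy harc hEn hxn hyn
  obtain ⟨hv', hT', -⟩ := P.lf_uniq hE' hh ha
  refine ⟨fun n => ψ n + N, ?_⟩
  have hlim := hv.prodMk_nhds hT
  rw [hv', hT'] at hlim
  exact hlim

/-- The period does not depend on the point.

Proof. Put `m E = phi (D E) h = D E x (x + h)` for all `x` (`VI.fill`).  For `E, F > E0`: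
`m F ≤ A (TT E x) x (V E x) + F * TT E x = m E + (F - E) * TT E x` (`Dact` with energy `F` for
the `E`-orbit).  For `E < F` and all `x, y`, with this inequality and the one for `F, E, y`:
`(F - E) * (TT E x - TT F y) ≥ 0`, so `TT F y ≤ TT E x`.  Let `F → E` from above: by
`VI.lf_cont` `TT F y → TT E y`, so `TT E y ≤ TT E x`.  Exchange `x` and `y`. -/
theorem VI.TT_const {E : ℝ} (hE : P.E0 < E) {h : Z2} (hh : Prim h) (x y : R2) :
    P.TT E h x = P.TT E h y := by
  have key : ∀ E F : ℝ, P.E0 < E → P.E0 < F → ∀ x : R2,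
      phi (P.D F) h ≤ phi (P.D E) h + (F - E) * P.TT E h x := by
    intro E F hE hF x
    obtain ⟨ht, -, hX, hA⟩ := P.lf_arc hE hh x
    have h1 := P.Dact F hF (P.TT E h x) x (P.V E h x) ht.le
    rw [hX, P.fill hF hh x] at h1
    rw [P.fill hE hh x] at hA
    linarith
  have mono : ∀ E F : ℝ, P.E0 < E → E < F → ∀ x y : R2, P.TT F h y ≤ P.TT E h x := by
    intro E F hE hEF x y
    have h1 := key E F hE (hE.trans hEF) x
    have h2 := key F E (hE.trans hEF) hE y
    have h3 : 0 ≤ (F - E) * (P.TT E h x - P.TT F h y) := by linarith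
    have h4 : 0 < F - E := sub_pos.mpr hEF
    have h5 := nonneg_of_mul_nonneg_right h3 h4
    linarith
  have main : ∀ x y : R2, P.TT E h y ≤ P.TT E h x := by
    intro x y
    have hc : Tendsto (fun F : ℝ => P.TT F h y) (𝓝[>] E) (𝓝 (P.TT E h y)) := by
      have h1 := (P.lf_cont hh).continuousWithinAt (x := (E, y)) hE
      have h2 : Tendsto (fun F : ℝ => (F, y)) (𝓝[>] E) (𝓝[{p : ℝ × R2 | P.E0 < p.1}] (E, y)) := by
        refine tendsto_nhdsWithin_iff.mpr ⟨?_, ?_⟩
        · exact ((continuous_id.prodMk continuous_const).tendsto E).mono_left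
            nhdsWithin_le_nhds
        · filter_upwards [self_mem_nhdsWithin] with F hF
          exact hE.trans hF
      have h3 := h1.tendsto.comp h2
      exact (continuous_snd.tendsto _).comp h3
    refine le_of_tendsto hc ?_
    filter_upwards [self_mem_nhdsWithin] with F hF
    exact mono E F hE hF x y
  exact le_antisymm (main y x) (main x y)

/-- The cost of `n` turns (C4): `Met.phi_le` and `Met.hom` for `n • h`. -/
theorem VI.turns {E : ℝ} (hE : P.E0 < E) (h : Z2) (x : R2) (n : ℕ) :
    n * phi (P.D E) h ≤ P.D E x (x + (n : ℝ) • lv h) := by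
  have hm := P.met hE
  rw [← hm.hom h n, ← lv_nsmul]
  exact hm.phi_le x (n • h)

/-- Periods are bounded below: `1 ≤ C * TT` if `C` bounds the velocities of energy at most
`R` (`VI.dist_le`, `one_le_lv`). -/
theorem VI.one_le_period {R C : ℝ} (hC : ∀ x v, P.e x v ≤ R → ‖v‖ ≤ C) {E : ℝ}
    (hE : P.E0 < E) (hER : E ≤ R) {h : Z2} (hh : Prim h) (x : R2) : 1 ≤ C * P.TT E h x := by
  obtain ⟨ht, he, hX, -⟩ := P.lf_arc hE hh x
  have h1 := P.dist_le hC (he.le.trans hER) ht.le
  rw [hX, add_sub_cancel_left] at h1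
  exact (one_le_lv (prim_ne hh)).trans h1

end Pool.Agent.DA
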