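import Pool.Agent.DA.UFil

/-!
# D2 part A, T9: the closed minimal orbits of a primitive class
-/

set_option autoImplicit false

namespace Pool.Agent.DA

open Set Filter Topology

variable (P : VI)

/-- Primitive vectors are not zero. -/
theorem prim_ne {h : Z2} (hh : Prim h) : h ≠ 0 := by
  rintro rfl
  have h1 : IsCoprime (0 : ℤ) 0 := hh
  exact not_isUnit_zero (isCoprime_zero_left.1 h1)

/-- The chosen pair is an arc (`Dex`, `x ≠ x + lv h`). -/
theorem VI.lf_arc {E : ℝ} (hE : P.E0 < E) {h : Z2} (hh : Prim h) (x : R2) :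
    P.Arc E x (P.V E h x) (P.TT E h x) (x + lv h) := by
  classical
  have h0 : lv h ≠ 0 := lv_ne (prim_ne hh)
  have hne : x ≠ x + lv h := by
    intro hx
    exact h0 (by simpa using hx.symm)
  obtain ⟨v, t, h1, h2, h3, h4⟩ := P.Dex E hE x (x + lv h) hne
  have H : ∃ p : R2 × ℝ, P.Arc E x p.1 p.2 (x + lv h) := ⟨(v, t), h1, h2, h3, h4⟩
  have h5 : P.lf E h x = Classical.choose H := by
    unfold VI.lf
    rw [dif_pos H]
  have h6 := Classical.choose_spec H
  rw [← h5] at h6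
  exact h6

/-- It is the only arc, and there is no corner (`VI.uni`, `VI.fill`, `Met.hom`). -/
theorem VI.lf_uniq {E : ℝ} (hE : P.E0 < E) {h : Z2} (hh : Prim h) {x v : R2} {T : ℝ}
    (ha : P.Arc E x v T (x + lv h)) : v = P.V E h x ∧ T = P.TT E h x ∧ P.W T x v = v := by
  have h2 : phi (P.D E) (2 • h) = 2 * phi (P.D E) h := by
    have := (P.met hE).hom h 2
    simpa using this
  exact P.uni hE (P.fill hE hh x) h2 ha (P.lf_arc hE hh x)

/-- Periodicity (`VI.Arc.shift`, `VI.lf_uniq`). -/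
theorem VI.lf_per {E : ℝ} (hE : P.E0 < E) {h : Z2} (hh : Prim h) (x : R2) (k : Z2) :
    P.V E h (x + lv k) = P.V E h x ∧ P.TT E h (x + lv k) = P.TT E h x := by
  have h1 := VI.Arc.shift P hE (P.lf_arc hE hh x) k
  have h2 : x + lv h + lv k = x + lv k + lv h := by abel
  rw [h2] at h1
  obtain ⟨h3, h4, -⟩ := P.lf_uniq hE hh h1
  exact ⟨h3.symm, h4.symm⟩

/-- Invariance along the orbit.

Proof. Put `v = V x`, `T = TT x`, `y = X t x v`, `w = W t x v`.  `W T x v = v` (`VI.lf_uniq`), so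
`X T y w = X (t + T) x v = X t x v + lv h` (`VI.X_shift`); `e y w = E` (`econs`);
`A T y w = A (t + T) x v - A t x v = A T x v` (`Aadd`, `VI.A_shift`), so
`A T y w + E T = D E x (x + h) = phi (D E) h = D E y (y + h)` (`VI.fill`).  So `(w, T)` is an arc
from `y` to `y + h`; `VI.lf_uniq`. -/
theorem VI.lf_flow {E : ℝ} (hE : P.E0 < E) {h : Z2} (hh : Prim h) (x : R2) (t : ℝ) :
    P.V E h (P.X t x (P.V E h x)) = P.W t x (P.V E h x) ∧
      P.TT E h (P.X t x (P.V E h x)) = P.TT E h x := by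
  have ha := P.lf_arc hE hh x
  obtain ⟨-, -, hW⟩ := P.lf_uniq hE hh ha
  obtain ⟨hT, he, hX, hA⟩ := ha
  have hX' : P.X (P.TT E h x) (P.X t x (P.V E h x)) (P.W t x (P.V E h x)) =
      P.X t x (P.V E h x) + lv h := by
    rw [← P.Xadd, P.X_shift hX hW]
  have hA' : P.A (P.TT E h x) (P.X t x (P.V E h x)) (P.W t x (P.V E h x)) =
      P.A (P.TT E h x) x (P.V E h x) := by
    have h1 := P.Aadd t (P.TT E h x) x (P.V E h x)
    rw [P.A_shift hX hW] at h1
    linarith
  have harc : P.Arc E (P.X t x (P.V E h x)) (P.W t x (P.V E h x)) (P.TT E h x)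
      (P.X t x (P.V E h x) + lv h) := by
    refine ⟨hT, ?_, hX', ?_⟩
    · rw [P.econs]
      exact he
    · rw [hA', hA, P.fill hE hh, P.fill hE hh]
  obtain ⟨h3, h4, -⟩ := P.lf_uniq hE hh harc
  exact ⟨h3.symm, h4.symm⟩

end Pool.Agent.DA
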