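import Pool.Agent.DA.UBas

/-!
# D2 part A, U0: limits of minimal arcs
-/

set_option autoImplicit false

namespace Pool.Agent.DA

open Set Filter Topology

variable (P : VI)

/-- Limits of minimal arcs.

Proof. Let `E1 = (E + E0) / 2`, `E2 = E + 1`.  For large `n`, `E1 ≤ En n ≤ E2`.  `ebd E2` bounds
the `vn n`, `Dtime E1 E2` the `Tn n` (the distances `‖yn n - xn n‖` converge), and `Tn n > 0`.  So
`(vn n, Tn n)` has a convergent subsequence (`tendsto_subseq_of_bounded`), with limit `(v, T)`.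
By continuity (`econt`, `Xcont`, `Acont`, `Dcont` at `(E, x, y)`, where the set `{E0 < E}` is
open) `e x v = E`, `X T x v = y`, `A T x v + E T = D E x y`, `0 ≤ T`; `T = 0` would give
`y = X 0 x v = x`. -/
theorem VI.arc_lim {E : ℝ} (hE : P.E0 < E) {x y : R2} (hxy : x ≠ y) {En : ℕ → ℝ}
    {xn yn vn : ℕ → R2} {Tn : ℕ → ℝ} (h : ∀ n, P.Arc (En n) (xn n) (vn n) (Tn n) (yn n))
    (hEn : Tendsto En atTop (𝓝 E)) (hx : Tendsto xn atTop (𝓝 x))
    (hy : Tendsto yn atTop (𝓝 y)) :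
    ∃ (ψ : ℕ → ℕ) (v : R2) (T : ℝ), StrictMono ψ ∧ Tendsto (vn ∘ ψ) atTop (𝓝 v) ∧
      Tendsto (Tn ∘ ψ) atTop (𝓝 T) ∧ P.Arc E x v T y := by
  have hE1 : P.E0 < (E + P.E0) / 2 := by linarith
  obtain ⟨C, hC⟩ := P.ebd (E + 1)
  obtain ⟨C', hC'⟩ := P.Dtime ((E + P.E0) / 2) (E + 1) hE1
  have ev1 : ∀ᶠ n in atTop, (E + P.E0) / 2 < En n :=
    hEn.eventually (lt_mem_nhds (by linarith))
  have ev2 : ∀ᶠ n in atTop, En n < E + 1 := hEn.eventually (gt_mem_nhds (by linarith))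
  have hd : Tendsto (fun n => ‖yn n - xn n‖) atTop (𝓝 ‖y - x‖) := (hy.sub hx).norm
  have ev3 : ∀ᶠ n in atTop, ‖yn n - xn n‖ < ‖y - x‖ + 1 :=
    hd.eventually (gt_mem_nhds (by linarith))
  set R : ℝ := max C (|C'| * (1 + (‖y - x‖ + 1))) with hR
  have hb : Bornology.IsBounded (Metric.closedBall (0 : R2 × ℝ) R) := Metric.isBounded_closedBall
  have hmem : ∀ᶠ n in atTop, (vn n, Tn n) ∈ Metric.closedBall (0 : R2 × ℝ) R := by
    filter_upwards [ev1, ev2, ev3] with n h1 h2 h3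
    obtain ⟨a1, a2, a3, a4⟩ := h n
    rw [mem_closedBall_zero_iff, Prod.norm_def]
    refine max_le ?_ ?_
    · refine le_trans (hC (xn n) (vn n) ?_) (le_max_left _ _)
      rw [a2]
      exact h2.le
    · refine le_trans ?_ (le_max_right _ _)
      show ‖Tn n‖ ≤ _
      rw [Real.norm_eq_abs, abs_of_pos a1]
      have h4 := hC' (En n) (xn n) (yn n) (vn n) (Tn n) h1.le h2.le a1 a2 a3 a4
      have h5 : 0 ≤ 1 + ‖yn n - xn n‖ := by positivity
      calc Tn n ≤ C' * (1 + ‖yn n - xn n‖) := h4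
        _ ≤ |C'| * (1 + ‖yn n - xn n‖) := mul_le_mul_of_nonneg_right (le_abs_self _) h5
        _ ≤ |C'| * (1 + (‖y - x‖ + 1)) :=
          mul_le_mul_of_nonneg_left (by linarith) (abs_nonneg _)
  obtain ⟨⟨v, T⟩, -, ψ, hψ, hlim⟩ := tendsto_subseq_of_frequently_bounded hb hmem.frequently
  have hv : Tendsto (vn ∘ ψ) atTop (𝓝 v) := (continuous_fst.tendsto (v, T)).comp hlim
  have hT : Tendsto (Tn ∘ ψ) atTop (𝓝 T) := (continuous_snd.tendsto (v, T)).comp hlim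
  have hψt := hψ.tendsto_atTop
  have hxψ : Tendsto (xn ∘ ψ) atTop (𝓝 x) := hx.comp hψt
  have hyψ : Tendsto (yn ∘ ψ) atTop (𝓝 y) := hy.comp hψt
  have hEψ : Tendsto (En ∘ ψ) atTop (𝓝 E) := hEn.comp hψt
  have k0 : 0 ≤ T := ge_of_tendsto' hT fun n => (h (ψ n)).1.le
  have hxv : Tendsto (fun n => ((xn ∘ ψ) n, (vn ∘ ψ) n)) atTop (𝓝 (x, v)) := hxψ.prodMk_nhds hv
  have htxv : Tendsto (fun n => ((Tn ∘ ψ) n, ((xn ∘ ψ) n, (vn ∘ ψ) n))) atTop
      (𝓝 (T, (x, v))) := hT.prodMk_nhds hxv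
  have k1 : P.e x v = E := by
    have h1 := (P.econt.tendsto (x, v)).comp hxv
    refine tendsto_nhds_unique h1 (hEψ.congr fun n => ?_)
    exact (h (ψ n)).2.1.symm
  have k2 : P.X T x v = y := by
    have h1 := (P.Xcont.tendsto (T, (x, v))).comp htxv
    refine tendsto_nhds_unique h1 (hyψ.congr fun n => ?_)
    exact (h (ψ n)).2.2.1.symm
  have k3 : P.A T x v + E * T = P.D E x y := by
    have h1 := (P.Acont.tendsto (T, (x, v))).comp htxv
    have h2 : Tendsto (fun n => P.A ((Tn ∘ ψ) n) ((xn ∘ ψ) n) ((vn ∘ ψ) n) +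
        (En ∘ ψ) n * (Tn ∘ ψ) n) atTop (𝓝 (P.A T x v + E * T)) := h1.add (hEψ.mul hT)
    have ho : IsOpen {p : ℝ × R2 × R2 | P.E0 < p.1} := isOpen_lt continuous_const continuous_fst
    have h3 : ContinuousAt (fun p : ℝ × R2 × R2 => P.D p.1 p.2.1 p.2.2) (E, (x, y)) :=
      P.Dcont.continuousAt (ho.mem_nhds hE)
    have h4 : Tendsto (fun n => ((En ∘ ψ) n, ((xn ∘ ψ) n, (yn ∘ ψ) n))) atTop
        (𝓝 (E, (x, y))) := hEψ.prodMk_nhds (hxψ.prodMk_nhds hyψ)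
    have h5 := h3.tendsto.comp h4
    refine tendsto_nhds_unique h2 (h5.congr fun n => ?_)
    exact (h (ψ n)).2.2.2.symm
  refine ⟨ψ, v, T, hψ, hv, hT, ?_, k1, k2, k3⟩
  rcases k0.lt_or_eq with h1 | h1
  · exact h1
  · exfalso
    rw [← h1, P.X0] at k2
    exact hxy k2

end Pool.Agent.DA
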