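import Pool.Agent.DA.UBas

/-!
# D2 part A, U0: the potentials are directed distances
-/

set_option autoImplicit false

namespace Pool.Agent.DA

open Set Filter Topology

private theorem UMet_dir (x : R2) : ∃ u : R2, ‖u‖ ≤ 1 ∧ dt u x = ‖x‖ := by
  rcases le_total |x.2| |x.1| with h | h
  · have hn : ‖x‖ = |x.1| := by
      rw [Prod.norm_def, Real.norm_eq_abs, Real.norm_eq_abs, max_eq_left h]
    rcases le_total 0 x.1 with h0 | h0
    · refine ⟨(1, 0), by simp [Prod.norm_def], ?_⟩
      rw [hn, abs_of_nonneg h0]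
      simp [dt]
    · refine ⟨(-1, 0), by simp [Prod.norm_def], ?_⟩
      rw [hn, abs_of_nonpos h0]
      simp [dt]
  · have hn : ‖x‖ = |x.2| := by
      rw [Prod.norm_def, Real.norm_eq_abs, Real.norm_eq_abs, max_eq_right h]
    rcases le_total 0 x.2 with h0 | h0
    · refine ⟨(0, 1), by simp [Prod.norm_def], ?_⟩
      rw [hn, abs_of_nonneg h0]
      simp [dt]
    · refine ⟨(0, -1), by simp [Prod.norm_def], ?_⟩
      rw [hn, abs_of_nonpos h0]
      simp [dt]

variable (P : VI)

/-- The dual body of `D E` is the sublevel set of the alpha function.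

Proof. `bridge`; `dt c (lv m) ≤ D E x (x + lv m)` for all `x` iff `dt c (lv m) ≤ phi (D E) m`
(`le_ciInf`, `ciInf_le`; boundedness below for the second direction: if `al c ≤ E` the
`bridge` gives the lower bound; for the first direction apply `bridge` with the class `c0` of
`almin`, `al c0 = E0 ≤ E`, to see that the family is bounded below). -/
theorem VI.ks {E : ℝ} (hE : P.E0 < E) : KS (P.D E) = {c | P.al c ≤ E} := by
  obtain ⟨c0, hc0⟩ := P.almin
  have hb := (P.bridge E hE c0).1 (by rw [hc0]; exact hE.le)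
  ext c
  constructor
  · intro hc
    refine (P.bridge E hE c).2 fun x m => (hc m).trans ?_
    exact ciInf_le ⟨dt c0 (lv m), by rintro _ ⟨y, rfl⟩; exact hb y m⟩ x
  · intro hc m
    exact le_ciInf fun x => (P.bridge E hE c).1 hc x m

/-- Continuity of the alpha function (a convex function on a finite-dimensional space). -/
theorem VI.al_cont : Continuous P.al :=
  continuousOn_univ.1 (P.alsc.convexOn.continuousOn isOpen_univ)

/-- For every energy `E > E0` the potential `D E` is a directed distance.

Proof. `self, tri, per, cont`: fields (`Dcont` at fixed `E`).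
`geo`: for `x = y` the constant curve.  For `x ≠ y` take `v, T` from `Dex` and
`γ r = X (r T) x v`; `VI.Arc.add`.
`pos`: `c0` from `almin`; by `VI.al_cont` there is `κ > 0` with `al c ≤ E` whenever
`‖c - c0‖ ≤ κ`.  For `m : Z2` let `c = c0 + κ • u`, where `u` is one of `(±1,0)`, `(0,±1)` with
`dt u (lv m) = ‖lv m‖` (sup norm), and apply `bridge` to `c`. -/
theorem VI.met {E : ℝ} (hE : P.E0 < E) : Met (P.D E) := by
  have hcont : Continuous (fun p : R2 × R2 => P.D E p.1 p.2) := by
    have h1 : Continuous (fun p : R2 × R2 => ((E, p) : ℝ × R2 × R2)) :=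
      continuous_const.prodMk continuous_id
    exact P.Dcont.comp_continuous h1 fun p => hE
  refine ⟨P.Dself E hE, P.Dtri E hE, P.Dper E hE, hcont, ?_, ?_⟩
  · intro x y
    by_cases hxy : x = y
    · subst hxy
      refine ⟨fun _ => x, continuous_const, rfl, rfl, fun s t _ _ _ => ?_⟩
      rw [P.Dself E hE, add_zero, add_zero]
    · obtain ⟨v, T, hT, he, hX, hA⟩ := P.Dex E hE x y hxy
      have harc : P.Arc E x v T y := ⟨hT, he, hX, hA⟩
      refine ⟨fun r => P.X (r * T) x v, ?_, ?_, ?_, ?_⟩
      · have h1 : Continuous (fun r : ℝ => ((r * T, x, v) : ℝ × R2 × R2)) := by fun_prop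
        exact P.Xcont.comp h1
      · simp only [zero_mul]
        exact P.X0 x v
      · simp only [one_mul]
        exact hX
      · intro s t hs hst ht
        exact VI.Arc.add P hE harc (mul_nonneg hs hT.le) (mul_le_mul_of_nonneg_right hst hT.le)
          (by nlinarith)
  · obtain ⟨c0, hc0⟩ := P.almin
    have hopen : IsOpen {c | P.al c < E} := isOpen_lt P.al_cont continuous_const
    obtain ⟨ε, hε, hball⟩ := Metric.isOpen_iff.1 hopen c0 (by
      show P.al c0 < E
      rw [hc0]
      exact hE)
    refine ⟨c0, ε / 2, half_pos hε, fun x m => ?_⟩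
    obtain ⟨u, hu, hum⟩ := UMet_dir (lv m)
    have hmem : c0 + (ε / 2) • u ∈ Metric.ball c0 ε := by
      rw [Metric.mem_ball, dist_eq_norm, add_sub_cancel_left, norm_smul, Real.norm_eq_abs,
        abs_of_pos (half_pos hε)]
      nlinarith
    have hal : P.al (c0 + (ε / 2) • u) < E := hball hmem
    have h1 := (P.bridge E hE _).1 hal.le x m
    rw [add_dt, smul_dt, hum] at h1
    exact h1

/-- Strict convexity of the dual body.

Proof. `VI.ks`.  If `al c ≤ E`, `al c' ≤ E`, `c ≠ c'`, then `al q < E` for the midpoint `q`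
(`alsc`), and `{c | al c < E}` is open (`VI.al_cont`). -/
theorem VI.sck {E : ℝ} (hE : P.E0 < E) : SCK (P.D E) := by
  intro c hc c' hc' hne
  rw [P.ks hE] at hc hc' ⊢
  have hopen : IsOpen {c | P.al c < E} := isOpen_lt P.al_cont continuous_const
  have hsub : {c | P.al c < E} ⊆ interior {c | P.al c ≤ E} :=
    interior_maximal (fun c (h : P.al c < E) => h.le) hopen
  apply hsub
  have h1 := P.alsc.2 (mem_univ c) (mem_univ c') hne (by norm_num : (0 : ℝ) < 1 / 2)
    (by norm_num : (0 : ℝ) < 1 / 2) (by norm_num)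
  have h2 : P.al c ≤ E := hc
  have h3 : P.al c' ≤ E := hc'
  show P.al ((1 / 2 : ℝ) • (c + c')) < E
  rw [smul_add]
  simp only [smul_eq_mul] at h1
  linarith

end Pool.Agent.DA
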