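import Pool.Agent.DA.ULCon

/-!
# D2 part A, T9: minimality of the leaves
-/

set_option autoImplicit false

namespace Pool.Agent.DA

open Set Filter Topology

variable (P : VI)

/-- `n` turns of the closed orbit (induction with `VI.X_shift`, `VI.W_shift`, `VI.A_shift`). -/
theorem VI.n_turns {E : ℝ} (hE : P.E0 < E) {h : Z2} (hh : Prim h) (x : R2) (n : ℕ) :
    P.X (n * P.TT E h x) x (P.V E h x) = x + (n : ℝ) • lv h ∧
    P.W (n * P.TT E h x) x (P.V E h x) = P.V E h x ∧
    P.A (n * P.TT E h x) x (P.V E h x) + E * (n * P.TT E h x) = n * phi (P.D E) h := by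
  have ha := P.lf_arc hE hh x
  have hX := ha.2.2.1
  have hW := (P.lf_uniq hE hh ha).2.2
  have hA : P.A (P.TT E h x) x (P.V E h x) + E * P.TT E h x = phi (P.D E) h := by
    rw [ha.2.2.2]
    exact P.fill hE hh x
  induction n with
  | zero =>
    rw [Nat.cast_zero, zero_mul, P.X0, P.W0, P.A0, zero_smul]
    refine ⟨(add_zero _).symm, rfl, ?_⟩
    ring
  | succ n ih =>
    obtain ⟨h1, h2, h3⟩ := ih
    have h4 : ((n + 1 : ℕ) : ℝ) * P.TT E h x = n * P.TT E h x + P.TT E h x := by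
      push_cast
      ring
    rw [h4, P.X_shift hX hW, P.W_shift hX hW, P.A_shift hX hW]
    refine ⟨?_, h2, ?_⟩
    · rw [h1]
      push_cast
      rw [add_smul, one_smul, add_assoc]
    · push_cast
      linarith

/-- The closed orbits are minimal on every interval.

Proof. Take `n` with `t ≤ n T`, `T = TT E h x`.  By `VI.n_turns` and `VI.turns`
`(V, n T)` is a minimal arc from `x` to `x + n h` (for `n ≥ 1`; `n phi ≤ D ≤` cost `= n phi`).
`VI.Arc.sub` with `s = 0`. -/
theorem VI.leaf_min {E : ℝ} (hE : P.E0 < E) {h : Z2} (hh : Prim h) (x : R2) {t : ℝ}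
    (ht : 0 ≤ t) :
    P.D E x (P.X t x (P.V E h x)) = P.A t x (P.V E h x) + E * t := by
  have ha := P.lf_arc hE hh x
  have hT : 0 < P.TT E h x := ha.1
  obtain ⟨k, hk⟩ := exists_nat_ge (t / P.TT E h x)
  rw [div_le_iff₀ hT] at hk
  obtain ⟨h1, -, h3⟩ := P.n_turns hE hh x (k + 1)
  have hkT : 0 < ((k + 1 : ℕ) : ℝ) * P.TT E h x := by positivity
  have htk : t ≤ ((k + 1 : ℕ) : ℝ) * P.TT E h x := by
    push_cast
    linarith
  have harc : P.Arc E x (P.V E h x) (((k + 1 : ℕ) : ℝ) * P.TT E h x)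
      (x + ((k + 1 : ℕ) : ℝ) • lv h) := by
    refine ⟨hkT, ha.2.1, h1, le_antisymm ?_ ?_⟩
    · rw [h3]
      exact P.turns hE h x (k + 1)
    · have h5 := P.Dact E hE (((k + 1 : ℕ) : ℝ) * P.TT E h x) x (P.V E h x) hkT.le
      rwa [h1] at h5
  have h6 := VI.Arc.sub P hE harc le_rfl ht htk
  rwa [P.X0, P.A0, sub_zero, sub_zero] at h6

private theorem UMin_no {E : ℝ} (hE : P.E0 < E) {h : Z2} (hh : Prim h) (x : R2) {s t : ℝ}
    (hlt : s < t) (hst : P.X s x (P.V E h x) = P.X t x (P.V E h x)) : False := by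
  have h1 := (P.lf_flow hE hh x s).1
  have h2 : P.X (t - s) (P.X s x (P.V E h x)) (P.W s x (P.V E h x)) =
      P.X s x (P.V E h x) := by
    rw [← P.Xadd, hst]
    congr 1
    ring
  have h3 := P.no_return hE (sub_pos.2 hlt) h2
  have h4 := P.leaf_min hE hh (P.X s x (P.V E h x)) (sub_pos.2 hlt).le
  rw [h1, h2, P.Dself E hE] at h4
  linarith

/-- The closed orbits have no return in the plane.

Proof. We may suppose `s < t` and (by `VI.lf_flow` and `Xadd`: replace `x` by `X s x V`) `s = 0`: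
`X t x V = x`, `t > 0`: `0 = D E x x = A t x V + E t` (`VI.leaf_min`), against `VI.no_return`. -/
theorem VI.leaf_inj {E : ℝ} (hE : P.E0 < E) {h : Z2} (hh : Prim h) (x : R2) {s t : ℝ}
    (hst : P.X s x (P.V E h x) = P.X t x (P.V E h x)) : s = t := by
  by_contra hne
  rcases lt_or_gt_of_ne hne with h1 | h1
  · exact UMin_no P hE hh x h1 hst
  · exact UMin_no P hE hh x h1 hst.symm

end Pool.Agent.DA
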