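import Pool.Agent.DA.UArc
import Pool.Agent.DA.ULim

/-!
# D2 part A, T8b: two arcs of different index
-/

set_option autoImplicit false

namespace Pool.Agent.DA

open Set Filter Topology

variable (P : VI)

private theorem wv_cont' (e e' : Z2) (x0 z v : R2) (T : ℝ) :
    Continuous (P.wv e e' x0 z v T) := by
  unfold VI.wv
  have h1 : Continuous fun r : ℝ => P.X (r * T) z v :=
    P.Xcont.comp (by fun_prop : Continuous fun r : ℝ => (r * T, z, v))
  have h2 : Continuous fun r : ℝ => zc e e' (P.X (r * T) z v - x0) :=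
    (zc_cont e e').comp (h1.sub continuous_const)
  exact (Complex.continuous_exp.comp (continuous_const.mul h2)).sub continuous_const

private theorem closed_ind {E : ℝ} (hE : P.E0 < E) {e e' : Z2} (hee : dZ e e' = 1) {x0 : R2}
    {γ : ℝ → R2} (hγ : Continuous γ)
    (hlt : ∀ t, P.D E (γ t) (γ t + lv e) < P.D E x0 (x0 + lv e)) (Q : ℤ → Prop) :
    IsClosed {t : ℝ | ∃ v T N, P.Arc E (γ t) v T (γ t + lv e) ∧
      HasInd (P.wv e e' x0 (γ t) v T) N ∧ Q N} := by
  have he0 : lv e ≠ 0 := by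
    refine lv_ne fun h => ?_
    rw [h] at hee
    simp [dZ] at hee
  refine IsSeqClosed.isClosed fun tn t htn ht => ?_
  choose v T N hA hI hQ using htn
  have hz : Tendsto (fun n => γ (tn n)) atTop (𝓝 (γ t)) := (hγ.tendsto t).comp ht
  have hne : γ t ≠ γ t + lv e := fun h => he0 (by simpa using h.symm)
  obtain ⟨ψ, v₀, T₀, hψ, hv, hT, hArc⟩ := P.arc_lim hE hne (En := fun _ => E)
    (xn := fun n => γ (tn n)) (yn := fun n => γ (tn n) + lv e) (vn := v) (Tn := T) hA
    tendsto_const_nhds hz (hz.add_const _)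
  obtain ⟨hw1, hw2⟩ := P.wv_ne hE hee hArc (hlt t)
  obtain ⟨M, hM⟩ := exists_hasInd (wv_cont' P e e' x0 (γ t) v₀ T₀).continuousOn hw1 hw2
  have hev := P.wv_lim hE hee hArc (hlt t) hM (hz.comp hψ.tendsto_atTop) hv hT
    (fun n => (hA (ψ n)).2.2.1)
  obtain ⟨n, hn⟩ := hev.exists
  have h1 := hasInd_unique hn (hI (ψ n))
  refine ⟨v₀, T₀, M, hArc, hM, ?_⟩
  rw [h1]
  exact hQ _

/-- On a quasiperiodic curve transversal to `e` where one turn is cheaper than at `x0` there is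
a point `z` with two minimal arcs from `z` to `z + e` of indices `≥ 1` and `≤ 0` at `x0`.

Proof. Let `S1` (`S0`) be the set of the `t` such that some arc from `γ t` to `γ t + e` has an
index `≥ 1` (`≤ 0`).  `S0 ∪ S1 = ℝ`: arcs exist (`Dex`, `z ≠ z + e`) and have an index
(`exists_hasInd`, `VI.wv_ne`).  Both are closed: for `t n → t` the arcs have a subsequence
converging to an arc from `γ t` to `γ t + e` (`VI.arc_lim` with constant energy), which has some
index `N` (`exists_hasInd`); by `VI.wv_lim` and `hasInd_unique` the indices are equal to `N` for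
large `n`.  Both are not empty: `VI.far`, as `zb e (γ (t + 1)) = zb e (γ t) + 1`
(`zb e (lv (m • e + e')) = dZ e e' = 1`), so `zb e (γ t)` takes arbitrarily large positive and
negative values.  `ℝ` is connected: `S0 ∩ S1` is not empty
(`isPreconnected_closed_iff`). -/
theorem VI.two_arcs {E : ℝ} (hE : P.E0 < E) {e e' : Z2} (hee : dZ e e' = 1) {x0 : R2}
    {m : ℕ} {γ : ℝ → R2} (hγ : Continuous γ) (hp : ∀ t, γ (t + 1) = γ t + lv (m • e + e'))
    (hlt : ∀ t, P.D E (γ t) (γ t + lv e) < P.D E x0 (x0 + lv e)) :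
    ∃ t v T v' T' N N', P.Arc E (γ t) v T (γ t + lv e) ∧ P.Arc E (γ t) v' T' (γ t + lv e) ∧
      HasInd (P.wv e e' x0 (γ t) v T) N ∧ HasInd (P.wv e e' x0 (γ t) v' T') N' ∧
      1 ≤ N ∧ N' ≤ 0 := by
  have he0 : lv e ≠ 0 := by
    refine lv_ne fun h => ?_
    rw [h] at hee
    simp [dZ] at hee
  have hex : ∀ t, ∃ v T, P.Arc E (γ t) v T (γ t + lv e) := by
    intro t
    have hne : γ t ≠ γ t + lv e := fun h => he0 (by simpa using h.symm)
    obtain ⟨v, T, h1, h2, h3, h4⟩ := P.Dex E hE _ _ hne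
    exact ⟨v, T, h1, h2, h3, h4⟩
  set S1 : Set ℝ := {t : ℝ | ∃ v T N, P.Arc E (γ t) v T (γ t + lv e) ∧
      HasInd (P.wv e e' x0 (γ t) v T) N ∧ 1 ≤ N} with hS1
  set S0 : Set ℝ := {t : ℝ | ∃ v T N, P.Arc E (γ t) v T (γ t + lv e) ∧
      HasInd (P.wv e e' x0 (γ t) v T) N ∧ N ≤ 0} with hS0
  have hc1 : IsClosed S1 := closed_ind P hE hee hγ hlt (fun N => 1 ≤ N)
  have hc0 : IsClosed S0 := closed_ind P hE hee hγ hlt (fun N => N ≤ 0)
  have hcov : (univ : Set ℝ) ⊆ S1 ∪ S0 := by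
    intro t _
    obtain ⟨v, T, hA⟩ := hex t
    obtain ⟨hw1, hw2⟩ := P.wv_ne hE hee hA (hlt t)
    obtain ⟨M, hM⟩ := exists_hasInd (wv_cont' P e e' x0 (γ t) v T).continuousOn hw1 hw2
    rcases le_or_gt 1 M with h | h
    · exact Or.inl ⟨v, T, M, hA, hM, h⟩
    · exact Or.inr ⟨v, T, M, hA, hM, by omega⟩
  obtain ⟨B, hB⟩ := P.far hE hee x0
  have hee' : (e.1 : ℝ) * e'.2 - e.2 * e'.1 = 1 := by
    have : ((dZ e e' : ℤ) : ℝ) = 1 := by rw [hee]; norm_num
    unfold dZ at this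
    push_cast at this
    exact this
  have hstep : ∀ t, zb e (γ (t + 1)) = zb e (γ t) + 1 := by
    intro t
    rw [hp]
    have h1 : zb e (γ t + lv (m • e + e')) =
        zb e (γ t) + ((e.1 : ℝ) * e'.2 - e.2 * e'.1) := by
      rw [lv_add, lv_nsmul]
      simp only [zb, dR, lv, Prod.fst_add, Prod.snd_add, Prod.smul_fst, Prod.smul_snd,
        smul_eq_mul]
      ring
    rw [h1, hee']
  have hup : ∀ n : ℕ, zb e (γ n) = zb e (γ 0) + n := by
    intro n
    induction n with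
    | zero => simp
    | succ n ih =>
      push_cast
      rw [hstep, ih]
      ring
  have hdown : ∀ n : ℕ, zb e (γ (-(n : ℝ))) = zb e (γ 0) - n := by
    intro n
    induction n with
    | zero => simp
    | succ n ih =>
      have h1 := hstep (-((n : ℝ) + 1))
      have h2 : -((n : ℝ) + 1) + 1 = -(n : ℝ) := by ring
      rw [h2, ih] at h1
      push_cast
      linarith
  have hn1 : (univ ∩ S1).Nonempty := by
    obtain ⟨n, hn⟩ := exists_nat_ge (zb e (γ 0) + B)
    obtain ⟨v, T, hA⟩ := hex (-(n : ℝ))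
    refine ⟨-(n : ℝ), trivial, v, T, 1, hA, (hB _ _ _ hA (hlt _)).2 ?_, le_rfl⟩
    rw [hdown]
    linarith
  have hn0 : (univ ∩ S0).Nonempty := by
    obtain ⟨n, hn⟩ := exists_nat_ge (B - zb e (γ 0))
    obtain ⟨v, T, hA⟩ := hex (n : ℝ)
    refine ⟨(n : ℝ), trivial, v, T, 0, hA, (hB _ _ _ hA (hlt _)).1 ?_, le_rfl⟩
    rw [hup]
    linarith
  obtain ⟨t, -, ⟨v, T, N, h1, h2, h3⟩, ⟨v', T', N', h1', h2', h3'⟩⟩ :=
    isPreconnected_closed_iff.1 isPreconnected_univ S1 S0 hc1 hc0 hcov hn1 hn0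
  exact ⟨t, v, T, v', T', N, N', h1, h1', h2, h2', h3, h3'⟩

end Pool.Agent.DA
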